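import Mathlib

/-!
Arithmetic model of weakly consecutive sequences: windows `(x, x+k]` of integers.
`Adm k n`: every prime power dividing `n` is at most `k`.
`Good k x`: for every admissible `n`, adding `x` and `k` produces no carry modulo `n`.
-/

namespace WCS9

/-- every prime power dividing `n` is at most `k` -/
def Adm (k n : ℕ) : Prop := n ≠ 0 ∧ ∀ p e : ℕ, p.Prime → p ^ e ∣ n → p ^ e ≤ k

/-- the window of length `k` behind `x` is weakly consecutive -/
def Good (k : ℕ) (x : ℤ) : Prop :=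
  ∀ n : ℕ, Adm k n → x % (n : ℤ) + (k : ℤ) % (n : ℤ) < (n : ℤ)

theorem adm_of_le {k n : ℕ} (h1 : 1 ≤ n) (h2 : n ≤ k) : Adm k n :=
  ⟨by omega, fun p e _ hd => (Nat.le_of_dvd (by omega) hd).trans h2⟩

theorem Adm.pos {k n : ℕ} (h : Adm k n) : 0 < n := Nat.pos_of_ne_zero h.1

theorem adm_mul {k m n : ℕ} (hm : Adm k m) (hn : Adm k n) (hc : Nat.Coprime m n) :
    Adm k (m * n) := by
  refine ⟨Nat.mul_ne_zero hm.1 hn.1, fun p e hp hd => ?_⟩
  rcases Nat.eq_zero_or_pos e with rfl | he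
  · exact hm.2 p 0 hp (by simp)
  · have h2 : IsPrimePow (p ^ e) := hp.isPrimePow.pow he.ne'
    rcases (Nat.Coprime.isPrimePow_dvd_mul hc h2).1 hd with h | h
    · exact hm.2 p e hp h
    · exact hn.2 p e hp h

theorem Adm.of_dvd {k m n : ℕ} (hn : Adm k n) (h : m ∣ n) : Adm k m :=
  ⟨fun h0 => hn.1 (by subst h0; exact Nat.eq_zero_of_zero_dvd h),
    fun p e hp hd => hn.2 p e hp (hd.trans h)⟩

theorem adm_mul_div {k m n : ℕ} (hm : 1 ≤ m) (hn : Adm (k / m) n) : Adm k (m * n) := by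
  refine ⟨Nat.mul_ne_zero (by omega) hn.1, fun p e hp hd => ?_⟩
  have h1 : e ≤ m.factorization p + n.factorization p := by
    have := (hp.pow_dvd_iff_le_factorization (Nat.mul_ne_zero (by omega) hn.1)).1 hd
    rwa [Nat.factorization_mul (by omega) hn.1, Finsupp.add_apply] at this
  have h2 : p ^ m.factorization p ≤ m :=
    Nat.le_of_dvd (by omega) (Nat.ordProj_dvd m p)
  have h3 : p ^ n.factorization p ≤ k / m := hn.2 p _ hp (Nat.ordProj_dvd n p)
  calc p ^ e ≤ p ^ (m.factorization p + n.factorization p) :=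
        Nat.pow_le_pow_right hp.pos h1
    _ = p ^ m.factorization p * p ^ n.factorization p := pow_add _ _ _
    _ ≤ m * (k / m) := Nat.mul_le_mul h2 h3
    _ ≤ k := Nat.mul_div_le k m

/-- reversal of the window -/
theorem Good.rev {k : ℕ} {x : ℤ} (h : Good k x) : Good k (-((k : ℤ) + 1) - x) := by
  intro n hn
  have h1 := h n hn
  have hpos : (0 : ℤ) < n := by exact_mod_cast hn.pos
  have hx := Int.emod_nonneg x hpos.ne'
  have hk := Int.emod_nonneg (k : ℤ) hpos.ne'
  have e : (-((k : ℤ) + 1) - x) % (n : ℤ) = n - 1 - x % n - (k : ℤ) % n := by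
    have e1 : -((k : ℤ) + 1) - x =
        (n - 1 - x % n - (k : ℤ) % n) + n * (-(x / n) - (k : ℤ) / n - 1) := by
      have a := Int.emod_add_mul_ediv x n
      have b := Int.emod_add_mul_ediv (k : ℤ) n
      linear_combination a + b
    rw [e1, Int.add_mul_emod_self_left]
    exact Int.emod_eq_of_lt (by linarith) (by linarith)
  rw [e]; linarith

theorem rev_rev (k : ℕ) (x : ℤ) : -((k : ℤ) + 1) - (-((k : ℤ) + 1) - x) = x := by ring

/-- the subsequence of the multiples of `m` -/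
theorem Good.div {k : ℕ} {x : ℤ} (h : Good k x) {m : ℕ} (hm : 1 ≤ m) :
    Good (k / m) (x / (m : ℤ)) := by
  intro n hn
  have h1 := h (m * n) (adm_mul_div hm hn)
  have hmpos : (0 : ℤ) < m := by exact_mod_cast hm
  have hnpos : (0 : ℤ) < n := by exact_mod_cast hn.pos
  push_cast at h1 ⊢
  have key : ∀ y : ℤ, y % (m * n) = m * (y / m % n) + y % m := by
    intro y
    have e1 := Int.emod_add_mul_ediv y m
    have e2 := Int.emod_add_mul_ediv (y / m) n
    have e3 : y = (m * (y / m % n) + y % m) + (m * n) * (y / m / n) := by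
      linear_combination (-1 : ℤ) * e1 - (m : ℤ) * e2
    have b1 := Int.emod_nonneg y hmpos.ne'
    have b2 := Int.emod_lt_of_pos y hmpos
    have b3 := Int.emod_nonneg (y / m) hnpos.ne'
    have b4 := Int.emod_lt_of_pos (y / m) hnpos
    have b5 : m * (y / m % n) + y % m < m * n := by nlinarith
    conv_lhs => rw [e3]
    rw [Int.add_mul_emod_self_left]
    exact Int.emod_eq_of_lt (by positivity) b5
  rw [key x, key k] at h1
  have b1 := Int.emod_nonneg x hmpos.ne'
  have b2 := Int.emod_nonneg (k : ℤ) hmpos.ne'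
  have : (m : ℤ) * (x / m % n + (k : ℤ) / m % n) < m * n := by linarith
  exact lt_of_mul_lt_mul_left this hmpos.le

/-- an admissible number with a multiple in the window is at most `k` -/
theorem Good.le_of_dvd {k : ℕ} {x : ℤ} (h : Good k x) {n : ℕ} (hn : Adm k n) {i : ℤ}
    (hi1 : 1 ≤ i) (hi2 : i ≤ k) (hd : (n : ℤ) ∣ x + i) : n ≤ k := by
  by_contra hlt
  push Not at hlt
  have h1 := h n hn
  have hpos : (0 : ℤ) < n := by exact_mod_cast hn.pos
  have hlt' : (k : ℤ) < n := by exact_mod_cast hlt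
  rw [Int.emod_eq_of_lt (by positivity) hlt'] at h1
  have hx := Int.emod_nonneg x hpos.ne'
  have h2 : (x + i) % (n : ℤ) = x % n + i := by
    rw [Int.add_emod, Int.emod_eq_of_lt (a := i) (by linarith) (by linarith)]
    exact Int.emod_eq_of_lt (by linarith) (by linarith)
  have h3 : (x + i) % (n : ℤ) = 0 := Int.emod_eq_zero_of_dvd hd
  linarith

/-- the first multiple of `n` in the window -/
theorem exists_pos {n : ℕ} (hn : 0 < n) (x : ℤ) : ∃ i : ℤ, 1 ≤ i ∧ i ≤ n ∧ (n : ℤ) ∣ x + i := by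
  have hpos : (0 : ℤ) < n := by exact_mod_cast hn
  refine ⟨n - x % n, ?_, ?_, ?_⟩
  · have := Int.emod_lt_of_pos x hpos; linarith
  · have := Int.emod_nonneg x hpos.ne'; linarith
  · refine ⟨x / n + 1, ?_⟩
    have := Int.emod_add_mul_ediv x n
    linear_combination (-1 : ℤ) * this

/-- divisibility by `n` follows from divisibility by the prime powers dividing `n` -/
theorem dvd_of_ppow {n : ℕ} {z : ℤ}
    (h : ∀ p e : ℕ, p.Prime → p ^ e ∣ n → ((p ^ e : ℕ) : ℤ) ∣ z) : (n : ℤ) ∣ z := by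
  rw [← Int.natAbs_dvd_natAbs, Int.natAbs_natCast]
  rw [Nat.dvd_iff_prime_pow_dvd_dvd]
  intro p e hp hd
  have := h p e hp hd
  rwa [← Int.natAbs_dvd_natAbs, Int.natAbs_natCast] at this

/-- product of coprime divisors of `x + i` -/
theorem Good.mul_le {k : ℕ} {x : ℤ} (h : Good k x) {a b : ℕ} (ha : Adm k a) (hb : Adm k b)
    (hc : Nat.Coprime a b) {i : ℤ} (hi1 : 1 ≤ i) (hi2 : i ≤ k) (h1 : (a : ℤ) ∣ x + i)
    (h2 : (b : ℤ) ∣ x + i) : a * b ≤ k := by
  refine h.le_of_dvd (adm_mul ha hb hc) hi1 hi2 ?_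
  push_cast
  exact IsCoprime.mul_dvd (Nat.isCoprime_iff_coprime.2 hc) h1 h2

/-- for `n ∣ k+1`, `n ≤ k`, or `n = k+1` admissible: `n ∣ x` -/
theorem Good.dvd_of_dvd_succ {k : ℕ} {x : ℤ} (h : Good k x) {n : ℕ} (hn : Adm k n)
    (hd : n ∣ k + 1) : (n : ℤ) ∣ x := by
  have h1 := h n hn
  have hpos : (0 : ℤ) < n := by exact_mod_cast hn.pos
  have hx := Int.emod_nonneg x hpos.ne'
  have e : (k : ℤ) % n = n - 1 := by
    obtain ⟨c, hc⟩ := hd
    have : (k : ℤ) = (n - 1) + n * (c - 1) := by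
      have : (k : ℤ) + 1 = n * c := by exact_mod_cast hc
      linear_combination this
    rw [this, Int.add_mul_emod_self_left]
    exact Int.emod_eq_of_lt (by linarith) (by linarith)
  have : x % n = 0 := by linarith
  exact Int.dvd_of_emod_eq_zero this

/-- classification data in positive orientation -/
structure Cls (k : ℕ) (x : ℤ) (X : ℕ) : Prop where
  le2 : X ≤ 2
  low : ∀ n : ℕ, 1 ≤ n → n < k / 2 → (n : ℤ) ∣ x - X
  mid : X ≤ 1 → ∀ q : ℕ, q.Prime → 2 * k < 3 * q → q < k → (q : ℤ) ∣ x - X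
  one : X = 1 → (k + 1).Prime
  two : X = 2 → ∃ p : ℕ, p.Prime ∧ (p + 2).Prime ∧ (2 * p + 1).Prime ∧ k + 1 = 2 * p

end WCS9
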