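import Pool.Agent.Lib.MP_9abbac_co.K

namespace WCS9
open Equiv

theorem C01_tr {k X : ℕ} {σ τ : Perm (Seg k)} (hf : flags k σ X = flags k τ X) {q : ℕ}
    (hq : q ∈ sw k X) (h : ¬ WP k σ q X) : ¬ WP k τ q X := by
  have h1 : q ∈ flags k σ X := by
    simp only [flags, Finset.mem_filter]
    exact ⟨hq, h⟩
  rw [hf] at h1
  simp only [flags, Finset.mem_filter] at h1
  exact h1.2

theorem C01_aux {k X : ℕ} {σ τ : Perm (Seg k)} (hk : 16 ≤ k) (hσ : Plus k σ X) (hτ : Plus k τ X)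
    (hf : flags k σ X = flags k τ X) {p e : ℕ} (hp : p.Prime) (he : 2 ≤ e) (hle : p ^ e ≤ k)
    (hw : ¬ WP k σ (p ^ e) X) :
    ∀ i : Seg k, p ^ e ∣ (σ i : ℕ) ↔ p ^ e ∣ (τ i : ℕ) := by
  obtain ⟨h1, h2⟩ := K1 hk hσ hp he hle hw
  have hmem : p ^ e ∈ sw k X := by
    unfold sw
    rw [Finset.mem_union]
    left
    unfold ppSet
    rw [Finset.mem_filter, Finset.mem_Icc]
    refine ⟨⟨Nat.one_le_iff_ne_zero.mpr (pow_ne_zero e hp.ne_zero), hle⟩,
      hp.isPrimePow.pow (by omega), ?_⟩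
    have h3 : (p ^ e).minFac = p := hp.pow_minFac (by omega)
    rw [h3]
    have h4 : p ^ e / p = p ^ (e - 1) := by
      obtain ⟨f, rfl⟩ : ∃ f, e = f + 1 := ⟨e - 1, by omega⟩
      rw [pow_succ, Nat.mul_div_cancel _ hp.pos]
      simp
    rw [h4]
    omega
  have hw' := C01_tr hf hmem hw
  obtain ⟨h3, _⟩ := K1 hk hτ hp he hle hw'
  intro i
  rw [h1, h3]

/-- Row C01: proper prime powers `≥ k/2`.  If `p^e` is misplaced in `σ`, then `K1` gives `k + 1 + X ≤ p^e + p^(e-1)`, so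
`p^e ∈ ppSet k ⊆ sw k X` and it is a flag of `σ`, hence of `τ`, hence misplaced in `τ`, and both classes are given by `K1`.
Symmetric; if it is well placed in both, `WP` gives the class. -/
theorem cls_eq_pp {k X : ℕ} {σ τ : Perm (Seg k)} (hk : 16 ≤ k) (hσ : Plus k σ X) (hτ : Plus k τ X)
    (hf : flags k σ X = flags k τ X) {p e : ℕ} (hp : p.Prime) (he : 2 ≤ e) (hle : p ^ e ≤ k) :
    ∀ i : Seg k, p ^ e ∣ (σ i : ℕ) ↔ p ^ e ∣ (τ i : ℕ) := by
  by_cases h1 : WP k σ (p ^ e) X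
  · by_cases h2 : WP k τ (p ^ e) X
    · intro i
      rw [h1 i, h2 i]
    · intro i
      exact (C01_aux hk hτ hσ hf.symm hp he hle h2 i).symm
  · exact C01_aux hk hσ hτ hf hp he hle h1

end WCS9
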