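import Pool.Agent.Lib.MP_9abbac_co.K

namespace WCS9
open Equiv

theorem C02_tr {k X : ℕ} {σ τ : Perm (Seg k)} (hf : flags k σ X = flags k τ X) {q : ℕ}
    (hq : q ∈ sw k X) (h : ¬ WP k σ q X) : ¬ WP k τ q X := by
  have h1 : q ∈ flags k σ X := by
    simp only [flags, Finset.mem_filter]
    exact ⟨hq, h⟩
  rw [hf] at h1
  simp only [flags, Finset.mem_filter] at h1
  exact h1.2

theorem C02_mem_half {k X : ℕ} (hX : X ≤ 1) (h1 : (k / 2).Prime) (h2 : (k / 2 + 2).Prime) :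
    k / 2 ∈ sw k X := by
  unfold sw
  rw [Finset.mem_union, if_pos hX, if_pos ⟨h1, h2⟩]
  right
  exact Finset.mem_singleton_self _

theorem C02_aux {k X : ℕ} {σ τ : Perm (Seg k)} (hk : 16 ≤ k) (hX : X ≤ 1)
    (hσ : Plus k σ X) (hτ : Plus k τ X)
    (hf : flags k σ X = flags k τ X) {q : ℕ} (hq : q.Prime) (hge : k / 2 ≤ q) (hle : q ≤ k)
    (hw : ¬ WP k σ q X) :
    ∀ i : Seg k, q ∣ (σ i : ℕ) ↔ q ∣ (τ i : ℕ) := by
  by_cases h2 : k < 2 * q
  · rcases K2a hk hσ hX hq h2 hle hw with ⟨a1, a2, a3⟩ | ⟨a1, a2, a3, a4⟩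
    · have hmem : q ∈ sw k X := by
        unfold sw
        rw [Finset.mem_union]
        left
        unfold ppSet
        rw [Finset.mem_filter, Finset.mem_Icc]
        refine ⟨⟨hq.one_le, hle⟩, hq.isPrimePow, ?_⟩
        rw [hq.minFac_eq, Nat.div_self hq.pos]
        omega
      have hw' := C02_tr hf hmem hw
      rcases K2a hk hτ hX hq h2 hle hw' with ⟨b1, b2, b3⟩ | ⟨b1, b2, b3, b4⟩
      · intro i
        rw [a3, b3]
      · omega
    · obtain ⟨_, c2, _, _⟩ := K2b hk hσ a2 a3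
      have hw' := C02_tr hf (C02_mem_half hX a2 c2) a3
      obtain ⟨_, _, d3, _⟩ := K2b hk hτ a2 hw'
      rw [← a1] at d3
      rcases K2a hk hτ hX hq h2 hle d3 with ⟨b1, b2, b3⟩ | ⟨b1, b2, b3, b4⟩
      · omega
      · intro i
        rw [a4, b4]
  · have hqe : q = k / 2 := by omega
    subst hqe
    obtain ⟨_, c2, _, c4⟩ := K2b hk hσ hq hw
    have hw' := C02_tr hf (C02_mem_half hX hq c2) hw
    obtain ⟨_, _, _, d4⟩ := K2b hk hτ hq hw'
    intro i
    rw [c4, d4]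

/-- Row C02: primes `q ≥ k/2`, types 0 and 1.
`q = k/2` (`k < 2q` false): if misplaced in `σ`, `K2b` gives `k/2+2` prime, so `k/2 ∈ sw k X` is a flag of `σ` and of `τ`;
both classes are given by `K2b`.  `q > k/2` misplaced in `σ`: `K2a`: either `q = k`, `X = 0`: then `k ∈ ppSet k` (`k` prime,
`k < k + 1`) is a flag, so also misplaced in `τ`, and `K2a` for `τ` gives the class (the other alternative
`k = k/2+2` is impossible for `k ≥ 16`); or `q = k/2+2` with `k/2` misplaced in `σ`, flag (`k/2+2` prime by `K2b`), so `k/2`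
misplaced in `τ`, `K2b` for `τ`: `k/2+2` misplaced in `τ`, `K2a` for `τ` gives the class. -/
theorem cls_eq_prime01 {k X : ℕ} {σ τ : Perm (Seg k)} (hk : 16 ≤ k) (hX : X ≤ 1)
    (hσ : Plus k σ X) (hτ : Plus k τ X)
    (hf : flags k σ X = flags k τ X) {q : ℕ} (hq : q.Prime) (hge : k / 2 ≤ q) (hle : q ≤ k) :
    ∀ i : Seg k, q ∣ (σ i : ℕ) ↔ q ∣ (τ i : ℕ) := by
  by_cases h1 : WP k σ q X
  · by_cases h2 : WP k τ q X
    · intro i
      rw [h1 i, h2 i]
    · intro i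
      exact (C02_aux hk hX hτ hσ hf.symm hq hge hle h2 i).symm
  · exact C02_aux hk hX hσ hτ hf hq hge hle h1

end WCS9
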