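import Pool.Agent.Lib.MP_9abbac_co.K

namespace WCS9
open Equiv

theorem C03_three {s : ℕ} (hs : 3 < s) (h1 : s.Prime) (h2 : (s + 2).Prime) (h3 : (s + 4).Prime) :
    False := by
  have key : ∀ n : ℕ, n.Prime → 3 < n → n % 3 ≠ 0 := by
    intro n hn h3n h0
    have hd : 3 ∣ n := Nat.dvd_of_mod_eq_zero h0
    rcases (Nat.dvd_prime hn).1 hd with h | h <;> omega
  have a := key s h1 hs
  have b := key (s + 2) h2 (by omega)
  have c := key (s + 4) h3 (by omega)
  omega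

/-- the classes of a misplaced lower member of a twin pair -/
theorem C03_low {k : ℕ} {σ : Perm (Seg k)} (hk : 16 ≤ k) (h : Plus k σ 2) {s : ℕ} (hs : s.Prime)
    (hs2 : (s + 2).Prime) (h2 : k < 2 * s) (hle : s + 2 ≤ k) (hw : ¬ WP k σ s 2) :
    (∀ i : Seg k, s ∣ (σ i : ℕ) ↔ (i : ℕ) = s) ∧
      (∀ i : Seg k, (s + 2) ∣ (σ i : ℕ) ↔ (i : ℕ) + 2 = s) := by
  rcases K3 hk h hs h2 (by omega) hw with ⟨_, _, _, h5, h6⟩ | ⟨s', h3, h4, h5, _⟩
  · exact ⟨h5, h6⟩
  · exfalso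
    subst h3
    exact C03_three (by omega) h4 hs hs2

/-- the misplaced lower members of twin pairs are the same -/
theorem C03_transfer {k : ℕ} {σ τ : Perm (Seg k)} (hk : 16 ≤ k)
    (hτ : Plus k τ 2)
    (hf : flags k σ 2 = flags k τ 2) {p : ℕ} (hp : p.Prime) (hpk : k + 1 = 2 * p) {s : ℕ}
    (hs : s.Prime) (hs2 : (s + 2).Prime) (h2 : k < 2 * s) (hle : s + 2 ≤ k)
    (hw : ¬ WP k σ s 2) : ¬ WP k τ s 2 := by
  classical
  rcases Nat.lt_or_ge p s with h | h
  · have hmem : s ∈ flags k σ 2 := by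
      unfold flags
      rw [Finset.mem_filter]
      refine ⟨?_, hw⟩
      unfold sw
      rw [if_neg (by norm_num), Finset.mem_union]
      right
      unfold twinSet
      rw [Finset.mem_filter, Finset.mem_Icc]
      exact ⟨⟨hs.one_lt.le, by omega⟩, by omega, hs, hs2, hle⟩
    rw [hf] at hmem
    unfold flags at hmem
    exact (Finset.mem_filter.1 hmem).2
  · obtain rfl : s = p := by omega
    exact K3' hk hτ hp hpk

theorem C03_half {k : ℕ} {σ τ : Perm (Seg k)} (hk : 16 ≤ k)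
    (hσ : Plus k σ 2) (hτ : Plus k τ 2)
    (hf : flags k σ 2 = flags k τ 2) {p : ℕ} (hp : p.Prime) (hpk : k + 1 = 2 * p) {q : ℕ}
    (hq : q.Prime) (h2 : k < 2 * q) (hle : q ≤ k) (hw : ¬ WP k σ q 2) :
    ∀ i : Seg k, q ∣ (σ i : ℕ) ↔ q ∣ (τ i : ℕ) := by
  rcases K3 hk hσ hq h2 hle hw with ⟨a1, a2, _, a4, _⟩ | ⟨s, rfl, a2, a3, a4, _, a6⟩
  · have ht := C03_transfer hk hτ hf hp hpk hq a1 h2 a2 hw
    have hl := (C03_low hk hτ hq a1 h2 a2 ht).1
    intro i
    rw [a4 i, hl i]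
  · have ht := C03_transfer hk hτ hf hp hpk a2 hq a3 hle a4
    have hl := (C03_low hk hτ a2 hq a3 hle ht).2
    intro i
    rw [a6 i, hl i]

/-- Row C03: primes `q ≥ k/2`, type 2 (`hσ.two : IsTSG k`, `k + 1 = 2 * p`, so `k / 2 = p - 1` is even and `> 2`, not prime, so
`k < 2 q`).  If `q` is misplaced in `σ`, `K3`: lower member (`q, q+2` prime, `q+2 ≤ k`) or upper member (`s = q - 2`) of a
twin pair; let `s` be the lower member, `k < 2 s`, so `s ≥ p = (k+1)/2`.  If `s = p`: `s` is misplaced in `τ` by `K3'`.  If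
`s > p`: `s ∈ twinSet k ⊆ sw k 2` is a flag of `σ`, hence misplaced in `τ`.  `K3` for `τ` and `s`: the second alternative
(`s - 2` prime and misplaced) is impossible because `s-2, s, s+2` would be primes (`> 3`; one of them is divisible by 3), so the
classes of `s` and `s + 2` in `τ` are the same as in `σ`. -/
theorem cls_eq_prime2 {k : ℕ} {σ τ : Perm (Seg k)} (hk : 16 ≤ k)
    (hσ : Plus k σ 2) (hτ : Plus k τ 2)
    (hf : flags k σ 2 = flags k τ 2) {q : ℕ} (hq : q.Prime) (hge : k / 2 ≤ q) (hle : q ≤ k) :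
    ∀ i : Seg k, q ∣ (σ i : ℕ) ↔ q ∣ (τ i : ℕ) := by
  obtain ⟨p, hp, -, -, hpk⟩ := hσ.two rfl
  have h2 : k < 2 * q := by
    by_contra hc
    have hqp : q + 1 = p := by omega
    have e1 := hq.eq_two_or_odd
    have e2 := hp.eq_two_or_odd
    omega
  by_cases hwσ : WP k σ q 2
  · by_cases hwτ : WP k τ q 2
    · intro i
      rw [hwσ i, hwτ i]
    · intro i
      exact (C03_half hk hτ hσ hf.symm hp hpk hq h2 hle hwτ i).symm
  · exact C03_half hk hσ hτ hf hp hpk hq h2 hle hwσ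

end WCS9
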