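import Pool.Agent.Lib.MP_9abbac_co.C01
import Pool.Agent.Lib.MP_9abbac_co.C02
import Pool.Agent.Lib.MP_9abbac_co.C03

namespace WCS9
open Equiv

theorem C04_cls {k X : ℕ} {σ τ : Perm (Seg k)} (hk : 16 ≤ k) (hσ : Plus k σ X) (hτ : Plus k τ X)
    (hf : flags k σ X = flags k τ X) {p e : ℕ} (hp : p.Prime) (hle : p ^ e ≤ k) :
    ∀ i : Seg k, p ^ e ∣ (σ i : ℕ) ↔ p ^ e ∣ (τ i : ℕ) := by
  rcases Nat.eq_zero_or_pos e with he | he
  · subst he
    intro i
    simp
  rcases lt_or_ge (p ^ e) (k / 2) with h | h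
  · intro i
    rw [hσ.low _ (Nat.one_le_iff_ne_zero.mpr (pow_ne_zero e hp.ne_zero)) h i,
      hτ.low _ (Nat.one_le_iff_ne_zero.mpr (pow_ne_zero e hp.ne_zero)) h i]
  rcases Nat.lt_or_ge e 2 with he2 | he2
  · have : e = 1 := by omega
    subst this
    rw [pow_one] at h hle ⊢
    rcases Nat.lt_or_ge 1 X with hX | hX
    · have hX2 : X = 2 := le_antisymm hσ.le2 hX
      subst hX2
      exact cls_eq_prime2 hk hσ hτ hf hp h hle
    · exact cls_eq_prime01 hk hX hσ hτ hf hp h hle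
  · exact cls_eq_pp hk hσ hτ hf hp he2 hle

/-- Row C04: a sequence of type `X` is determined by its flags.  For all `i` and all prime powers `r ≤ k`:
`r ∣ σ i ↔ r ∣ τ i` (`r < k/2`: both well placed (`low`); `r ≥ k/2`: C01, C02, C03; use `Plus.le2`).  All prime powers dividing
`σ i ≤ k` are `≤ k`, so `σ i ∣ τ i` (`Nat.dvd_iff_prime_pow_dvd_dvd`) and conversely. -/
theorem flags_inj {k X : ℕ} {σ τ : Perm (Seg k)} (hk : 16 ≤ k) (hσ : Plus k σ X) (hτ : Plus k τ X)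
    (hf : flags k σ X = flags k τ X) : σ = τ := by
  ext i
  apply Nat.dvd_antisymm
  · rw [Nat.dvd_iff_prime_pow_dvd_dvd]
    intro p e hp hd
    have hle : p ^ e ≤ k := (Nat.le_of_dvd (σ i).pos hd).trans (σ i).le
    exact (C04_cls hk hσ hτ hf hp hle i).mp hd
  · rw [Nat.dvd_iff_prime_pow_dvd_dvd]
    intro p e hp hd
    have hle : p ^ e ≤ k := (Nat.le_of_dvd (τ i).pos hd).trans (τ i).le
    exact (C04_cls hk hσ hτ hf hp hle i).mpr hd

end WCS9
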