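import Pool.Agent.Lib.MP_9abbac_co.S06

namespace WCS9
open Equiv

/-- Row C05a: the identity has type 0 and no flags. -/
theorem base0 (k : ℕ) : Plus k (1 : Perm (Seg k)) 0 ∧ flags k (1 : Perm (Seg k)) 0 = ∅ := by
  have h : ∀ n : ℕ, WP k (1 : Perm (Seg k)) n 0 := by
    intro n i
    simp
  refine ⟨⟨wcs_of_wp (fun n _ _ => h n), by norm_num, fun n _ _ => h n, by norm_num, by norm_num⟩, ?_⟩
  simp only [flags, Finset.filter_eq_empty_iff]
  intro n _ hn
  exact hn (h n)

/-- the shift -/
def C05_shift (k : ℕ) (hk : 1 ≤ k) : Perm (Seg k) where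
  toFun i := if h : (i : ℕ) < k then mkS ((i : ℕ) + 1) (by omega) (by omega) else mkS 1 le_rfl hk
  invFun i := if h : (i : ℕ) = 1 then mkS k hk le_rfl else
    mkS ((i : ℕ) - 1) (by have := i.pos; omega) (by have := i.le; omega)
  left_inv i := by
    apply Subtype.ext
    by_cases h : (i : ℕ) < k
    · have h1 := i.pos
      have h2 : ¬ (i : ℕ) = 0 := by omega
      simp [h, h2, mkS]
    · have h1 := i.le
      have h2 : (i : ℕ) = k := by omega
      simp [h, mkS, h2]
  right_inv i := by
    apply Subtype.ext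
    by_cases h : (i : ℕ) = 1
    · simp [h, mkS]
    · have h1 := i.pos
      have h2 := i.le
      have h3 : (i : ℕ) - 1 < k := by omega
      simp [h, h3, mkS]
      omega

/-- Row C05b: if `k + 1` is prime the shift `i ↦ i + 1`, `k ↦ 1` has type 1 and no flags: all `n ≤ k` are well placed
(`n ∣ 1 ↔ n ∣ k + 1` since `k+1` is prime and `n ≤ k`); `wcs_of_wp`. -/
theorem base1x {k : ℕ} (hk : (k + 1).Prime) :
    ∃ σ : Perm (Seg k), (∀ i : Seg k, (σ i : ℕ) = if (i : ℕ) = k then 1 else (i : ℕ) + 1) ∧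
      Plus k σ 1 ∧ flags k σ 1 = ∅ := by
  have hk1 : 1 ≤ k := by
    have := hk.two_le
    omega
  have h : ∀ n : ℕ, 1 ≤ n → n ≤ k → WP k (C05_shift k hk1) n 1 := by
    intro n h1 h2 i
    by_cases hi : (i : ℕ) < k
    · have : ((C05_shift k hk1 i : Seg k) : ℕ) = (i : ℕ) + 1 := by
        simp [C05_shift, hi, mkS]
      rw [this]
    · have hi2 := i.le
      have hik : (i : ℕ) = k := by omega
      have : ((C05_shift k hk1 i : Seg k) : ℕ) = 1 := by
        simp [C05_shift, hi, mkS]
      rw [this, hik]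
      constructor
      · intro h
        exact h.trans (one_dvd _)
      · intro h
        rcases (Nat.dvd_prime hk).mp h with h' | h'
        · rw [h']
        · omega
  have hv : ∀ i : Seg k, ((C05_shift k hk1 i : Seg k) : ℕ) = if (i : ℕ) = k then 1 else (i : ℕ) + 1 := by
    intro i
    have hi2 := i.le
    by_cases hi : (i : ℕ) < k
    · rw [if_neg (by omega)]
      simp [C05_shift, hi, mkS]
    · rw [if_pos (by omega)]
      simp [C05_shift, hi, mkS]
  refine ⟨C05_shift k hk1, hv, ⟨wcs_of_wp h, by norm_num, fun n h1 h2 => h n h1 (by omega),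
    fun _ => hk, by norm_num⟩, ?_⟩
  simp only [flags, Finset.filter_eq_empty_iff]
  intro n hn hn2
  apply hn2
  unfold sw at hn
  rw [Finset.mem_union, if_pos le_rfl] at hn
  rcases hn with hn | hn
  · unfold ppSet at hn
    rw [Finset.mem_filter, Finset.mem_Icc] at hn
    exact h n hn.1.1 hn.1.2
  · split_ifs at hn with h3
    · rw [Finset.mem_singleton] at hn
      subst hn
      exact h _ h3.1.one_le (by omega)
    · exact absurd hn (Finset.notMem_empty _)

theorem base1 {k : ℕ} (hk : (k + 1).Prime) :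
    ∃ σ : Perm (Seg k), Plus k σ 1 ∧ flags k σ 1 = ∅ := by
  obtain ⟨σ, -, h1, h2⟩ := base1x hk
  exact ⟨σ, h1, h2⟩

end WCS9
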