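import Pool.Agent.Lib.MP_9abbac_co.Core

namespace WCS9
open Equiv

/-- the value of the start at position `i` -/
def C06_f (k p i : ℕ) : ℕ :=
  if i = k then 1 else if i + 1 = k then 2 else if i = p then p
    else if i + 2 = p then p + 2 else i + 2

theorem C06_three {p : ℕ} (h1 : p.Prime) (h2 : (p + 2).Prime) : 3 ≤ p := by
  have := h1.two_le
  rcases Nat.lt_or_ge p 3 with h | h
  · exfalso
    have : p = 2 := by omega
    subst this
    exact absurd h2 (by norm_num)
  · exact h

/-- Row C06a: existence of the start permutation (bijectivity of the function in `IsStart`;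
the values `i + 2` for `i ≤ k - 2` except that `p-2, p` have values `p+2, p`, then `2`, `1`). -/
theorem exists_start {k : ℕ} (h : IsTSG k) : ∃ σ : Perm (Seg k), IsStart k σ := by
  obtain ⟨p, hp, hp2, hp3, hk⟩ := h
  have h3 := C06_three hp hp2
  have hr : ∀ i : Seg k, 1 ≤ C06_f k p i ∧ C06_f k p i ≤ k := by
    intro i
    have := i.pos
    have := i.le
    unfold C06_f
    constructor <;> split_ifs <;> omega
  let F : Seg k → Seg k := fun i => mkS (C06_f k p i) (hr i).1 (hr i).2
  have hF : Function.Injective F := by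
    intro i j hij
    have h1 : C06_f k p i = C06_f k p j := congrArg (fun x : Seg k => (x : ℕ)) hij
    have := i.pos
    have := i.le
    have := j.pos
    have := j.le
    apply Subtype.ext
    unfold C06_f at h1
    split_ifs at h1 <;> omega
  refine ⟨Equiv.ofBijective F (Finite.injective_iff_bijective.1 hF), p, hp, hp2, hp3, hk, ?_⟩
  intro i
  rfl

/-- Row C06b: uniqueness (`2 p = k + 1` determines `p`) -/
theorem start_unique {k : ℕ} {σ τ : Perm (Seg k)} (hσ : IsStart k σ) (hτ : IsStart k τ) : σ = τ := by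
  obtain ⟨p, _, _, _, hk, h⟩ := hσ
  obtain ⟨q, _, _, _, hk', h'⟩ := hτ
  have : p = q := by omega
  subst this
  ext i
  rw [h i, h' i]

theorem C06_dvd_prime {n q : ℕ} (hq : q.Prime) (hn : n ≠ q) : n ∣ q ↔ n = 1 := by
  rw [Nat.dvd_prime hq]
  constructor
  · rintro (h | h)
    · exact h
    · exact absurd h hn
  · exact fun h => Or.inl h

/-- Row C06c: all `n ≤ k` except `p, p + 2` are well placed in the start (`X = 2`).
position `k`: `n ∣ 1 ↔ n ∣ k + 2 = 2p+1` prime; position `k-1`: `n ∣ 2 ↔ n ∣ k + 1 = 2p`, `n ≤ k`, `n ≠ p`;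
position `p`: `n ∣ p ↔ n ∣ p + 2`; position `p - 2`: `n ∣ p + 2 ↔ n ∣ p`. -/
theorem start_wp {k p : ℕ} {σ : Perm (Seg k)} (hσ : IsStart k σ) (hp : k + 1 = 2 * p) {n : ℕ}
    (h1 : 1 ≤ n) (h2 : n ≤ k) (hn : n ≠ p) (hn2 : n ≠ p + 2) : WP k σ n 2 := by
  obtain ⟨q, hq, hq2, hq3, hk, h⟩ := hσ
  have : q = p := by omega
  subst this
  have h3 := C06_three hq hq2
  intro i
  rw [h i]
  split_ifs with c1 c2 c3 c4
  · rw [Nat.dvd_one, c1, show k + 2 = 2 * q + 1 by omega]
    rw [C06_dvd_prime hq3 (by omega)]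
  · rw [show (i : ℕ) + 2 = 2 * q by omega]
    constructor
    · intro hd
      exact hd.mul_right q
    · intro hd
      by_cases hc : Nat.Coprime n q
      · exact hc.dvd_of_dvd_mul_right hd
      · exfalso
        have hqn : q ∣ n := by
          rw [Nat.coprime_comm] at hc
          exact (Nat.Prime.dvd_iff_not_coprime hq).2 hc
        obtain ⟨c, rfl⟩ := hqn
        have hc1 : c ∣ 2 := by
          have : q * c ∣ q * 2 := by rwa [mul_comm q 2]
          exact Nat.dvd_of_mul_dvd_mul_left hq.pos this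
        rcases (Nat.dvd_prime Nat.prime_two).1 hc1 with rfl | rfl
        · omega
        · omega
  · rw [c3, C06_dvd_prime hq hn, C06_dvd_prime hq2 hn2]
  · rw [c4, C06_dvd_prime hq hn, C06_dvd_prime hq2 hn2]
  · rfl

end WCS9
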