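import Pool.Agent.Lib.MP_9abbac_co.C06

namespace WCS9
open Equiv

/-- Row C07: the start has type 2 and no flags.  `IsWCS`: for `m ≠ p, p+2` from `start_wp`; `p ∣ σ i ↔ i = p`
(values of `[k]` divisible by `p`: only `p`, `k = 2p-1`), no other `j` in `[k]` is congruent to `p` mod `p`;
`p + 2 ∣ σ i ↔ i = p - 2`, `p - 2 + (p+2) = 2p > k`.
`low`: `n < k/2 = p - 1`.  `flags = ∅`: elements of `sw k 2 = ppSet k ∪ twinSet k` are `≤ k` and different from `p`, `p+2`:
`p ∉ ppSet` (`k < p + 1` false), `p + 2 ∉ ppSet` (`k < p + 3` false as `k = 2p-1 ≥ 16`), `p ∉ twinSet` (`(k+1)/2 = p < p` false),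
`p + 2 ∉ twinSet` (`p, p+2, p+4` not all prime). -/
theorem base2 {k : ℕ} (hk : 16 ≤ k) {σ : Perm (Seg k)} (hσ : IsStart k σ) :
    Plus k σ 2 ∧ flags k σ 2 = ∅ := by
  classical
  obtain ⟨p, hp, hp2, hp21, hk1, hval⟩ := id hσ
  have hp9 : 9 ≤ p := by omega
  have hwp : ∀ n : ℕ, 1 ≤ n → n ≤ k → n ≠ p → n ≠ p + 2 → WP k σ n 2 :=
    fun n h1 h2 hn hn2 => start_wp hσ hk1 h1 h2 hn hn2
  refine ⟨⟨?_, le_rfl, ?_, fun h => absurd h (by norm_num), fun _ => ⟨p, hp, hp2, hp21, hk1⟩⟩, ?_⟩
  · intro m i j hmi hij
    have hi1 := i.pos
    have hi2 := i.le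
    have hj1 := j.pos
    have hj2 := j.le
    have hsi1 := (σ i).pos
    have hsi2 := (σ i).le
    by_cases hm : (m : ℕ) = p
    · have h1 : (σ i : ℕ) = p := by
        rw [hm] at hmi
        obtain ⟨c, hc⟩ := hmi
        have : c < 2 := by
          by_contra hcon
          push Not at hcon
          have : p * 2 ≤ p * c := Nat.mul_le_mul_left p hcon
          omega
        interval_cases c
        · omega
        · omega
      have h2 : (i : ℕ) = p := by
        have := hval i
        rw [h1] at this
        split_ifs at this <;> omega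
      have h3 : (j : ℕ) = p := by
        rw [hm, h2] at hij
        obtain ⟨c, hc⟩ := hij
        have hc1 : c < 1 := by
          by_contra hcon
          push Not at hcon
          have : (p : ℤ) * 1 ≤ (p : ℤ) * c := mul_le_mul_of_nonneg_left hcon (by positivity)
          omega
        have hc2 : -1 < c := by
          by_contra hcon
          push Not at hcon
          have : (p : ℤ) * c ≤ (p : ℤ) * (-1) := mul_le_mul_of_nonneg_left hcon (by positivity)
          omega
        have hc0 : c = 0 := by omega
        rw [hc0, mul_zero] at hc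
        omega
      have h4 : j = i := Subtype.ext (by rw [h3, h2])
      rw [h4]
      exact hmi
    · by_cases hm2 : (m : ℕ) = p + 2
      · have h1 : (σ i : ℕ) = p + 2 := by
          rw [hm2] at hmi
          obtain ⟨c, hc⟩ := hmi
          have : c < 2 := by
            by_contra hcon
            push Not at hcon
            have : (p + 2) * 2 ≤ (p + 2) * c := Nat.mul_le_mul_left (p + 2) hcon
            omega
          interval_cases c
          · omega
          · omega
        have h2 : (i : ℕ) + 2 = p := by
          have := hval i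
          rw [h1] at this
          split_ifs at this <;> omega
        have h3 : (j : ℕ) = i := by
          rw [hm2] at hij
          obtain ⟨c, hc⟩ := hij
          have hc1 : c < 1 := by
            by_contra hcon
            push Not at hcon
            have : ((p + 2 : ℕ) : ℤ) * 1 ≤ ((p + 2 : ℕ) : ℤ) * c :=
              mul_le_mul_of_nonneg_left hcon (by positivity)
            omega
          have hc2 : -1 < c := by
            by_contra hcon
            push Not at hcon
            have : ((p + 2 : ℕ) : ℤ) * c ≤ ((p + 2 : ℕ) : ℤ) * (-1) :=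
              mul_le_mul_of_nonneg_left hcon (by positivity)
            omega
          have hc0 : c = 0 := by omega
          rw [hc0, mul_zero] at hc
          omega
        have h4 : j = i := Subtype.ext h3
        rw [h4]
        exact hmi
      · have hw := hwp m m.pos m.le hm hm2
        have h1 := (hw i).1 hmi
        refine (hw j).2 ?_
        have h2 : ((m : ℕ) : ℤ) ∣ (((i : ℕ) + 2 : ℕ) : ℤ) := Int.natCast_dvd_natCast.2 h1
        have h3 := dvd_sub h2 hij
        have e : (((i : ℕ) + 2 : ℕ) : ℤ) - (((i : ℕ) : ℤ) - ((j : ℕ) : ℤ)) = (((j : ℕ) + 2 : ℕ) : ℤ) := by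
          push_cast; ring
        rw [e] at h3
        exact Int.natCast_dvd_natCast.1 h3
  · intro n h1 h2
    exact hwp n h1 (by omega) (by omega) (by omega)
  · unfold flags
    rw [Finset.filter_eq_empty_iff]
    intro q hq
    rw [not_not]
    unfold sw at hq
    rw [if_neg (by norm_num), Finset.mem_union] at hq
    rcases hq with hq | hq
    · unfold ppSet at hq
      rw [Finset.mem_filter, Finset.mem_Icc] at hq
      obtain ⟨⟨q1, q2⟩, -, q3⟩ := hq
      refine hwp q q1 q2 ?_ ?_
      · rintro rfl
        rw [hp.minFac_eq, Nat.div_self hp.pos] at q3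
        omega
      · rintro rfl
        rw [hp2.minFac_eq, Nat.div_self hp2.pos] at q3
        omega
    · unfold twinSet at hq
      rw [Finset.mem_filter, Finset.mem_Icc] at hq
      obtain ⟨⟨q1, q2⟩, q3, q4, q5, -⟩ := hq
      refine hwp q q1 q2 ?_ ?_
      · rintro rfl
        omega
      · rintro rfl
        have t1 : p % 3 ≠ 0 := fun h => by
          have := (Nat.prime_dvd_prime_iff_eq Nat.prime_three hp).1 (Nat.dvd_of_mod_eq_zero h)
          omega
        have t2 : (p + 2) % 3 ≠ 0 := fun h => by
          have := (Nat.prime_dvd_prime_iff_eq Nat.prime_three hp2).1 (Nat.dvd_of_mod_eq_zero h)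
          omega
        have t3 : (p + 2 + 2) % 3 ≠ 0 := fun h => by
          have := (Nat.prime_dvd_prime_iff_eq Nat.prime_three q5).1 (Nat.dvd_of_mod_eq_zero h)
          omega
        omega

end WCS9
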