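import Pool.Agent.Lib.MP_9abbac_co.S06

/-! The misplaced prime powers of a sequence of type `X`. -/

namespace WCS9
open Equiv

/-- the position of the value `n` -/
theorem exists_seg_of_dvd {k : ℕ} (σ : Perm (Seg k)) {n : ℕ} (h1 : 1 ≤ n) (h2 : n ≤ k) :
    ∃ i : Seg k, (σ i : ℕ) = n :=
  ⟨σ.symm (mkS n h1 h2), by rw [Equiv.apply_symm_apply]; rfl⟩

/-- if all positions of multiples of `n` are equal to `j`, the class is `{j}` -/
theorem iff_of_unique {k : ℕ} (σ : Perm (Seg k)) {n j : ℕ} (h1 : 1 ≤ n) (h2 : n ≤ k)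
    (h : ∀ i : Seg k, n ∣ (σ i : ℕ) → (i : ℕ) = j) :
    ∀ i : Seg k, n ∣ (σ i : ℕ) ↔ (i : ℕ) = j := by
  intro i
  refine ⟨h i, fun hi => ?_⟩
  obtain ⟨i0, hi0⟩ := exists_seg_of_dvd σ h1 h2
  have : (i0 : ℕ) = j := h i0 (by rw [hi0])
  have : i = i0 := Subtype.ext (by omega)
  rw [this, hi0]

theorem Plus.lowx {k X : ℕ} {σ : Perm (Seg k)} (h : Plus k σ X) {x : ℤ}
    (hw : ∀ n : ℕ, 1 ≤ n → n ≤ k → (WP k σ n X ↔ (n : ℤ) ∣ x - X)) :
    ∀ n : ℕ, 1 ≤ n → n < k / 2 → (n : ℤ) ∣ x - X :=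
  fun n h1 h2 => (hw n h1 (by omega)).1 (h.low n h1 h2)

theorem K1 {k X : ℕ} {σ : Perm (Seg k)} (hk : 16 ≤ k) (h : Plus k σ X) {p e : ℕ} (hp : p.Prime)
    (he : 2 ≤ e) (hle : p ^ e ≤ k) (hw : ¬ WP k σ (p ^ e) X) :
    (∀ i : Seg k, p ^ e ∣ (σ i : ℕ) ↔ (i : ℕ) + X = p ^ (e - 1)) ∧
      k + 1 + X ≤ p ^ e + p ^ (e - 1) := by
  obtain ⟨x, hg, hx, hwp⟩ := h.exists_x
  have hpos : 1 ≤ p ^ e := pow_pos hp.pos e
  have hnd : ¬ ((p ^ e : ℕ) : ℤ) ∣ x - X := fun hd => hw ((hwp _ hpos hle).2 hd)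
  have hy : ∀ i : Seg k, p ^ e ∣ (σ i : ℕ) →
      (i : ℕ) + X = p ^ (e - 1) ∧ k + 1 + X ≤ p ^ e + p ^ (e - 1) := fun i hi =>
    y_pp hk hg h.le2 (h.lowx hwp) hp he hle hnd i.pos i.le
      ((hx _ (adm_of_le hpos hle) i).1 hi)
  obtain ⟨i0, hi0⟩ := exists_seg_of_dvd σ hpos hle
  have h0 := hy i0 (by rw [hi0])
  refine ⟨fun i => ⟨fun hi => (hy i hi).1, fun hi => ?_⟩, h0.2⟩
  have : i = i0 := Subtype.ext (by omega)
  rw [this, hi0]

theorem K2b {k X : ℕ} {σ : Perm (Seg k)} (hk : 16 ≤ k) (h : Plus k σ X)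
    (hq : (k / 2).Prime) (hw : ¬ WP k σ (k / 2) X) :
    X ≤ 1 ∧ (k / 2 + 2).Prime ∧ ¬ WP k σ (k / 2 + 2) X ∧
      ∀ i : Seg k, k / 2 ∣ (σ i : ℕ) ↔ ((i : ℕ) + X = 2 ∨ (i : ℕ) + X = k / 2 + 2) := by
  obtain ⟨x, hg, hx, hwp⟩ := h.exists_x
  have hnd : ¬ ((k / 2 : ℕ) : ℤ) ∣ x - X := fun hd => hw ((hwp _ hq.one_le (by omega)).2 hd)
  obtain ⟨h1, h2, h3⟩ := y_half hk hg h.le2 (h.lowx hwp) hq hnd
  have hcl : ∀ i : Seg k, k / 2 ∣ (σ i : ℕ) ↔
      ((i : ℕ) + X = 2 ∨ (i : ℕ) + X = k / 2 + 2) := by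
    intro i
    rw [hx _ (adm_of_le hq.one_le (by omega)) i]
    have hi1 := i.pos
    have hi2 := i.le
    constructor
    · intro hd
      have h4 := dvd_sub hd h3
      have h5 : ((k / 2 : ℕ) : ℤ) ∣ ((i : ℕ) + X : ℤ) - 2 := by
        have e : x + ((i : ℕ) : ℤ) - (x + ((2 - X : ℕ) : ℤ)) = ((i : ℕ) + X : ℤ) - 2 := by omega
        rwa [e] at h4
      obtain ⟨c, hc⟩ := h5
      have hq8 : (8 : ℤ) ≤ ((k / 2 : ℕ) : ℤ) := by omega
      have hc0 : 0 ≤ c := by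
        by_contra hneg
        push Not at hneg
        have : ((k / 2 : ℕ) : ℤ) * c ≤ ((k / 2 : ℕ) : ℤ) * (-1) :=
          mul_le_mul_of_nonneg_left (by omega) (by omega)
        omega
      have hc1 : c ≤ 1 := by
        by_contra hbig
        push Not at hbig
        have h6 : ((k / 2 : ℕ) : ℤ) * 2 ≤ ((k / 2 : ℕ) : ℤ) * c :=
          mul_le_mul_of_nonneg_left (by omega) (by omega)
        have hX1 : X = 1 → k = 2 * (k / 2) := by
          intro hX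
          have := h.one hX
          rcases this.eq_two_or_odd with h' | h' <;> omega
        rcases Nat.eq_zero_or_pos X with hX0 | hX0
        · subst hX0
          have : ((i : ℕ) : ℤ) = 2 + ((k / 2 : ℕ) : ℤ) * c := by push_cast at hc ⊢; linarith
          omega
        · have hX' : X = 1 := by omega
          have := hX1 hX'
          subst hX'
          have : ((i : ℕ) : ℤ) = 1 + ((k / 2 : ℕ) : ℤ) * c := by push_cast at hc ⊢; linarith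
          omega
      have : c = 0 ∨ c = 1 := by omega
      rcases this with rfl | rfl
      · left; omega
      · right; omega
    · rintro (h4 | h4)
      · have : ((i : ℕ) : ℤ) = ((2 - X : ℕ) : ℤ) := by omega
        rw [this]; exact h3
      · have e : x + ((i : ℕ) : ℤ) = x + ((2 - X : ℕ) : ℤ) + ((k / 2 : ℕ) : ℤ) := by omega
        rw [e]; exact dvd_add h3 (dvd_refl _)
  refine ⟨h1, h2, ?_, hcl⟩
  intro hwp2
  -- position `k/2 + 2 - X`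
  have hj1 : 1 ≤ k / 2 + 2 - X := by omega
  have hj2 : k / 2 + 2 - X ≤ k := by omega
  have hd1 : k / 2 ∣ (σ (mkS _ hj1 hj2) : ℕ) := (hcl _).2 (Or.inr (by rw [mkS_val]; omega))
  have hd2 : (k / 2 + 2) ∣ (σ (mkS _ hj1 hj2) : ℕ) :=
    (hwp2 _).2 (by rw [mkS_val, Nat.sub_add_cancel (by omega)])
  have hc : Nat.Coprime (k / 2) (k / 2 + 2) := (Nat.coprime_primes hq h2).2 (by omega)
  have hd3 := hc.mul_dvd_of_dvd_of_dvd hd1 hd2
  have hle := Nat.le_of_dvd (σ (mkS _ hj1 hj2)).pos hd3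
  have hle2 := (σ (mkS _ hj1 hj2)).le
  have : 8 * (k / 2 + 2) ≤ k / 2 * (k / 2 + 2) := Nat.mul_le_mul_right _ (by omega)
  omega

theorem K2a {k X : ℕ} {σ : Perm (Seg k)} (hk : 16 ≤ k) (h : Plus k σ X) (hX : X ≤ 1) {q : ℕ}
    (hq : q.Prime) (h2 : k < 2 * q) (hle : q ≤ k) (hw : ¬ WP k σ q X) :
    (q = k ∧ X = 0 ∧ ∀ i : Seg k, q ∣ (σ i : ℕ) ↔ (i : ℕ) = 1) ∨
    (q = k / 2 + 2 ∧ (k / 2).Prime ∧ ¬ WP k σ (k / 2) X ∧
      ∀ i : Seg k, q ∣ (σ i : ℕ) ↔ (i : ℕ) + X = k / 2) := by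
  obtain ⟨x, hg, hx, hwp⟩ := h.exists_x
  have hnd : ¬ (q : ℤ) ∣ x - X := fun hd => hw ((hwp _ hq.one_le hle).2 hd)
  -- uniqueness of the position of a multiple of `q`
  have huni : ∀ j : ℕ, 1 ≤ j → j ≤ k → (q : ℤ) ∣ x + j →
      ∀ i : Seg k, q ∣ (σ i : ℕ) ↔ (i : ℕ) = j := by
    intro j hj1 hj2 hjd
    have hd1 : q ∣ (σ (mkS j hj1 hj2) : ℕ) :=
      (hx _ (adm_of_le hq.one_le hle) _).2 (by rw [mkS_val]; exact hjd)
    have hval : ∀ i : Seg k, q ∣ (σ i : ℕ) → (σ i : ℕ) = q := by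
      intro i hi
      obtain ⟨c, hc⟩ := hi
      have h3 := (σ i).pos
      have h4 := (σ i).le
      have : c = 1 := by
        have hc0 : c ≠ 0 := by rintro rfl; omega
        by_contra hne
        have : q * 2 ≤ q * c := Nat.mul_le_mul_left _ (by omega)
        omega
      rw [hc, this, mul_one]
    intro i
    constructor
    · intro hi
      have : σ i = σ (mkS j hj1 hj2) := Subtype.ext (by rw [hval i hi, hval _ hd1])
      have := σ.injective this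
      rw [this, mkS_val]
    · intro hi
      have : i = mkS j hj1 hj2 := Subtype.ext hi
      rw [this]; exact hd1
  rcases y_chain01 hk hg hX (h.lowx hwp) q hq h2 hle hnd with ⟨h3, h4, h5⟩ | ⟨h3, h4, h5, h6⟩
  · exact Or.inl ⟨h3, h4, huni 1 le_rfl (by omega) (by exact_mod_cast h5)⟩
  · refine Or.inr ⟨h3, h4, fun hwk => h5 ((hwp _ h4.one_le (by omega)).1 hwk), ?_⟩
    intro i
    rw [huni (k / 2 - X) (by omega) (by omega) h6 i]
    omega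

theorem K3 {k : ℕ} {σ : Perm (Seg k)} (hk : 16 ≤ k) (h : Plus k σ 2) {q : ℕ}
    (hq : q.Prime) (h2 : k < 2 * q) (hle : q ≤ k) (hw : ¬ WP k σ q 2) :
    ((q + 2).Prime ∧ q + 2 ≤ k ∧ ¬ WP k σ (q + 2) 2 ∧
      (∀ i : Seg k, q ∣ (σ i : ℕ) ↔ (i : ℕ) = q) ∧
      (∀ i : Seg k, (q + 2) ∣ (σ i : ℕ) ↔ (i : ℕ) + 2 = q)) ∨
    (∃ s : ℕ, q = s + 2 ∧ s.Prime ∧ k < 2 * s ∧ ¬ WP k σ s 2 ∧
      (∀ i : Seg k, s ∣ (σ i : ℕ) ↔ (i : ℕ) = s) ∧
      (∀ i : Seg k, q ∣ (σ i : ℕ) ↔ (i : ℕ) + 2 = s)) := by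
  obtain ⟨x, hg, hx, hwp⟩ := h.exists_x
  have hnd : ¬ (q : ℤ) ∣ x - ((2 : ℕ) : ℤ) := fun hd => hw ((hwp _ hq.one_le hle).2 hd)
  have huni : ∀ r : ℕ, 1 ≤ r → k < 2 * r → r ≤ k → ∀ j : ℕ, 1 ≤ j → j ≤ k → (r : ℤ) ∣ x + j →
      ∀ i : Seg k, r ∣ (σ i : ℕ) ↔ (i : ℕ) = j := by
    intro r hr1 hr2 hr3 j hj1 hj2 hjd
    have hd1 : r ∣ (σ (mkS j hj1 hj2) : ℕ) :=
      (hx _ (adm_of_le hr1 hr3) _).2 (by rw [mkS_val]; exact hjd)
    have hval : ∀ i : Seg k, r ∣ (σ i : ℕ) → (σ i : ℕ) = r := by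
      intro i hi
      obtain ⟨c, hc⟩ := hi
      have h3 := (σ i).pos
      have h4 := (σ i).le
      have : c = 1 := by
        have hc0 : c ≠ 0 := by rintro rfl; omega
        by_contra hne
        have : r * 2 ≤ r * c := Nat.mul_le_mul_left _ (by omega)
        omega
      rw [hc, this, mul_one]
    intro i
    constructor
    · intro hi
      have : σ i = σ (mkS j hj1 hj2) := Subtype.ext (by rw [hval i hi, hval _ hd1])
      have := σ.injective this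
      rw [this, mkS_val]
    · intro hi
      have : i = mkS j hj1 hj2 := Subtype.ext hi
      rw [this]; exact hd1
  obtain ⟨s, hs, hs2, hks, hsk, hsd, hsd2, hps, hps2, hor⟩ :=
    y_chain2 hk hg (h.lowx hwp) (h.two rfl) q hq h2 hle hnd
  have c1 := huni s hs.one_le hks (by omega) s hs.one_le (by omega) hps
  have c2 : ∀ i : Seg k, (s + 2) ∣ (σ i : ℕ) ↔ (i : ℕ) + 2 = s := by
    intro i
    rw [huni (s + 2) (by omega) (by omega) hsk (s - 2) (by omega) (by omega) hps2 i]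
    omega
  rcases hor with rfl | rfl
  · left
    exact ⟨hs2, hsk, fun hh => hsd2 ((hwp _ (by omega) hsk).1 hh), c1, c2⟩
  · right
    exact ⟨s, rfl, hs, hks, fun hh => hsd ((hwp _ hs.one_le (by omega)).1 hh), c1, c2⟩

theorem K3' {k : ℕ} {σ : Perm (Seg k)} (hk : 16 ≤ k) (h : Plus k σ 2) {p : ℕ}
    (hp : p.Prime) (hpk : k + 1 = 2 * p) : ¬ WP k σ p 2 := by
  obtain ⟨x, hg, hx, hwp⟩ := h.exists_x
  intro hw
  have h1 := (hwp p hp.one_le (by omega)).1 hw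
  have h2 := hg.dvd_of_dvd_succ (adm_of_le hp.one_le (by omega)) ⟨2, by omega⟩
  have h3 := dvd_sub h2 h1
  have e : x - (x - ((2 : ℕ) : ℤ)) = ((2 : ℕ) : ℤ) := by ring
  rw [e] at h3
  have h4 : p ∣ 2 := by exact_mod_cast h3
  have := Nat.le_of_dvd (by norm_num) h4
  omega

/-- if `X ≥ 1` then `k` is not a prime (`X = 1`: `k+1` prime; `X = 2`: `3 ∣ k`) -/
theorem K0 {k X : ℕ} {σ : Perm (Seg k)} (hk : 16 ≤ k) (h : Plus k σ X) (hX : 1 ≤ X) :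
    ¬ k.Prime := by
  intro hkp
  have hkodd : k % 2 = 1 := by
    rcases hkp.eq_two_or_odd with h | h <;> omega
  have hX2 := h.le2
  have : X = 1 ∨ X = 2 := by omega
  rcases this with h1 | h1
  · have := h.one h1
    rcases this.eq_two_or_odd with h | h <;> omega
  · obtain ⟨p, hp, hp2, _, hpk⟩ := h.two h1
    have hm3 := twin_mod3 hp hp2 (by omega)
    have := (Nat.prime_dvd_prime_iff_eq Nat.prime_three hkp).1
      (Nat.dvd_of_mod_eq_zero (by omega))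
    omega

end WCS9
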