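import Pool.Agent.Lib.MP_9abbac_co.S04
import Pool.Agent.Lib.MP_9abbac_co.K

namespace WCS9
open Equiv

theorem mem_flags {k X q : ℕ} {σ : Perm (Seg k)} :
    q ∈ flags k σ X ↔ q ∈ sw k X ∧ ¬ WP k σ q X := by
  classical
  unfold flags
  rw [Finset.mem_filter]

theorem flags_insert {k X s : ℕ} {σ τ : Perm (Seg k)} (hs : s ∈ sw k X)
    (hne : ∀ q ∈ sw k X, q ≠ s → (WP k τ q X ↔ WP k σ q X)) (hmis : ¬ WP k τ s X) :
    flags k τ X = insert s (flags k σ X) := by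
  ext q
  rw [Finset.mem_insert, mem_flags, mem_flags]
  constructor
  · rintro ⟨h1, h2⟩
    by_cases hq : q = s
    · exact Or.inl hq
    · exact Or.inr ⟨h1, fun h => h2 ((hne q h1 hq).2 h)⟩
  · rintro (rfl | ⟨h1, h2⟩)
    · exact ⟨hs, hmis⟩
    · by_cases hq : q = s
      · rw [hq]; exact ⟨hs, hmis⟩
      · exact ⟨h1, fun h => h2 ((hne q h1 hq).1 h)⟩

theorem wp_congr {k n X : ℕ} {σ τ : Perm (Seg k)}
    (h : ∀ i : Seg k, n ∣ (τ i : ℕ) ↔ n ∣ (σ i : ℕ)) : WP k τ n X ↔ WP k σ n X :=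
  forall_congr' fun i => by rw [h i]

theorem mem_ppSet {k q : ℕ} :
    q ∈ ppSet k ↔ (1 ≤ q ∧ q ≤ k) ∧ IsPrimePow q ∧ k < q + q / q.minFac := by
  unfold ppSet
  rw [Finset.mem_filter, Finset.mem_Icc]

theorem mem_ppSet' {k s : ℕ} (hs : s ∈ ppSet k) :
    ∃ p c : ℕ, p.Prime ∧ 1 ≤ c ∧ s = p ^ c ∧ p ^ c ≤ k ∧ k < p ^ c + p ^ (c - 1) := by
  obtain ⟨⟨_, h2⟩, h3, h4⟩ := mem_ppSet.1 hs
  obtain ⟨p, c, hp, hc, rfl⟩ := (isPrimePow_nat_iff s).1 h3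
  refine ⟨p, c, hp, hc, rfl, h2, ?_⟩
  rw [hp.pow_minFac (by omega)] at h4
  have : p ^ c / p = p ^ (c - 1) := by
    obtain ⟨d, rfl⟩ : ∃ d, c = d + 1 := ⟨c - 1, by omega⟩
    rw [Nat.add_sub_cancel, pow_succ, Nat.mul_div_cancel _ hp.pos]
  rwa [this] at h4

/-- Row C08: making a prime power move. -/
theorem flip_pp {k X : ℕ} {σ : Perm (Seg k)} (_hk : 16 ≤ k) (h : Plus k σ X) {s : ℕ}
    (hs : s ∈ ppSet k) (hn : s ∉ flags k σ X) :
    ∃ τ : Perm (Seg k), Plus k τ X ∧ flags k τ X = insert s (flags k σ X) ∧ Step k σ τ := by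
  classical
  have hsw : s ∈ sw k X := by
    unfold sw
    exact Finset.mem_union_left _ hs
  have hwp : WP k σ s X := by
    by_contra hw
    exact hn (mem_flags.2 ⟨hsw, hw⟩)
  obtain ⟨p, c, hp, hc, rfl, hle, hlt⟩ := mem_ppSet' hs
  have hVpos : 1 ≤ p ^ (c - 1) := pow_pos hp.pos _
  have hVW : p ^ (c - 1) < p ^ c := Nat.pow_lt_pow_right hp.one_lt (by omega)
  set v : Seg k := mkS (p ^ (c - 1)) hVpos (by omega) with hv
  set w : Seg k := mkS (p ^ c) (by omega) hle with hw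
  have hr : R2 k σ (swap v w * σ) := ⟨p, c, v, w, hp, hc, hle, hlt, rfl, rfl, rfl⟩
  have hdv : ∀ m : ℕ, m ≠ p ^ c → ∀ i : Seg k,
      m ∣ ((swap v w * σ) i : ℕ) ↔ m ∣ (σ i : ℕ) := fun m hm i =>
    R2_dvd hp hc (v := v) (w := w) rfl rfl rfl hm i
  refine ⟨swap v w * σ, ⟨R2_pres h.wcs hr, h.le2, fun n h1 h2 => ?_, h.one, h.two⟩, ?_,
    Or.inr (Or.inl hr)⟩
  · exact (wp_congr (hdv n (by omega))).2 (h.low n h1 h2)
  · refine flags_insert hsw (fun q _ hq => wp_congr (hdv q hq)) ?_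
    intro hwt
    have h1 : ((swap v w * σ) (σ.symm v) : Seg k) = w := by
      rw [Perm.mul_apply, Equiv.apply_symm_apply, swap_apply_left]
    have h2 : p ^ c ∣ ((σ.symm v : Seg k) : ℕ) + X := (hwt _).1 (by rw [h1]; exact dvd_refl _)
    have h3 := (hwp _).2 h2
    rw [Equiv.apply_symm_apply] at h3
    have := Nat.le_of_dvd hVpos h3
    omega

end WCS9
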