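import Pool.Agent.Lib.MP_9abbac_co.K

namespace WCS9
open Equiv

private theorem C09_dvd_two {q m : ℕ} (hq : q.Prime) (h1 : m ≠ q) (h2 : m ≠ 2 * q) :
    m ∣ 2 * q ↔ m ∣ 2 := by
  constructor
  · intro h
    by_cases hqm : q ∣ m
    · exfalso
      obtain ⟨m', rfl⟩ := hqm
      have h3 : m' ∣ 2 := by
        rw [mul_comm 2 q] at h
        exact Nat.dvd_of_mul_dvd_mul_left hq.pos h
      have h4 := (Nat.dvd_prime Nat.prime_two).1 h3
      rcases h4 with rfl | rfl
      · exact h1 (by ring)
      · exact h2 (by ring)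
    · exact Nat.Coprime.dvd_of_dvd_mul_right ((Nat.Prime.coprime_iff_not_dvd hq).2 hqm).symm h
  · intro h
    exact h.trans (Dvd.intro _ rfl)

private theorem C09_dvd_q {q m : ℕ} (hq : q.Prime) (hq2 : (q + 2).Prime) (h1 : m ≠ q)
    (h2 : m ≠ q + 2) : m ∣ q + 2 ↔ m ∣ q := by
  rw [Nat.dvd_prime hq2, Nat.dvd_prime hq]
  constructor
  · rintro (h | h)
    · exact Or.inl h
    · exact absurd h h2
  · rintro (h | h)
    · exact Or.inl h
    · exact absurd h h1

private theorem C09_swap {k : ℕ} (a b x : Seg k) : ((swap a b x : Seg k) : ℕ) =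
    if (x : ℕ) = a then (b : ℕ) else if (x : ℕ) = b then (a : ℕ) else x := by
  rw [Equiv.swap_apply_def]
  by_cases h1 : x = a
  · rw [if_pos h1, if_pos (by rw [h1])]
  · have h1' : ¬ (x : ℕ) = a := fun h => h1 (Subtype.ext h)
    rw [if_neg h1, if_neg h1']
    by_cases h2 : x = b
    · rw [if_pos h2, if_pos (by rw [h2])]
    · have h2' : ¬ (x : ℕ) = b := fun h => h2 (Subtype.ext h)
      rw [if_neg h2, if_neg h2']

private theorem C09_arith (x q : ℕ) (hq : 8 ≤ q) :
    (if (if x = q then q + 2 else if x = q + 2 then q else x) = 2 then 2 * q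
      else if (if x = q then q + 2 else if x = q + 2 then q else x) = 2 * q then 2
      else if x = q then q + 2 else if x = q + 2 then q else x) =
    if x = 2 then 2 * q else if x = 2 * q then 2
      else if x = q then q + 2 else if x = q + 2 then q else x := by
  by_cases c1 : x = q
  · simp only [if_pos c1]
    split_ifs <;> omega
  · simp only [if_neg c1]
    by_cases c2 : x = q + 2
    · simp only [if_pos c2]
      split_ifs <;> omega
    · simp only [if_neg c2]

/-- the multiples of `q` in `[1, k]`, `2 q ≤ k < 3 q` -/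
private theorem C09_mult {k q n : ℕ} (h3 : k < 3 * q) (h1 : 1 ≤ n) (hn : n ≤ k) (h : q ∣ n) :
    n = q ∨ n = 2 * q := by
  obtain ⟨c, rfl⟩ := h
  have hc : c < 3 := by
    by_contra hc
    push Not at hc
    have : q * 3 ≤ q * c := Nat.mul_le_mul_left q hc
    omega
  interval_cases c
  · omega
  · left; ring
  · right; ring

/-- the multiples of `m` in `[1, k]`, `k < 2 m` -/
private theorem C09_mult1 {k m n : ℕ} (h3 : k < 2 * m) (h1 : 1 ≤ n) (hn : n ≤ k) (h : m ∣ n) :
    n = m := by
  obtain ⟨c, rfl⟩ := h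
  have hc : c < 2 := by
    by_contra hc
    push Not at hc
    have : m * 2 ≤ m * c := Nat.mul_le_mul_left m hc
    omega
  interval_cases c
  · omega
  · ring

/-- Row C09: making the special move.  `q = k/2`, `q` and `q+2` prime, `q` well placed in `σ` (it is in `sw k X` and not a flag), so by `K2a`
(`q + 2` misplaced would give `q` misplaced or `q + 2 = k`, impossible for `k ≥ 16`) `q + 2` is well placed as well.  Positions in `σ`
(all `n < k/2` and `q`, `q+2` are well placed): value `q` at `q - X`, `2q` at `2q - X` (2 divides `σ (2q-X)`), `q+2` at `q+2-X`, `2` at `2 - X`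
(`σ (2-X)` is even, no prime power `< k/2` other than `2` divides it, and no prime power `r ≥ k/2`: `2 r ≤ k` only for `r = q`,
which does not divide `2`; note `k / 2 ≥ 8`).
`τ = swap 2 (2q) * swap q (q+2) * σ`.  `IsWCS τ`: `m` not in `{q, 2q, q+2}`: unchanged.  `q ∣ τ i ↔ i ∈ {2-X, q+2-X}`, `2 - X + 2q > k` (for `X = 1`: `k+1` is prime so `k = 2q`; `X = 0`: `k ≤ 2q+1`);
`2q ∣ τ i ↔ i = 2-X`; `q+2 ∣ τ i ↔ i = q - X`, `q - X + q + 2 > k`.  Flags: only `q` changes in `sw k X` (`q + 2`, `2q` are not in `sw k X`: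
`q+2 ∈ ppSet` would need `k < q + 3`; `2q` is not a prime power (`q > 2`)). -/
theorem flip_ux {k X : ℕ} {σ : Perm (Seg k)} (hk : 16 ≤ k) (h : Plus k σ X) (hX : X ≤ 1)
    (hq : (k / 2).Prime) (hq2 : (k / 2 + 2).Prime) (hn : k / 2 ∉ flags k σ X) :
    ∃ τ : Perm (Seg k), (∀ i : Seg k, (τ i : ℕ) = exch (k / 2) (σ i)) ∧
      Plus k τ X ∧ flags k τ X = insert (k / 2) (flags k σ X) := by
  classical
  -- `q`
  obtain ⟨q, hqk⟩ : ∃ q, q = k / 2 := ⟨_, rfl⟩
  have hq8 : 8 ≤ q := by omega
  have hk1 : 2 * q ≤ k := by omega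
  have hk2 : k ≤ 2 * q + 1 := by omega
  have hk3 : k + 1 ≤ 2 * q + 2 - X := by
    rcases Nat.eq_zero_or_pos X with h0 | h0
    · omega
    · have hX1 : X = 1 := by omega
      have h1 := h.one hX1
      by_contra hlt
      have h2 : k = 2 * q + 1 := by omega
      rw [h2] at h1
      have h3 : 2 ∣ 2 * q + 1 + 1 := ⟨q + 1, by ring⟩
      have h4 := (Nat.prime_dvd_prime_iff_eq Nat.prime_two h1).1 h3
      omega
  rw [← hqk] at hq hq2 hn ⊢
  have hqodd : ¬ 2 ∣ q := fun h2 => by
    have := (Nat.prime_dvd_prime_iff_eq Nat.prime_two hq).1 h2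
    omega
  -- `q` and `q + 2` are well placed
  have hsw : q ∈ sw k X := by
    rw [sw, if_pos hX, if_pos ⟨by rw [← hqk]; exact hq, by rw [← hqk]; exact hq2⟩,
      Finset.mem_union, Finset.mem_singleton]
    exact Or.inr hqk
  have wq : WP k σ q X := by
    by_contra hw
    exact hn (by rw [flags, Finset.mem_filter]; exact ⟨hsw, hw⟩)
  have wq2 : WP k σ (q + 2) X := by
    by_contra hw
    rcases K2a hk h hX hq2 (by omega) (by omega) hw with ⟨h1, -⟩ | ⟨-, -, h1, -⟩
    · omega
    · exact h1 (by rw [← hqk]; exact wq)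
  have w2 : WP k σ 2 X := h.low 2 (by norm_num) (by omega)
  -- positions
  have p1 : 1 ≤ q - X := by omega
  have p2 : q - X ≤ k := by omega
  have p3 : 1 ≤ 2 * q - X := by omega
  have p4 : 2 * q - X ≤ k := by omega
  have p5 : 1 ≤ q + 2 - X := by omega
  have p6 : q + 2 - X ≤ k := by omega
  have p7 : 1 ≤ 2 - X := by omega
  have p8 : 2 - X ≤ k := by omega
  have v1 : (σ (mkS (q - X) p1 p2) : ℕ) = q := by
    have h1 : q ∣ (σ (mkS (q - X) p1 p2) : ℕ) := by
      rw [wq, mkS_val, show q - X + X = q by omega]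
    have h2 : ¬ 2 ∣ (σ (mkS (q - X) p1 p2) : ℕ) := by
      rw [w2, mkS_val, show q - X + X = q by omega]
      exact hqodd
    rcases C09_mult (by omega) (Seg.pos _) (Seg.le _) h1 with h3 | h3
    · exact h3
    · rw [h3] at h2
      exact absurd (Dvd.intro _ rfl) h2
  have v2 : (σ (mkS (2 * q - X) p3 p4) : ℕ) = 2 * q := by
    have h1 : q ∣ (σ (mkS (2 * q - X) p3 p4) : ℕ) := by
      rw [wq, mkS_val, show 2 * q - X + X = 2 * q by omega]
      exact Dvd.intro_left 2 rfl
    have h2 : 2 ∣ (σ (mkS (2 * q - X) p3 p4) : ℕ) := by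
      rw [w2, mkS_val, show 2 * q - X + X = 2 * q by omega]
      exact Dvd.intro _ rfl
    rcases C09_mult (by omega) (Seg.pos _) (Seg.le _) h1 with h3 | h3
    · rw [h3] at h2
      exact absurd h2 hqodd
    · exact h3
  have v3 : (σ (mkS (q + 2 - X) p5 p6) : ℕ) = q + 2 := by
    have h1 : (q + 2) ∣ (σ (mkS (q + 2 - X) p5 p6) : ℕ) := by
      rw [wq2, mkS_val, show q + 2 - X + X = q + 2 by omega]
    exact C09_mult1 (by omega) (Seg.pos _) (Seg.le _) h1
  have v4 : (σ (mkS (2 - X) p7 p8) : ℕ) = 2 := by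
    have h1 : 2 ∣ (σ (mkS (2 - X) p7 p8) : ℕ) := by
      rw [w2, mkS_val, show 2 - X + X = 2 by omega]
    have hlow : ∀ n, 1 ≤ n → n < k / 2 → n ∣ (σ (mkS (2 - X) p7 p8) : ℕ) → n ∣ 2 := by
      intro n g1 g2 g3
      rw [h.low n g1 g2, mkS_val, show 2 - X + X = 2 by omega] at g3
      exact g3
    obtain ⟨m, hm⟩ := h1
    have hpos := Seg.pos (σ (mkS (2 - X) p7 p8))
    have hle := Seg.le (σ (mkS (2 - X) p7 p8))
    rcases lt_or_ge m (k / 2) with hmk | hmk
    · have h3 := hlow m (by omega) hmk (by rw [hm]; exact Dvd.intro_left 2 rfl)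
      rcases (Nat.dvd_prime Nat.prime_two).1 h3 with h4 | h4
      · rw [hm, h4]
      · exfalso
        have h5 := hlow 4 (by norm_num) (by omega) (by rw [hm, h4])
        norm_num at h5
    · have hmq : m = q := by omega
      rw [hmq, ← v2] at hm
      have h3 : mkS (2 - X) p7 p8 = (mkS (2 * q - X) p3 p4 : Seg k) :=
        σ.injective (Subtype.ext hm)
      have h4 := congrArg (fun z : Seg k => (z : ℕ)) h3
      simp only [mkS_val] at h4
      omega
  -- positions of the four values
  have posOf : ∀ (n : ℕ) (a : Seg k), (σ a : ℕ) = n → ∀ i : Seg k, (σ i : ℕ) = n ↔ (i : ℕ) = a := by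
    intro n a ha i
    constructor
    · intro h1
      have : i = a := σ.injective (Subtype.ext (h1.trans ha.symm))
      rw [this]
    · intro h1
      have : i = a := Subtype.ext h1
      rw [this, ha]
  have i1 := posOf _ _ v1
  have i2 := posOf _ _ v2
  have i3 := posOf _ _ v3
  have i4 := posOf _ _ v4
  simp only [mkS_val] at i1 i2 i3 i4
  -- the new sequence
  obtain ⟨τ, hτ⟩ : ∃ τ : Perm (Seg k), τ =
    swap (mkS 2 (by omega) (by omega)) (mkS (2 * q) (by omega) (by omega)) *
      (swap (mkS q (by omega) (by omega)) (mkS (q + 2) (by omega) (by omega)) * σ) := ⟨_, rfl⟩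
  have hval : ∀ i : Seg k, (τ i : ℕ) = if (σ i : ℕ) = 2 then 2 * q else if (σ i : ℕ) = 2 * q then 2
      else if (σ i : ℕ) = q then q + 2 else if (σ i : ℕ) = q + 2 then q else (σ i : ℕ) := by
    intro i
    rw [hτ, Perm.mul_apply, Perm.mul_apply, C09_swap, C09_swap]
    exact C09_arith (σ i : ℕ) q hq8
  -- divisibility by other numbers is unchanged
  have hdvd : ∀ m, m ≠ q → m ≠ 2 * q → m ≠ q + 2 → ∀ i : Seg k, m ∣ (τ i : ℕ) ↔ m ∣ (σ i : ℕ) := by
    intro m m1 m2 m3 i
    rw [hval]
    split_ifs with c1 c2 c3 c4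
    · rw [c1]; exact C09_dvd_two hq m1 m2
    · rw [c2]; exact (C09_dvd_two hq m1 m2).symm
    · rw [c3]; exact C09_dvd_q hq hq2 m1 m3
    · rw [c4]; exact (C09_dvd_q hq hq2 m1 m3).symm
    · exact Iff.rfl
  have e1 : ∀ i : Seg k, q ∣ (τ i : ℕ) ↔ ((i : ℕ) = q + 2 - X ∨ (i : ℕ) = 2 - X) := by
    intro i
    constructor
    · intro hd
      have h3 := C09_mult (by omega) (Seg.pos _) (Seg.le _) hd
      rw [hval] at h3
      split_ifs at h3 with c1 c2 c3 c4
      · exact Or.inr ((i4 i).1 c1)
      · omega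
      · omega
      · exact Or.inl ((i3 i).1 c4)
      · omega
    · rintro (h3 | h3)
      · have c4 := (i3 i).2 h3
        rw [hval, if_neg (by omega), if_neg (by omega), if_neg (by omega), if_pos c4]
      · have c1 := (i4 i).2 h3
        rw [hval, if_pos c1]
        exact Dvd.intro_left 2 rfl
  have e2 : ∀ i : Seg k, 2 * q ∣ (τ i : ℕ) ↔ (i : ℕ) = 2 - X := by
    intro i
    constructor
    · intro hd
      have h3 := C09_mult1 (by omega) (Seg.pos _) (Seg.le _) hd
      rw [hval] at h3
      split_ifs at h3 with c1 c2 c3 c4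
      · exact (i4 i).1 c1
      · omega
      · omega
      · omega
      · omega
    · intro h3
      have c1 := (i4 i).2 h3
      rw [hval, if_pos c1]
  have e3 : ∀ i : Seg k, (q + 2) ∣ (τ i : ℕ) ↔ (i : ℕ) = q - X := by
    intro i
    constructor
    · intro hd
      have h3 := C09_mult1 (by omega) (Seg.pos _) (Seg.le _) hd
      rw [hval] at h3
      split_ifs at h3 with c1 c2 c3 c4
      · omega
      · omega
      · exact (i1 i).1 c3
      · omega
      · omega
    · intro h3
      have c3 := (i1 i).2 h3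
      rw [hval, if_neg (by omega), if_neg (by omega), if_pos c3]
  have hwcs : IsWCS k τ := by
    intro m i j hmi hij
    have hi := i.pos
    have hi' := i.le
    have hj := j.pos
    have hj' := j.le
    by_cases m1 : (m : ℕ) = q
    · rw [m1] at hmi hij ⊢
      rw [e1] at hmi ⊢
      obtain ⟨t, ht⟩ := hij
      have ht1 : -3 < t := by
        by_contra hc
        push Not at hc
        have : (q : ℤ) * t ≤ q * (-3) := mul_le_mul_of_nonneg_left hc (by positivity)
        omega
      have ht2 : t < 3 := by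
        by_contra hc
        push Not at hc
        have : (q : ℤ) * 3 ≤ q * t := mul_le_mul_of_nonneg_left hc (by positivity)
        omega
      interval_cases t <;> omega
    · by_cases m2 : (m : ℕ) = 2 * q
      · rw [m2] at hmi hij ⊢
        rw [e2] at hmi ⊢
        obtain ⟨t, ht⟩ := hij
        push_cast at ht
        have ht1 : -2 < t := by
          by_contra hc
          push Not at hc
          have : (2 * (q : ℤ)) * t ≤ 2 * q * (-2) := mul_le_mul_of_nonneg_left hc (by positivity)
          omega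
        have ht2 : t < 2 := by
          by_contra hc
          push Not at hc
          have : (2 * (q : ℤ)) * 2 ≤ 2 * q * t := mul_le_mul_of_nonneg_left hc (by positivity)
          omega
        interval_cases t <;> omega
      · by_cases m3 : (m : ℕ) = q + 2
        · rw [m3] at hmi hij ⊢
          rw [e3] at hmi ⊢
          obtain ⟨t, ht⟩ := hij
          push_cast at ht
          have ht1 : -2 < t := by
            by_contra hc
            push Not at hc
            have : ((q : ℤ) + 2) * t ≤ (q + 2) * (-2) :=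
              mul_le_mul_of_nonneg_left hc (by positivity)
            omega
          have ht2 : t < 2 := by
            by_contra hc
            push Not at hc
            have : ((q : ℤ) + 2) * 2 ≤ (q + 2) * t :=
              mul_le_mul_of_nonneg_left hc (by positivity)
            omega
          interval_cases t <;> omega
        · rw [hdvd _ m1 m2 m3] at hmi ⊢
          exact h.wcs m i j hmi hij
  have hWP : ∀ n, n ≠ q → n ≠ 2 * q → n ≠ q + 2 → (WP k τ n X ↔ WP k σ n X) := by
    intro n m1 m2 m3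
    constructor
    · intro hw i
      rw [← hdvd n m1 m2 m3 i]
      exact hw i
    · intro hw i
      rw [hdvd n m1 m2 m3 i]
      exact hw i
  refine ⟨τ, hval, ⟨hwcs, h.le2, fun n g1 g2 => ?_, h.one, h.two⟩, ?_⟩
  · exact (hWP n (by omega) (by omega) (by omega)).2 (h.low n g1 g2)
  · ext s
    rw [Finset.mem_insert, flags, flags, Finset.mem_filter, Finset.mem_filter]
    by_cases hs : s = q
    · rw [hs]
      refine ⟨fun _ => Or.inl rfl, fun _ => ⟨hsw, fun hw => ?_⟩⟩
      have h1 := (e1 (mkS (2 - X) p7 p8)).2 (Or.inr (mkS_val _ _))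
      rw [hw, mkS_val, show 2 - X + X = 2 by omega] at h1
      have := Nat.le_of_dvd (by norm_num) h1
      omega
    · by_cases hs2 : s = 2 * q ∨ s = q + 2
      · have hns : s ∉ sw k X := by
          rw [sw, if_pos hX, if_pos ⟨by rw [← hqk]; exact hq, by rw [← hqk]; exact hq2⟩,
            Finset.mem_union, Finset.mem_singleton, not_or, ← hqk]
          refine ⟨?_, hs⟩
          rw [ppSet, Finset.mem_filter]
          rintro ⟨-, hpp, hlt⟩
          rcases hs2 with rfl | rfl
          · obtain ⟨p, e, hp, he, hpe⟩ := (isPrimePow_nat_iff _).1 hpp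
            have g1 : 2 ∣ p ^ e := by rw [hpe]; exact Dvd.intro _ rfl
            have g2 : q ∣ p ^ e := by rw [hpe]; exact Dvd.intro_left 2 rfl
            have g3 := (Nat.prime_dvd_prime_iff_eq Nat.prime_two hp).1
              (Nat.prime_two.dvd_of_dvd_pow g1)
            have g4 := (Nat.prime_dvd_prime_iff_eq hq hp).1 (hq.dvd_of_dvd_pow g2)
            omega
          · rw [Nat.Prime.minFac_eq hq2, Nat.div_self (by omega)] at hlt
            omega
        constructor
        · rintro ⟨g1, -⟩
          exact absurd g1 hns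
        · rintro (g1 | ⟨g1, -⟩)
          · exact absurd g1 hs
          · exact absurd g1 hns
      · rw [not_or] at hs2
        rw [hWP s hs hs2.1 hs2.2]
        constructor
        · intro g1
          exact Or.inr g1
        · rintro (g1 | g1)
          · exact absurd g1 hs
          · exact g1

theorem flip_u {k X : ℕ} {σ : Perm (Seg k)} (hk : 16 ≤ k) (h : Plus k σ X) (hX : X ≤ 1)
    (hq : (k / 2).Prime) (hq2 : (k / 2 + 2).Prime) (hn : k / 2 ∉ flags k σ X) :
    ∃ τ : Perm (Seg k), Plus k τ X ∧ flags k τ X = insert (k / 2) (flags k σ X) := by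
  obtain ⟨τ, -, h1, h2⟩ := flip_ux hk h hX hq hq2 hn
  exact ⟨τ, h1, h2⟩

end WCS9
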