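import Pool.Agent.Lib.MP_9abbac_co.S05
import Pool.Agent.Lib.MP_9abbac_co.C08

namespace WCS9
open Equiv

theorem mem_twinSet {k q : ℕ} : q ∈ twinSet k ↔
    (1 ≤ q ∧ q ≤ k) ∧ (k + 1) / 2 < q ∧ q.Prime ∧ (q + 2).Prime ∧ q + 2 ≤ k := by
  unfold twinSet
  rw [Finset.mem_filter, Finset.mem_Icc]

theorem sw_two (k : ℕ) : sw k 2 = ppSet k ∪ twinSet k := by
  classical
  unfold sw
  rw [if_neg (by norm_num)]

theorem eq_of_dvd_val {k r : ℕ} (h2 : k < 2 * r) (v : Seg k) (hd : r ∣ (v : ℕ)) : (v : ℕ) = r := by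
  obtain ⟨c, hc⟩ := hd
  have h3 := v.pos
  have h4 := v.le
  have : c = 1 := by
    have hc0 : c ≠ 0 := by rintro rfl; omega
    by_contra hne
    have : r * 2 ≤ r * c := Nat.mul_le_mul_left _ (by omega)
    omega
  rw [hc, this, mul_one]

/-- Row C10: making a twin swap. -/
theorem flip_twin {k : ℕ} {σ : Perm (Seg k)} (hk : 16 ≤ k) (h : Plus k σ 2) {s : ℕ}
    (hs : s ∈ twinSet k) (hn : s ∉ flags k σ 2) :
    ∃ τ : Perm (Seg k), Plus k τ 2 ∧ flags k τ 2 = insert s (flags k σ 2) ∧ Step k σ τ := by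
  have hsw : s ∈ sw k 2 := by
    rw [sw_two]
    exact Finset.mem_union_right _ hs
  have hwp : WP k σ s 2 := by
    by_contra hw
    exact hn (mem_flags.2 ⟨hsw, hw⟩)
  obtain ⟨_, hlt, hp, hp2, hle⟩ := mem_twinSet.1 hs
  have hm3 := twin_mod3 hp hp2 (by omega)
  have hp4 : ¬ (s + 2 + 2).Prime := by
    intro hp4
    have := (Nat.prime_dvd_prime_iff_eq Nat.prime_three hp4).1
      (Nat.dvd_of_mod_eq_zero (by omega))
    omega
  have hwp2 : WP k σ (s + 2) 2 := by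
    by_contra hw
    rcases K3 hk h hp2 (by omega) hle hw with h1 | ⟨s', h1, _, _, h2, _⟩
    · exact hp4 h1.1
    · have : s' = s := by omega
      rw [this] at h2
      exact h2 hwp
  set a : Seg k := mkS (s - 2) (by omega) (by omega) with ha
  set b : Seg k := mkS s (by omega) (by omega) with hb
  have hav : (a : ℕ) = s - 2 := rfl
  have hbv : (b : ℕ) = s := rfl
  have hσa : (σ a : ℕ) = s :=
    eq_of_dvd_val (by omega) _ ((hwp a).2 (by rw [hav, Nat.sub_add_cancel (by omega)]))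
  have hσb : (σ b : ℕ) = s + 2 := eq_of_dvd_val (by omega) _ ((hwp2 b).2 (by rw [hbv]))
  have hr : R1 k σ (σ * swap a b) :=
    ⟨s, a, b, hp, hp2, hlt, by omega, by omega, hbv, hσa, hσb, rfl⟩
  have hdv : ∀ m : ℕ, m ≠ s → m ≠ s + 2 → ∀ i : Seg k,
      m ∣ ((σ * swap a b) i : ℕ) ↔ m ∣ (σ i : ℕ) := fun m h1 h2 i =>
    R1_dvd hp hp2 hσa hσb rfl h1 h2 i
  refine ⟨σ * swap a b, ⟨R1_pres h.wcs hr, h.le2, fun n h1 h2 => ?_, h.one, h.two⟩, ?_,
    Or.inl hr⟩
  · exact (wp_congr (hdv n (by omega) (by omega))).2 (h.low n h1 h2)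
  · refine flags_insert hsw (fun q hq hqs => wp_congr (hdv q hqs ?_)) ?_
    · rintro rfl
      rw [sw_two, Finset.mem_union] at hq
      rcases hq with hq | hq
      · obtain ⟨_, _, h5⟩ := mem_ppSet.1 hq
        rw [hp2.minFac_eq, Nat.div_self (by omega)] at h5
        have : k = s + 2 := by omega
        exact K0 hk h (by norm_num) (this ▸ hp2)
      · exact hp4 (mem_twinSet.1 hq).2.2.2.1
    · intro hwt
      obtain ⟨_, tb, _⟩ := R1_val hσa hσb (rfl : σ * swap a b = σ * swap a b)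
      have h1 : s ∣ (b : ℕ) + 2 := (hwt b).1 (by rw [tb])
      rw [hbv] at h1
      have h2 : s ∣ 2 := (Nat.dvd_add_right (dvd_refl s)).1 h1
      have := Nat.le_of_dvd (by norm_num) h2
      omega

end WCS9
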