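import Pool.Agent.Lib.MP_9abbac_co.C04
import Pool.Agent.Lib.MP_9abbac_co.C08
import Pool.Agent.Lib.MP_9abbac_co.C09
import Pool.Agent.Lib.MP_9abbac_co.C10

namespace WCS9
open Equiv

/-- Row C11a: every subset of `sw k X` is the flag set of a sequence of type `X` (induction on the finset: C08, C09, C10), and for `X = 2` it is
obtained from the sequence without flags by applying rules. -/
theorem flags_surj {k X : ℕ} {σ0 : Perm (Seg k)} (hk : 16 ≤ k) (h0 : Plus k σ0 X)
    (hf0 : flags k σ0 X = ∅) {S : Finset ℕ} (hS : S ⊆ sw k X) :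
    ∃ σ : Perm (Seg k), Plus k σ X ∧ flags k σ X = S ∧
      (X = 2 → Relation.ReflTransGen (Step k) σ0 σ) := by
  classical
  induction S using Finset.induction_on with
  | empty => exact ⟨σ0, h0, hf0, fun _ => Relation.ReflTransGen.refl⟩
  | insert s S hs ih =>
    obtain ⟨σ, h1, h2, h3⟩ := ih ((Finset.subset_insert s S).trans hS)
    have hmem : s ∈ sw k X := hS (Finset.mem_insert_self s S)
    have hn : s ∉ flags k σ X := by rw [h2]; exact hs
    unfold sw at hmem
    rcases Finset.mem_union.1 hmem with h4 | h4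
    · obtain ⟨τ, a1, a2, a3⟩ := flip_pp hk h1 h4 hn
      exact ⟨τ, a1, by rw [a2, h2], fun hX => (h3 hX).tail a3⟩
    · by_cases hX : X ≤ 1
      · rw [if_pos hX] at h4
        by_cases hq : (k / 2).Prime ∧ (k / 2 + 2).Prime
        · rw [if_pos hq] at h4
          obtain rfl := Finset.mem_singleton.1 h4
          obtain ⟨τ, a1, a2⟩ := flip_u hk h1 hX hq.1 hq.2 hn
          exact ⟨τ, a1, by rw [a2, h2], fun hX2 => by omega⟩
        · rw [if_neg hq] at h4
          exact absurd h4 (Finset.notMem_empty _)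
      · rw [if_neg hX] at h4
        obtain rfl : X = 2 := by have := h1.le2; omega
        obtain ⟨τ, a1, a2, a3⟩ := flip_twin hk h1 h4 hn
        exact ⟨τ, a1, by rw [a2, h2], fun hX => (h3 hX).tail a3⟩

theorem C11_flags_sub (k : ℕ) (σ : Perm (Seg k)) (X : ℕ) : flags k σ X ⊆ sw k X := by
  classical
  unfold flags
  exact Finset.filter_subset _ _

/-- Row C11b: counting the sequences of type `X` (bijection with the subsets of `sw k X`: `flags_inj`, `flags_surj`). -/
theorem card_plus {k X : ℕ} {σ0 : Perm (Seg k)} (hk : 16 ≤ k) (h0 : Plus k σ0 X)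
    (hf0 : flags k σ0 X = ∅) :
    Nat.card {σ : Perm (Seg k) // Plus k σ X} = 2 ^ (sw k X).card := by
  classical
  have hbij : Function.Bijective (fun σ : {σ : Perm (Seg k) // Plus k σ X} =>
      (⟨flags k σ.1 X, Finset.mem_powerset.2 (C11_flags_sub k σ.1 X)⟩ :
        {S // S ∈ (sw k X).powerset})) := by
    constructor
    · intro σ τ hστ
      exact Subtype.ext (flags_inj hk σ.2 τ.2 (Subtype.ext_iff.1 hστ))
    · rintro ⟨S, hS⟩
      obtain ⟨σ, h1, h2, -⟩ := flags_surj hk h0 hf0 (Finset.mem_powerset.1 hS)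
      exact ⟨⟨σ, h1⟩, Subtype.ext h2⟩
  rw [Nat.card_eq_of_bijective _ hbij, Nat.card_eq_fintype_card, Fintype.card_coe,
    Finset.card_powerset]

/-- Row C11c: in type 2 every sequence is obtained from the one without flags by the rules -/
theorem derived_of_plus {k : ℕ} {σ0 σ : Perm (Seg k)} (hk : 16 ≤ k) (h0 : Plus k σ0 2)
    (hf0 : flags k σ0 2 = ∅) (h : Plus k σ 2) : Relation.ReflTransGen (Step k) σ0 σ := by
  obtain ⟨τ, h1, h2, h3⟩ := flags_surj hk h0 hf0 (C11_flags_sub k σ 2)
  have : τ = σ := flags_inj hk h1 h h2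
  rw [← this]
  exact h3 rfl

end WCS9
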