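import Pool.Agent.Lib.MP_9abbac_co.Core

namespace WCS9
open Equiv

theorem C12_pp {k q : ℕ} (h : q ∈ ppSet k) : ∃ p c : ℕ, p.Prime ∧ 1 ≤ c ∧ q = p ^ c ∧ q ≤ k ∧ k < p ^ c + p ^ (c - 1) := by
  unfold ppSet at h
  obtain ⟨h1, h2, h3⟩ := Finset.mem_filter.1 h
  obtain ⟨p, c, hp, hc, rfl⟩ := h2
  have hp' : p.Prime := hp.nat_prime
  refine ⟨p, c, hp', hc, rfl, (Finset.mem_Icc.1 h1).2, ?_⟩
  rw [hp'.pow_minFac (by omega)] at h3
  have h4 : p ^ c / p = p ^ (c - 1) := by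
    conv_lhs => rw [show c = (c - 1) + 1 by omega, pow_succ]
    exact Nat.mul_div_cancel _ hp'.pos
  rwa [h4] at h3

theorem C12_prime {k q : ℕ} (hq : q.Prime) (h : q ∈ ppSet k) : k < q + 1 := by
  unfold ppSet at h
  obtain ⟨_, _, h3⟩ := Finset.mem_filter.1 h
  rwa [hq.minFac_eq, Nat.div_self hq.pos] at h3

/-- Row C12a: types 0, 1: `k/2 ∉ ppSet k` (if `k/2` is prime: `k < k/2 + 1` false for `k ≥ 2`). -/
theorem card_sw01 {k X : ℕ} (hk : 16 ≤ k) (hX : X ≤ 1) :
    (sw k X).card = (ppSet k).card + uu k := by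
  classical
  unfold sw uu
  rw [if_pos hX]
  by_cases h : (k / 2).Prime ∧ (k / 2 + 2).Prime
  · rw [if_pos h, if_pos h, Finset.card_union_of_disjoint, Finset.card_singleton]
    rw [Finset.disjoint_singleton_right]
    intro h1
    have := C12_prime h.1 h1
    omega
  · rw [if_neg h, if_neg h, Finset.union_empty, add_zero]

/-- Row C12b: type 2: `ppSet k` and `twinSet k` are disjoint (a prime `q` is in `ppSet k` only if `k < q + 1`). -/
theorem card_sw2 {k : ℕ} (hk : 16 ≤ k) : (sw k 2).card = (ppSet k).card + (twinSet k).card := by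
  classical
  unfold sw
  rw [if_neg (by norm_num), Finset.card_union_of_disjoint]
  rw [Finset.disjoint_left]
  intro q h1 h2
  unfold twinSet at h2
  obtain ⟨_, _, hq, _, h5⟩ := Finset.mem_filter.1 h2
  have := C12_prime hq h1
  omega

/-- Row C12c: `2 ^ |ppSet k| ≤ k`: for each exponent `c` there is at most one prime `p` with `p^c ≤ k < p^c + p^(c-1)`
(for `p < p'`: `p'^c ≥ (p+1)^c ≥ p^c + p^(c-1)`), and `1 ≤ c ≤ Nat.log 2 k`; so `|ppSet k| ≤ Nat.log 2 k`.
(map `q ↦ q.factorization q.minFac`, injective on `ppSet k`, into `Finset.Icc 1 (Nat.log 2 k)`.) -/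
theorem two_pow_ppSet_le {k : ℕ} (hk : 1 ≤ k) : 2 ^ (ppSet k).card ≤ k := by
  have hf : ∀ p c : ℕ, p.Prime → 1 ≤ c → (p ^ c).factorization (p ^ c).minFac = c := by
    intro p c hp hc
    rw [hp.pow_minFac (by omega), hp.factorization_pow]
    simp
  have hlt : ∀ p p' c : ℕ, 1 ≤ c → p < p' → p' ^ c ≤ k → k < p ^ c + p ^ (c - 1) → False := by
    intro p p' c hc hpp h1 h2
    have h3 : (p + 1) ^ c ≤ p' ^ c := Nat.pow_le_pow_left hpp c
    have h4 : p ^ c + p ^ (c - 1) ≤ (p + 1) ^ c := by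
      obtain ⟨d, rfl⟩ : ∃ d, c = d + 1 := ⟨c - 1, by omega⟩
      have h5 : p ^ d ≤ (p + 1) ^ d := Nat.pow_le_pow_left (by omega) d
      have h6 : (p + 1) * p ^ d ≤ (p + 1) * (p + 1) ^ d := Nat.mul_le_mul_left _ h5
      rw [Nat.add_sub_cancel, pow_succ, pow_succ]
      nlinarith
    omega
  have hcard : (ppSet k).card ≤ (Finset.Icc 1 (Nat.log 2 k)).card := by
    refine Finset.card_le_card_of_injOn (fun q => q.factorization q.minFac) ?_ ?_
    · intro q hq
      obtain ⟨p, c, hp, hc, rfl, h1, h2⟩ := C12_pp (Finset.mem_coe.1 hq)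
      simp only [hf p c hp hc, Finset.coe_Icc, Set.mem_Icc]
      refine ⟨hc, Nat.le_log_of_pow_le (by norm_num) ?_⟩
      exact (Nat.pow_le_pow_left hp.two_le c).trans h1
    · intro q hq q' hq' hqq
      obtain ⟨p, c, hp, hc, rfl, h1, h2⟩ := C12_pp (Finset.mem_coe.1 hq)
      obtain ⟨p', c', hp', hc', rfl, h1', h2'⟩ := C12_pp (Finset.mem_coe.1 hq')
      simp only [hf p c hp hc, hf p' c' hp' hc'] at hqq
      subst hqq
      rcases lt_trichotomy p p' with h | h | h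
      · exact (hlt p p' c hc h h1' h2).elim
      · rw [h]
      · exact (hlt p' p c hc h h1 h2').elim
  rw [Nat.card_Icc, Nat.add_sub_cancel] at hcard
  calc 2 ^ (ppSet k).card ≤ 2 ^ Nat.log 2 k := Nat.pow_le_pow_right (by norm_num) hcard
    _ ≤ k := Nat.pow_log_le_self 2 (by omega)

end WCS9
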