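import Pool.Agent.Lib.MP_9abbac_co.S06

namespace WCS9
open Equiv

/-- Row C13a: the type is unique: take `n = 7 < k/2` (`k ≥ 16`), a position with `7 ∣ σ i` (`i = σ⁻¹ 7`): `7 ∣ i + X`, `7 ∣ i + Y`,
so `7 ∣ X - Y`, `X, Y ≤ 2`. -/
theorem plus_unique {k X Y : ℕ} {σ : Perm (Seg k)} (hk : 16 ≤ k) (h : Plus k σ X)
    (h' : Plus k σ Y) : X = Y := by
  have h1 := h.low 7 (by norm_num) (by omega) (σ.symm (mkS 7 (by norm_num) (by omega)))
  have h2 := h'.low 7 (by norm_num) (by omega) (σ.symm (mkS 7 (by norm_num) (by omega)))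
  rw [Equiv.apply_symm_apply, mkS_val] at h1 h2
  have h3 := h1.1 dvd_rfl
  have h4 := h2.1 dvd_rfl
  have h5 := h.le2
  have h6 := h'.le2
  omega

theorem C13_dvd {k X Y : ℕ} {σ : Perm (Seg k)} (h : Plus k σ X) (h' : Plus k (σ * rv k) Y) (n : ℕ) (hn : 1 ≤ n)
    (hn2 : n < k / 2) : n ∣ k + 1 + X + Y := by
  set i : Seg k := σ.symm (mkS n hn (by omega)) with hi
  have e1 : σ i = mkS n hn (by omega) := by rw [hi, Equiv.apply_symm_apply]
  have h1 := h.low n hn hn2 i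
  rw [e1, mkS_val] at h1
  have h2 := h'.low n hn hn2 (rv k i)
  have e2 : rv k (rv k i) = i := by
    rw [← Perm.mul_apply, rv_mul_rv]
    rfl
  rw [Perm.mul_apply, e2, e1, mkS_val, rv_val] at h2
  have h3 := h1.1 dvd_rfl
  have h4 := h2.1 dvd_rfl
  have h5 := dvd_add h3 h4
  have h6 := i.le
  have h7 : (i : ℕ) + X + (k + 1 - (i : ℕ) + Y) = k + 1 + X + Y := by omega
  rwa [h7] at h5

/-- Row C13b: the orientation is unique: for `1 ≤ n < k/2`, a position `i` with `n ∣ σ i`: `n ∣ i + X` and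
`n ∣ (k+1-i) + Y` (position `k+1-i` in the reversed sequence), so `n ∣ T = k + 1 + X + Y ≤ k + 5`.  With `m = k/2 - 1 ≥ 7`:
`m ∣ T` and `m - 1 ∣ T`, coprime, so `m (m-1) ≤ T ≤ k + 5 ≤ 2 m + 8`, impossible for `m ≥ 7`. -/
theorem plus_rev {k X Y : ℕ} {σ : Perm (Seg k)} (hk : 16 ≤ k) (h : Plus k σ X) :
    ¬ Plus k (σ * rv k) Y := by
  intro h'
  obtain ⟨m, hm⟩ : ∃ m, m + 2 = k / 2 := ⟨k / 2 - 2, by omega⟩
  have h1 := C13_dvd h h' m (by omega) (by omega)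
  have h2 := C13_dvd h h' (m + 1) (by omega) (by omega)
  have hco : Nat.Coprime m (m + 1) := by simp
  have h3 := hco.mul_dvd_of_dvd_of_dvd h1 h2
  have h4 := Nat.le_of_dvd (by omega) h3
  have h5 := h.le2
  have h6 := h'.le2
  have h7 : 6 ≤ m := by omega
  have h8 : 6 * (m + 1) ≤ m * (m + 1) := Nat.mul_le_mul_right _ h7
  omega

end WCS9
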