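import Pool.Agent.Lib.MP_9abbac_co.C13

namespace WCS9
open Equiv

/-- the sequences in positive orientation, with their type -/
abbrev C14_T (k : ℕ) : Type :=
  ({σ : Perm (Seg k) // Plus k σ 0} ⊕ {σ : Perm (Seg k) // Plus k σ 1}) ⊕
    {σ : Perm (Seg k) // Plus k σ 2}

/-- the underlying sequence -/
def C14_v (k : ℕ) : C14_T k → Perm (Seg k) :=
  Sum.elim (Sum.elim Subtype.val Subtype.val) Subtype.val

theorem C14_v_plus {k : ℕ} (t : C14_T k) : ∃ X, Plus k (C14_v k t) X := by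
  rcases t with (t | t) | t
  · exact ⟨0, t.2⟩
  · exact ⟨1, t.2⟩
  · exact ⟨2, t.2⟩

theorem C14_v_surj {k X : ℕ} {σ : Perm (Seg k)} (h : Plus k σ X) : ∃ t, C14_v k t = σ := by
  have h2 := h.le2
  rcases (by omega : X = 0 ∨ X = 1 ∨ X = 2) with rfl | rfl | rfl
  · exact ⟨Sum.inl (Sum.inl ⟨σ, h⟩), rfl⟩
  · exact ⟨Sum.inl (Sum.inr ⟨σ, h⟩), rfl⟩
  · exact ⟨Sum.inr ⟨σ, h⟩, rfl⟩

theorem C14_v_inj {k : ℕ} (hk : 16 ≤ k) : Function.Injective (C14_v k) := by
  intro t t' h
  rcases t with (t | t) | t <;> rcases t' with (t' | t') | t' <;>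
    have h' : t.1 = t'.1 := h
  · congr 2; exact Subtype.ext h'
  · exact absurd (plus_unique hk t.2 (h' ▸ t'.2)) (by norm_num)
  · exact absurd (plus_unique hk t.2 (h' ▸ t'.2)) (by norm_num)
  · exact absurd (plus_unique hk t.2 (h' ▸ t'.2)) (by norm_num)
  · congr 2; exact Subtype.ext h'
  · exact absurd (plus_unique hk t.2 (h' ▸ t'.2)) (by norm_num)
  · exact absurd (plus_unique hk t.2 (h' ▸ t'.2)) (by norm_num)
  · exact absurd (plus_unique hk t.2 (h' ▸ t'.2)) (by norm_num)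
  · congr 1; exact Subtype.ext h'

theorem C14_rr {k : ℕ} (σ : Perm (Seg k)) : σ * rv k * rv k = σ := by
  rw [mul_assoc, rv_mul_rv, mul_one]

/-- all weakly consecutive sequences -/
def C14_f {k : ℕ} : Bool × C14_T k → {σ : Perm (Seg k) // IsWCS k σ}
  | (false, t) => ⟨C14_v k t, (C14_v_plus t).choose_spec.wcs⟩
  | (true, t) => ⟨C14_v k t * rv k, rv_pres (C14_v_plus t).choose_spec.wcs⟩

theorem C14_bij {k : ℕ} (hk : 16 ≤ k) : Function.Bijective (C14_f (k := k)) := by
  constructor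
  · rintro ⟨b, t⟩ ⟨b', t'⟩ h
    cases b <;> cases b'
    · have h' : C14_v k t = C14_v k t' := Subtype.ext_iff.1 h
      rw [C14_v_inj hk h']
    · exfalso
      have h' : C14_v k t = C14_v k t' * rv k := Subtype.ext_iff.1 h
      obtain ⟨X, hX⟩ := C14_v_plus t
      obtain ⟨Y, hY⟩ := C14_v_plus t'
      refine plus_rev hk hX (Y := Y) ?_
      rw [h', C14_rr]
      exact hY
    · exfalso
      have h' : C14_v k t * rv k = C14_v k t' := Subtype.ext_iff.1 h
      obtain ⟨X, hX⟩ := C14_v_plus t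
      obtain ⟨Y, hY⟩ := C14_v_plus t'
      refine plus_rev hk hX (Y := Y) ?_
      rw [h']
      exact hY
    · have h' : C14_v k t * rv k = C14_v k t' * rv k := Subtype.ext_iff.1 h
      rw [C14_v_inj hk (mul_right_cancel h')]
  · rintro ⟨σ, hσ⟩
    obtain ⟨X, h | h⟩ := exists_plus hk hσ
    · obtain ⟨t, ht⟩ := C14_v_surj h
      exact ⟨(false, t), Subtype.ext ht⟩
    · obtain ⟨t, ht⟩ := C14_v_surj h
      refine ⟨(true, t), Subtype.ext ?_⟩
      change C14_v k t * rv k = σ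
      rw [ht, C14_rr]

/-- Row C14: `N(k)` in terms of the types.  By `exists_plus`, `plus_unique`, `plus_rev`, `rv_pres`, `rv_mul_rv` the set of weakly consecutive
sequences is the disjoint union of the six sets `{σ | Plus k σ X}` and `{σ | Plus k (σ * rv k) X}`, `X = 0, 1, 2` (`Plus.le2`), and
`σ ↦ σ * rv k` is a bijection between the sets of the same `X`. -/
theorem numWCS_eq {k : ℕ} (hk : 16 ≤ k) :
    numWCS k = 2 * (Nat.card {σ : Perm (Seg k) // Plus k σ 0} +
      Nat.card {σ : Perm (Seg k) // Plus k σ 1} + Nat.card {σ : Perm (Seg k) // Plus k σ 2}) := by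
  unfold numWCS
  rw [← Nat.card_eq_of_bijective _ (C14_bij hk), Nat.card_prod, Nat.card_sum, Nat.card_sum,
    Nat.card_eq_fintype_card (α := Bool), Fintype.card_bool]

end WCS9
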