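import Pool.Agent.Lib.MP_9abbac_co.Core

namespace WCS9
open Equiv

/-- changing the values at two positions `a, b` only -/
theorem R1_val {k : ℕ} {σ τ : Perm (Seg k)} {q : ℕ} {a b : Seg k} (ha : (σ a : ℕ) = q)
    (hb : (σ b : ℕ) = q + 2) (hτ : τ = σ * swap a b) :
    (τ a : ℕ) = q + 2 ∧ (τ b : ℕ) = q ∧ ∀ i : Seg k, i ≠ a → i ≠ b → τ i = σ i := by
  subst hτ
  refine ⟨by rw [Perm.mul_apply, swap_apply_left, hb], by rw [Perm.mul_apply, swap_apply_right, ha],
    fun i h1 h2 => by rw [Perm.mul_apply, swap_apply_of_ne_of_ne h1 h2]⟩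

/-- for `m` different from the primes `q, q + 2` nothing changes -/
theorem R1_dvd {k : ℕ} {σ τ : Perm (Seg k)} {q : ℕ} {a b : Seg k} (hq : q.Prime)
    (hq2 : (q + 2).Prime) (ha : (σ a : ℕ) = q)
    (hb : (σ b : ℕ) = q + 2) (hτ : τ = σ * swap a b) {m : ℕ} (h1 : m ≠ q) (h2 : m ≠ q + 2)
    (i : Seg k) : m ∣ (τ i : ℕ) ↔ m ∣ (σ i : ℕ) := by
  obtain ⟨ta, tb, ti⟩ := R1_val ha hb hτ
  by_cases hia : i = a
  · rw [hia, ta, ha, Nat.dvd_prime hq, Nat.dvd_prime hq2]
    simp [h1, h2]
  · by_cases hib : i = b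
    · rw [hib, tb, hb, Nat.dvd_prime hq, Nat.dvd_prime hq2]
      simp [h1, h2]
    · rw [ti i hia hib]

/-- Row S05.  Rule R1 preserves weakly consecutive sequences. -/
theorem R1_pres {k : ℕ} {σ τ : Perm (Seg k)} (h : IsWCS k σ) (hr : R1 k σ τ) : IsWCS k τ := by
  obtain ⟨q, a, b, hq, hq2, hlt, hle, haq, hbq, ha, hb, hτ⟩ := hr
  obtain ⟨ta, tb, ti⟩ := R1_val ha hb hτ
  have hval : ∀ r : ℕ, q ≤ r → ∀ i : Seg k, r ∣ (τ i : ℕ) → (τ i : ℕ) = r := by
    intro r hr i hi
    obtain ⟨c, hc⟩ := hi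
    have h3 := (τ i).pos
    have h4 := (τ i).le
    have : c = 1 := by
      have hc0 : c ≠ 0 := by rintro rfl; omega
      by_contra hne
      have : r * 2 ≤ r * c := Nat.mul_le_mul_left _ (by omega)
      omega
    rw [hc, this, mul_one]
  intro m i j hd hij
  have hi1 := i.pos
  have hi2 := i.le
  have hj1 := j.pos
  have hj2 := j.le
  by_cases h1 : (m : ℕ) = q
  · rw [h1] at hd hij ⊢
    have : τ i = τ b := Subtype.ext (by rw [hval q le_rfl i hd, tb])
    have hib := τ.injective this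
    obtain ⟨c, hc⟩ := hij
    rw [hib, hbq] at hc
    have hq0 : (0 : ℤ) < q := by exact_mod_cast hq.pos
    have hc0 : c = 0 := by
      have c1 : c < 1 := by
        by_contra hge
        push Not at hge
        have : (q : ℤ) * 1 ≤ q * c := mul_le_mul_of_nonneg_left hge hq0.le
        omega
      have c2 : -1 < c := by
        by_contra hge
        push Not at hge
        have : (q : ℤ) * c ≤ q * (-1) := mul_le_mul_of_nonneg_left hge hq0.le
        omega
      omega
    rw [hc0] at hc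
    have : j = b := Subtype.ext (by omega)
    rw [this, tb]
  by_cases h2 : (m : ℕ) = q + 2
  · rw [h2] at hd hij ⊢
    have : τ i = τ a := Subtype.ext (by rw [hval (q + 2) (by omega) i hd, ta])
    have hia := τ.injective this
    obtain ⟨c, hc⟩ := hij
    rw [hia] at hc
    have hq0 : (0 : ℤ) < q := by exact_mod_cast hq.pos
    have hc0 : c = 0 := by
      have c1 : c < 1 := by
        by_contra hge
        push Not at hge
        have : (((q + 2 : ℕ)) : ℤ) * 1 ≤ ((q + 2 : ℕ) : ℤ) * c :=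
          mul_le_mul_of_nonneg_left hge (by positivity)
        omega
      have c2 : -1 < c := by
        by_contra hge
        push Not at hge
        have : ((q + 2 : ℕ) : ℤ) * c ≤ ((q + 2 : ℕ) : ℤ) * (-1) :=
          mul_le_mul_of_nonneg_left hge (by positivity)
        omega
      omega
    rw [hc0] at hc
    have : j = a := Subtype.ext (by omega)
    rw [this, ta]
  · rw [R1_dvd hq hq2 ha hb hτ h1 h2] at hd ⊢
    exact h m i j hd hij

/-- rule R3 is composition with `rv k` -/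
theorem R3_iff {k : ℕ} {σ τ : Perm (Seg k)} : R3 k σ τ ↔ τ = σ * rv k := by
  constructor
  · intro h
    apply Equiv.ext
    intro i
    rw [Perm.mul_apply]
    exact h i (rv k i) (by rw [rv_val]; have := i.le; omega)
  · rintro rfl i j hij
    rw [Perm.mul_apply]
    congr 1
    exact Subtype.ext (by rw [rv_val]; omega)

theorem rv_pres {k : ℕ} {σ : Perm (Seg k)} (h : IsWCS k σ) : IsWCS k (σ * rv k) := by
  intro m i j hd hij
  rw [Perm.mul_apply] at hd ⊢
  refine h m (rv k i) (rv k j) hd ?_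
  have hi := i.le
  have hj := j.le
  have e : (((rv k i : Seg k) : ℕ) : ℤ) - (((rv k j : Seg k) : ℕ) : ℤ) =
      -(((i : ℕ) : ℤ) - ((j : ℕ) : ℤ)) := by
    rw [rv_val, rv_val]; omega
  rw [e, dvd_neg]
  exact hij

end WCS9
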