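import Pool.Agent.Lib.MP_9abbac_co.C08
import Pool.Agent.Lib.MP_9abbac_co.S05

namespace WCS9
open Equiv

theorem step_dvd {k : ℕ} {σ τ : Perm (Seg k)} (hk : 16 ≤ k) (hs : R1 k σ τ ∨ R2 k σ τ) {n : ℕ}
    (hn : n < k / 2) (i : Seg k) : n ∣ (τ i : ℕ) ↔ n ∣ (σ i : ℕ) := by
  rcases hs with hr | hr
  · obtain ⟨q, a, b, hq, hq2, hlt, hle, haq, hbq, ha, hb, hτ⟩ := hr
    exact R1_dvd hq hq2 ha hb hτ (by omega) (by omega) i
  · obtain ⟨p, c, v, w, hp, hc, hle, hlt, hv, hw, hτ⟩ := hr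
    have hVW : p ^ (c - 1) ≤ p ^ c := Nat.pow_le_pow_right hp.pos (by omega)
    exact R2_dvd hp hc hv hw hτ (by omega) i

theorem step_wcs {k : ℕ} {σ τ : Perm (Seg k)} (h : IsWCS k σ) (hs : R1 k σ τ ∨ R2 k σ τ) :
    IsWCS k τ := by
  rcases hs with hr | hr
  · exact R1_pres h hr
  · exact R2_pres h hr

/-- Row C15a: rules R1 and R2 keep the type. -/
theorem plus_step {k X : ℕ} {σ τ : Perm (Seg k)} (hk : 16 ≤ k) (h : Plus k σ X)
    (hs : R1 k σ τ ∨ R2 k σ τ) : Plus k τ X :=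
  ⟨step_wcs h.wcs hs, h.le2,
    fun n h1 h2 => (wp_congr (step_dvd hk hs h2)).2 (h.low n h1 h2), h.one, h.two⟩

/-- Row C15b: the same for sequences whose reversal has type `X`. -/
theorem plus_rev_step {k X : ℕ} {σ τ : Perm (Seg k)} (hk : 16 ≤ k) (h : Plus k (σ * rv k) X)
    (hs : R1 k σ τ ∨ R2 k σ τ) : Plus k (τ * rv k) X := by
  have h1 : IsWCS k σ := by
    have := rv_pres h.wcs
    rwa [mul_assoc, rv_mul_rv, mul_one] at this
  refine ⟨rv_pres (step_wcs h1 hs), h.le2, fun n h2 h3 => ?_, h.one, h.two⟩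
  refine (wp_congr (fun i => ?_)).2 (h.low n h2 h3)
  rw [Perm.mul_apply, Perm.mul_apply]
  exact step_dvd hk hs h3 _

end WCS9
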