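import Pool.Agent.Lib.MP_9abbac_co.C07
import Pool.Agent.Lib.MP_9abbac_co.C11
import Pool.Agent.Lib.MP_9abbac_co.C13
import Pool.Agent.Lib.MP_9abbac_co.C15

namespace WCS9
open Equiv

theorem C16_rr {k : ℕ} (σ : Perm (Seg k)) : σ * rv k * rv k = σ := by
  rw [mul_assoc, rv_mul_rv, mul_one]

/-- rules keep the set of sequences of type 2 up to reversal -/
theorem C16_step {k : ℕ} (hk : 16 ≤ k) {σ τ : Perm (Seg k)}
    (h : Plus k σ 2 ∨ Plus k (σ * rv k) 2) (hs : Step k σ τ) :
    Plus k τ 2 ∨ Plus k (τ * rv k) 2 := by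
  rcases hs with hs | hs | hs
  · exact h.imp (fun h => plus_step hk h (Or.inl hs)) (fun h => plus_rev_step hk h (Or.inl hs))
  · exact h.imp (fun h => plus_step hk h (Or.inr hs)) (fun h => plus_rev_step hk h (Or.inr hs))
  · rw [R3_iff] at hs
    subst hs
    rw [C16_rr]
    exact h.symm

theorem C16_iff {k : ℕ} (hk : 16 ≤ k) (ht : IsTSG k) (τ : Perm (Seg k)) :
    Derived k τ ↔ Plus k τ 2 ∨ Plus k (τ * rv k) 2 := by
  constructor
  · rintro ⟨σ, hσ, hr⟩
    induction hr with
    | refl => exact Or.inl (base2 hk hσ).1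
    | tail _ hs ih => exact C16_step hk ih hs
  · intro h
    obtain ⟨σ, hσ⟩ := exists_start ht
    obtain ⟨h1, h2⟩ := base2 hk hσ
    rcases h with h | h
    · exact ⟨σ, hσ, derived_of_plus hk h1 h2 h⟩
    · refine ⟨σ, hσ, (derived_of_plus hk h1 h2 h).tail (Or.inr (Or.inr ?_))⟩
      rw [R3_iff, C16_rr]

/-- Row C16: `D(k)`.  If `IsTSG k`: the derived sequences are exactly the `σ` with `Plus k σ 2` or `Plus k (σ * rv k) 2`: the start has type 2 (`base2`), the rules keep
this set (`plus_step`, `plus_rev_step`, R3: `R3_iff`, `rv_mul_rv`); conversely `derived_of_plus` (with the unique start `exists_start`) and one R3.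
The two sets are disjoint (`plus_rev`) and in bijection by `σ ↦ σ * rv k`. -/
theorem numDerived_eq {k : ℕ} (hk : 16 ≤ k) (ht : IsTSG k) :
    numDerived k = 2 * Nat.card {σ : Perm (Seg k) // Plus k σ 2} := by
  classical
  have hb : Function.Bijective
      (fun t : Bool × {σ : Perm (Seg k) // Plus k σ 2} =>
        (⟨if t.1 then t.2.1 * rv k else t.2.1, by
          rw [C16_iff hk ht]
          split
          · rw [C16_rr]; exact Or.inr t.2.2
          · exact Or.inl t.2.2⟩ : {τ : Perm (Seg k) // Derived k τ})) := by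
    constructor
    · rintro ⟨b, σ⟩ ⟨b', σ'⟩ h
      have h' := Subtype.ext_iff.1 h
      cases b <;> cases b'
      · have : σ.1 = σ'.1 := by simpa using h'
        rw [Subtype.ext this]
      · exfalso
        have h1 : σ.1 = σ'.1 * rv k := by simpa using h'
        refine plus_rev hk σ'.2 (Y := 2) ?_
        rw [← h1]
        exact σ.2
      · exfalso
        have h1 : σ.1 * rv k = σ'.1 := by simpa using h'
        refine plus_rev hk σ.2 (Y := 2) ?_
        rw [h1]
        exact σ'.2
      · have h1 : σ.1 * rv k = σ'.1 * rv k := by simpa using h'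
        have : σ.1 = σ'.1 := mul_right_cancel h1
        rw [Subtype.ext this]
    · rintro ⟨τ, hτ⟩
      rcases (C16_iff hk ht τ).1 hτ with h | h
      · exact ⟨(false, ⟨τ, h⟩), Subtype.ext (by simp)⟩
      · exact ⟨(true, ⟨τ * rv k, h⟩), Subtype.ext (by simp [C16_rr])⟩
  unfold numDerived
  rw [← Nat.card_eq_of_bijective _ hb, Nat.card_prod]
  simp

/-- no start, no derived sequences -/
theorem numDerived_zero {k : ℕ} (ht : ¬ IsTSG k) : numDerived k = 0 := by
  have : IsEmpty {τ : Perm (Seg k) // Derived k τ} :=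
    ⟨fun τ => by
      obtain ⟨σ, ⟨p, h1, h2, h3, h4, -⟩, -⟩ := τ.2
      exact ht ⟨p, h1, h2, h3, h4⟩⟩
  unfold numDerived
  exact Nat.card_of_isEmpty

end WCS9
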