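import Mathlib

/-!
Weakly consecutive sequences: the definitions of the problem.
-/

namespace WCS9

open Equiv

/-- the set `[k] = {1, …, k}`, used for positions and for values -/
abbrev Seg (k : ℕ) := {i : ℕ // i ∈ Finset.Icc 1 k}

/-- a permutation `σ` of `[k]` is weakly consecutive if for all `m, i, j` in `[k]`:
`m ∣ σ i` and `m ∣ i - j` imply `m ∣ σ j` -/
def IsWCS (k : ℕ) (σ : Perm (Seg k)) : Prop :=
  ∀ m i j : Seg k, (m : ℕ) ∣ (σ i : ℕ) →
    ((m : ℕ) : ℤ) ∣ ((i : ℕ) : ℤ) - ((j : ℕ) : ℤ) → (m : ℕ) ∣ (σ j : ℕ)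

/-- `N(k)` -/
noncomputable def numWCS (k : ℕ) : ℕ := Nat.card {σ : Perm (Seg k) // IsWCS k σ}

/-- `k = 2p - 1` with `p`, `p + 2`, `2p + 1` prime -/
def IsTSG (k : ℕ) : Prop :=
  ∃ p : ℕ, p.Prime ∧ (p + 2).Prime ∧ (2 * p + 1).Prime ∧ k + 1 = 2 * p

/-- the Twin Sophie Germain start -/
def IsStart (k : ℕ) (σ : Perm (Seg k)) : Prop :=
  ∃ p : ℕ, p.Prime ∧ (p + 2).Prime ∧ (2 * p + 1).Prime ∧ k + 1 = 2 * p ∧
    ∀ i : Seg k, (σ i : ℕ) =
      if (i : ℕ) = k then 1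
      else if (i : ℕ) + 1 = k then 2
      else if (i : ℕ) = p then p
      else if (i : ℕ) + 2 = p then p + 2
      else (i : ℕ) + 2

/-- rule R1: twin prime swap -/
def R1 (k : ℕ) (σ τ : Perm (Seg k)) : Prop :=
  ∃ (q : ℕ) (a b : Seg k), q.Prime ∧ (q + 2).Prime ∧ (k + 1) / 2 < q ∧ q ≤ k ∧
    (a : ℕ) + 2 = q ∧ (b : ℕ) = q ∧ (σ a : ℕ) = q ∧ (σ b : ℕ) = q + 2 ∧
    τ = σ * swap a b

/-- rule R2: prime power swap (exchange of the positions of the values `p^(c-1)`, `p^c`) -/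
def R2 (k : ℕ) (σ τ : Perm (Seg k)) : Prop :=
  ∃ (p c : ℕ) (v w : Seg k), p.Prime ∧ 1 ≤ c ∧ p ^ c ≤ k ∧ k < p ^ c + p ^ (c - 1) ∧
    (v : ℕ) = p ^ (c - 1) ∧ (w : ℕ) = p ^ c ∧ τ = swap v w * σ

/-- rule R3: reversal -/
def R3 (k : ℕ) (σ τ : Perm (Seg k)) : Prop :=
  ∀ i j : Seg k, (i : ℕ) + (j : ℕ) = k + 1 → τ i = σ j

/-- one application of a rule -/
def Step (k : ℕ) (σ τ : Perm (Seg k)) : Prop := R1 k σ τ ∨ R2 k σ τ ∨ R3 k σ τ

/-- `τ` is derived from the Twin Sophie Germain start -/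
def Derived (k : ℕ) (τ : Perm (Seg k)) : Prop :=
  ∃ σ : Perm (Seg k), IsStart k σ ∧ Relation.ReflTransGen (Step k) σ τ

/-- `D(k)` -/
noncomputable def numDerived (k : ℕ) : ℕ := Nat.card {τ : Perm (Seg k) // Derived k τ}

/-- the prime powers `p^c ≤ k` with `k < p^c + p^(c-1)` (the moves of type R2) -/
def ppSet (k : ℕ) : Finset ℕ :=
  (Finset.Icc 1 k).filter fun q => IsPrimePow q ∧ k < q + q / q.minFac

/-- exchange of the values `2` and `2q`, and of the values `q` and `q + 2` -/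
def exch (q n : ℕ) : ℕ :=
  if n = 2 then 2 * q else if n = 2 * q then 2 else if n = q then q + 2 else if n = q + 2 then q else n

/-- the explicit starting sequences: the identity; if `q = ⌊k/2⌋` and `q + 2` are prime the identity with
the values `2, 2q` exchanged and the values `q, q+2` exchanged; if `k + 1` is prime the cyclic shift
`(2, 3, …, k, 1)`; if `k + 1`, `q`, `q + 2` are prime the shift with the same exchanges; the Twin Sophie
Germain start -/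
def IsStart5 (k : ℕ) (σ : Perm (Seg k)) : Prop :=
  (∀ i : Seg k, (σ i : ℕ) = (i : ℕ)) ∨
  ((k / 2).Prime ∧ (k / 2 + 2).Prime ∧ ∀ i : Seg k, (σ i : ℕ) = exch (k / 2) (i : ℕ)) ∨
  ((k + 1).Prime ∧ ∀ i : Seg k, (σ i : ℕ) = if (i : ℕ) = k then 1 else (i : ℕ) + 1) ∨
  ((k + 1).Prime ∧ (k / 2).Prime ∧ (k / 2 + 2).Prime ∧
    ∀ i : Seg k, (σ i : ℕ) = exch (k / 2) (if (i : ℕ) = k then 1 else (i : ℕ) + 1)) ∨
  IsStart k σ

open Classical in
/-- `u(k) = 1` if `⌊k/2⌋` and `⌊k/2⌋ + 2` are prime, else `0` -/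
noncomputable def uu (k : ℕ) : ℕ := if (k / 2).Prime ∧ (k / 2 + 2).Prime then 1 else 0

open Classical in
/-- `v(k) = 1` if `k + 1` is prime, else `0` -/
noncomputable def vv (k : ℕ) : ℕ := if (k + 1).Prime then 1 else 0

/-- the twin prime pairs `q, q + 2` with `⌈k/2⌉ < q` and `q + 2 ≤ k` (lower members) -/
def twinSet (k : ℕ) : Finset ℕ :=
  (Finset.Icc 1 k).filter fun q => (k + 1) / 2 < q ∧ q.Prime ∧ (q + 2).Prime ∧ q + 2 ≤ k

open Classical in
/-- `w(k) = 2 ^ (number of twin pairs)` if `k` is of the form `2p-1` with `p, p+2, 2p+1` prime,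
else `0` -/
noncomputable def ww (k : ℕ) : ℕ := if IsTSG k then 2 ^ (twinSet k).card else 0

end WCS9
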