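import Pool.Agent.Lib.MP_9abbac_co.Basic
import Pool.Agent.Lib.MP_9abbac_co.Defs

namespace WCS9
open Equiv

theorem Seg.pos {k : ℕ} (i : Seg k) : 1 ≤ (i : ℕ) := (Finset.mem_Icc.1 i.2).1
theorem Seg.le {k : ℕ} (i : Seg k) : (i : ℕ) ≤ k := (Finset.mem_Icc.1 i.2).2

/-- an element of `[k]` -/
def mkS {k : ℕ} (n : ℕ) (h1 : 1 ≤ n) (h2 : n ≤ k) : Seg k := ⟨n, Finset.mem_Icc.2 ⟨h1, h2⟩⟩

@[simp] theorem mkS_val {k n : ℕ} (h1 : 1 ≤ n) (h2 : n ≤ k) : ((mkS n h1 h2 : Seg k) : ℕ) = n := rfl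

/-- reversal of positions -/
def rv (k : ℕ) : Perm (Seg k) where
  toFun i := mkS (k + 1 - i) (by have := i.le; omega) (by have := i.pos; omega)
  invFun i := mkS (k + 1 - i) (by have := i.le; omega) (by have := i.pos; omega)
  left_inv i := Subtype.ext (by have := i.le; simp [mkS]; omega)
  right_inv i := Subtype.ext (by have := i.le; simp [mkS]; omega)

@[simp] theorem rv_val {k : ℕ} (i : Seg k) : ((rv k i : Seg k) : ℕ) = k + 1 - i := rfl

theorem rv_mul_rv (k : ℕ) : rv k * rv k = 1 := by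
  ext i
  have := i.le
  simp [Perm.mul_apply]
  omega

/-- `n` is well placed: the multiples of `n` are at the positions `i` with `n ∣ i + X` -/
def WP (k : ℕ) (σ : Perm (Seg k)) (n X : ℕ) : Prop :=
  ∀ i : Seg k, n ∣ (σ i : ℕ) ↔ n ∣ (i : ℕ) + X

/-- the sequences of type `X` in positive orientation -/
structure Plus (k : ℕ) (σ : Perm (Seg k)) (X : ℕ) : Prop where
  wcs : IsWCS k σ
  le2 : X ≤ 2
  low : ∀ n : ℕ, 1 ≤ n → n < k / 2 → WP k σ n X
  one : X = 1 → (k + 1).Prime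
  two : X = 2 → IsTSG k

open Classical in
/-- the available independent moves for type `X` -/
noncomputable def sw (k X : ℕ) : Finset ℕ :=
  ppSet k ∪ (if X ≤ 1 then (if (k / 2).Prime ∧ (k / 2 + 2).Prime then {k / 2} else ∅)
    else twinSet k)

open Classical in
/-- the moves made by `σ` -/
noncomputable def flags (k : ℕ) (σ : Perm (Seg k)) (X : ℕ) : Finset ℕ :=
  (sw k X).filter fun q => ¬ WP k σ q X

end WCS9
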