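import Pool.Agent.Lib.MP_9abbac_co.C12

namespace WCS9

theorem RP_fac {p c : ℕ} (hp : p.Prime) (hc : 1 ≤ c) :
    (p ^ c).factorization (p ^ c).minFac = c := by
  rw [hp.pow_minFac (by omega), hp.factorization_pow]
  simp

theorem RP_lt {k p p' c : ℕ} (hc : 1 ≤ c) (hpp : p < p') (h1 : p' ^ c ≤ k)
    (h2 : k < p ^ c + p ^ (c - 1)) : False := by
  have h3 : (p + 1) ^ c ≤ p' ^ c := Nat.pow_le_pow_left hpp c
  have h4 : p ^ c + p ^ (c - 1) ≤ (p + 1) ^ c := by
    obtain ⟨d, rfl⟩ : ∃ d, c = d + 1 := ⟨c - 1, by omega⟩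
    have h5 : p ^ d ≤ (p + 1) ^ d := Nat.pow_le_pow_left (by omega) d
    have h6 : (p + 1) * p ^ d ≤ (p + 1) * (p + 1) ^ d := Nat.mul_le_mul_left _ h5
    rw [Nat.add_sub_cancel, pow_succ, pow_succ]
    nlinarith
  omega

theorem RP_lt' {k p c c' : ℕ} (hp : p.Prime) (hc : 1 ≤ c) (hcc : c < c') (h1 : p ^ c' ≤ k)
    (h2 : k < p ^ c + p ^ (c - 1)) : False := by
  have h3 : p ^ (c + 1) ≤ p ^ c' := Nat.pow_le_pow_right hp.pos hcc
  have h4 : p ^ (c - 1) ≤ p ^ c := Nat.pow_le_pow_right hp.pos (by omega)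
  have h5 : 2 * p ^ c ≤ p ^ (c + 1) := by
    rw [pow_succ, mul_comm]
    exact Nat.mul_le_mul_left _ hp.two_le
  omega

/-- for each prime at most one exponent, for each exponent at most one prime: the prime powers of `ppSet k` with prime
`< y` are at most `y`, the others at most `log_y k` -/
theorem ppSet_card_le_add {y k : ℕ} (hy : 2 ≤ y) :
    (ppSet k).card ≤ y + Nat.log y k := by
  classical
  have h0 := Finset.card_filter_add_card_filter_not (s := ppSet k) (fun q => q.minFac < y)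
  have h1 : ((ppSet k).filter fun q => q.minFac < y).card ≤ y := by
    have : ((ppSet k).filter fun q => q.minFac < y).card ≤ (Finset.range y).card := by
      refine Finset.card_le_card_of_injOn (fun q => q.minFac) ?_ ?_
      · intro q hq
        rw [Finset.mem_coe, Finset.mem_filter] at hq
        rw [Finset.mem_coe, Finset.mem_range]
        exact hq.2
      · intro q hq q' hq' hqq
        rw [Finset.mem_coe, Finset.mem_filter] at hq hq'
        obtain ⟨p, c, hp, hc, rfl, h1, h2⟩ := C12_pp hq.1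
        obtain ⟨p', c', hp', hc', rfl, h1', h2'⟩ := C12_pp hq'.1
        simp only [hp.pow_minFac (show c ≠ 0 by omega), hp'.pow_minFac (show c' ≠ 0 by omega)] at hqq
        subst hqq
        rcases lt_trichotomy c c' with h | h | h
        · exact (RP_lt' hp hc h h1' h2).elim
        · rw [h]
        · exact (RP_lt' hp hc' h h1 h2').elim
    rwa [Finset.card_range] at this
  have h2 : ((ppSet k).filter fun q => ¬ q.minFac < y).card ≤ Nat.log y k := by
    have : ((ppSet k).filter fun q => ¬ q.minFac < y).card ≤ (Finset.Icc 1 (Nat.log y k)).card := by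
      refine Finset.card_le_card_of_injOn (fun q => q.factorization q.minFac) ?_ ?_
      · intro q hq
        rw [Finset.mem_coe, Finset.mem_filter] at hq
        obtain ⟨hq, hqy⟩ := hq
        obtain ⟨p, c, hp, hc, rfl, h1, h2⟩ := C12_pp hq
        rw [hp.pow_minFac (by omega)] at hqy
        simp only [RP_fac hp hc, Finset.coe_Icc, Set.mem_Icc]
        refine ⟨hc, Nat.le_log_of_pow_le (by omega) ?_⟩
        exact (Nat.pow_le_pow_left (by omega) c).trans h1
      · intro q hq q' hq' hqq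
        rw [Finset.mem_coe, Finset.mem_filter] at hq hq'
        obtain ⟨p, c, hp, hc, rfl, h1, h2⟩ := C12_pp hq.1
        obtain ⟨p', c', hp', hc', rfl, h1', h2'⟩ := C12_pp hq'.1
        simp only [RP_fac hp hc, RP_fac hp' hc'] at hqq
        subst hqq
        rcases lt_trichotomy p p' with h | h | h
        · exact (RP_lt hc h h1' h2).elim
        · rw [h]
        · exact (RP_lt hc h h1 h2').elim
    rwa [Nat.card_Icc, Nat.add_sub_cancel] at this
  omega

/-- `2 ^ |ppSet k| = k ^ o(1)` -/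
theorem two_pow_ppSet_pow_le {m k : ℕ} (hm : 1 ≤ m) (hk : 1 ≤ k) :
    (2 ^ (ppSet k).card) ^ m ≤ 2 ^ (2 ^ m * m) * k := by
  have hy : 2 ≤ 2 ^ m := by
    calc 2 = 2 ^ 1 := rfl
      _ ≤ 2 ^ m := Nat.pow_le_pow_right (by norm_num) hm
  have h1 := ppSet_card_le_add (k := k) hy
  have h2 : (2 ^ m) ^ Nat.log (2 ^ m) k ≤ k := Nat.pow_log_le_self _ (by omega)
  calc (2 ^ (ppSet k).card) ^ m = 2 ^ ((ppSet k).card * m) := by rw [← pow_mul]
    _ ≤ 2 ^ ((2 ^ m + Nat.log (2 ^ m) k) * m) :=
        Nat.pow_le_pow_right (by norm_num) (Nat.mul_le_mul_right _ h1)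
    _ = 2 ^ (2 ^ m * m) * (2 ^ m) ^ Nat.log (2 ^ m) k := by
        rw [add_mul, pow_add, ← pow_mul, mul_comm (Nat.log (2 ^ m) k) m]
    _ ≤ 2 ^ (2 ^ m * m) * k := Nat.mul_le_mul_left _ h2

end WCS9
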