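import Pool.Agent.Lib.MP_9abbac_co.Main
import Pool.Agent.Lib.MP_9abbac_co.RP

namespace WCS9
open Filter Topology

/-- number of sequences not derived from the start, divided by two -/
noncomputable def ee (k : ℕ) : ℕ := 2 ^ (ppSet k).card * ((1 + uu k) * (1 + vv k))

/-- number of sequences derived from the start, divided by two -/
noncomputable def wx (k : ℕ) : ℕ := 2 ^ (ppSet k).card * ww k

theorem one_le_ee (k : ℕ) : 1 ≤ ee k := by
  unfold ee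
  have h1 : 1 ≤ 2 ^ (ppSet k).card := Nat.one_le_two_pow
  have h2 : 1 ≤ (1 + uu k) * (1 + vv k) := Nat.mul_pos (by omega) (by omega)
  exact Nat.mul_le_mul h1 h2

theorem ee_le_four (k : ℕ) : ee k ≤ 4 * 2 ^ (ppSet k).card := by
  unfold ee
  have h2 : (1 + uu k) * (1 + vv k) ≤ 2 * 2 :=
    Nat.mul_le_mul (by have := uu_le k; omega) (by have := vv_le k; omega)
  calc 2 ^ (ppSet k).card * ((1 + uu k) * (1 + vv k)) ≤ 2 ^ (ppSet k).card * (2 * 2) :=
        Nat.mul_le_mul_left _ h2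
    _ = 4 * 2 ^ (ppSet k).card := by ring

theorem ee_pow_le {m k : ℕ} (hm : 1 ≤ m) (hk : 1 ≤ k) :
    ee k ^ m ≤ (4 ^ m * 2 ^ (2 ^ m * m)) * k := by
  calc ee k ^ m ≤ (4 * 2 ^ (ppSet k).card) ^ m := Nat.pow_le_pow_left (ee_le_four k) m
    _ = 4 ^ m * (2 ^ (ppSet k).card) ^ m := by rw [mul_pow]
    _ ≤ 4 ^ m * (2 ^ (2 ^ m * m) * k) := Nat.mul_le_mul_left _ (two_pow_ppSet_pow_le hm hk)
    _ = _ := by ring

theorem numWCS_eq2 {k : ℕ} (hk : 16 ≤ k) : numWCS k = 2 * (ee k + wx k) := by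
  rw [numWCS_formula hk]; unfold ee wx; ring

theorem numDerived_eq2 {k : ℕ} (hk : 16 ≤ k) : numDerived k = 2 * wx k := by
  rw [numDerived_formula hk]; unfold wx; ring

/-- `E(K)` -/
noncomputable def EE (K : ℕ) : ℝ := ∑ k ∈ Finset.Icc 1 K, (ee k : ℝ)

/-- `W(K)` -/
noncomputable def WW (K : ℕ) : ℝ := ∑ k ∈ Finset.Icc 1 K, (wx k : ℝ)

/-- `A(K)` -/
noncomputable def AA (K : ℕ) : ℝ := ∑ k ∈ Finset.Icc 1 K, (numWCS k : ℝ)

/-- `B(K)` -/
noncomputable def BB (K : ℕ) : ℝ := ∑ k ∈ Finset.Icc 1 K, (numDerived k : ℝ)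

theorem EE_ge (K : ℕ) : (K : ℝ) ≤ EE K := E01_ge ee (fun k _ => one_le_ee k) K

theorem WW_nonneg (K : ℕ) : 0 ≤ WW K := E01_nonneg wx K

theorem BB_const : ∃ b : ℝ, ∀ K, 15 ≤ K → BB K = 2 * WW K + b := by
  refine ⟨∑ k ∈ Finset.Icc 1 15, (numDerived k : ℝ) - ∑ k ∈ Finset.Icc 1 15, 2 * (wx k : ℝ),
    fun K hK => ?_⟩
  unfold BB WW
  rw [Finset.mul_sum]
  exact E01_const (fun k => (numDerived k : ℝ)) (fun k => 2 * (wx k : ℝ))
    (fun k hk => by rw [numDerived_eq2 hk]; push_cast; ring) K hK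

theorem q1_iff0 : Tendsto (fun K => BB K / AA K) atTop (𝓝 1) ↔
    Tendsto (fun K => EE K / ∑ k ∈ Finset.Icc 1 K, ((ee k : ℝ) + wx k)) atTop (𝓝 0) :=
  ratio_iff numWCS numDerived ee wx (fun _ hk => numWCS_eq2 hk) (fun _ hk => numDerived_eq2 hk)
    (fun k _ => one_le_ee k)

theorem q1_iff : Tendsto (fun K => BB K / AA K) atTop (𝓝 1) ↔
    Tendsto (fun K => WW K / EE K) atTop atTop := by
  rw [q1_iff0]
  have e : ∀ K : ℕ, 1 ≤ K → EE K / ∑ k ∈ Finset.Icc 1 K, ((ee k : ℝ) + wx k) =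
      (1 + WW K / EE K)⁻¹ := by
    intro K hK
    have h1 : (0 : ℝ) < EE K := lt_of_lt_of_le (by exact_mod_cast hK) (EE_ge K)
    rw [Finset.sum_add_distrib]
    change EE K / (EE K + WW K) = _
    have h2 := WW_nonneg K
    field_simp
  have e2 : Tendsto (fun K => EE K / ∑ k ∈ Finset.Icc 1 K, ((ee k : ℝ) + wx k)) atTop (𝓝 0) ↔
      Tendsto (fun K => (1 + WW K / EE K)⁻¹) atTop (𝓝 0) := by
    refine tendsto_congr' ?_
    filter_upwards [eventually_ge_atTop 1] with K hK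
    exact e K hK
  rw [e2]
  have hpos : ∀ K, 0 ≤ WW K / EE K := fun K =>
    div_nonneg (WW_nonneg K) (le_trans (Nat.cast_nonneg K) (EE_ge K))
  constructor
  · intro h
    have h1 : Tendsto (fun K => ((1 + WW K / EE K)⁻¹)⁻¹) atTop atTop := by
      refine Tendsto.inv_tendsto_nhdsGT_zero ?_
      rw [tendsto_nhdsWithin_iff]
      refine ⟨h, Eventually.of_forall fun K => ?_⟩
      have := hpos K
      rw [Set.mem_Ioi]
      positivity
    have h2 : Tendsto (fun K => -1 + ((1 + WW K / EE K)⁻¹)⁻¹) atTop atTop :=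
      tendsto_atTop_add_const_left _ _ h1
    refine h2.congr fun K => ?_
    rw [inv_inv]
    ring
  · intro h
    exact tendsto_inv_atTop_zero.comp (tendsto_atTop_add_const_left _ _ h)

theorem growth_of_q1 (h : Tendsto (fun K => BB K / AA K) atTop (𝓝 1)) :
    Tendsto (fun K : ℕ => BB K / (K : ℝ)) atTop atTop := by
  rw [q1_iff0] at h
  have h0 := growth_of_ratio ee wx (fun k _ => one_le_ee k) h
  obtain ⟨b, hb⟩ := BB_const
  rw [tendsto_atTop] at h0 ⊢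
  intro M
  filter_upwards [h0 ((M + |b|) / 2), eventually_ge_atTop 15] with K h1 h2
  rw [hb K h2]
  have hK : (1 : ℝ) ≤ (K : ℝ) := by exact_mod_cast (show 1 ≤ K by omega)
  rw [add_div, mul_div_assoc]
  have h3 : -|b| ≤ b / (K : ℝ) := by
    have e1 : -|b| ≤ -|b| / (K : ℝ) := by
      rw [neg_div]
      exact neg_le_neg (div_le_self (abs_nonneg b) hK)
    exact e1.trans (div_le_div_of_nonneg_right (neg_abs_le b) (by positivity))
  change (M + |b|) / 2 ≤ WW K / (K : ℝ) at h1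
  linarith

theorem infinite_of_q1 (h : Tendsto (fun K => BB K / AA K) atTop (𝓝 1)) :
    {p : ℕ | p.Prime ∧ (p + 2).Prime ∧ (2 * p + 1).Prime}.Infinite := by
  intro hfin
  obtain ⟨M, hM⟩ := hfin.bddAbove
  have hg := growth_of_q1 h
  have h0 : ∀ k, 2 * M < k → numDerived k = 0 := by
    intro k hk
    refine numDerived_zero ?_
    rintro ⟨p, h1, h2, h3, h4⟩
    have := hM (show p ∈ {p : ℕ | p.Prime ∧ (p + 2).Prime ∧ (2 * p + 1).Prime} from ⟨h1, h2, h3⟩)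
    omega
  have hc : ∀ K, 2 * M ≤ K → BB K = BB (2 * M) := by
    intro K hK
    induction K, hK using Nat.le_induction with
    | base => rfl
    | succ n hn ih =>
      rw [← ih]
      unfold BB
      rw [Finset.sum_Icc_succ_top (by omega), h0 (n + 1) (by omega), Nat.cast_zero, add_zero]
  have hB0 : 0 ≤ BB (2 * M) := E01_nonneg numDerived _
  obtain ⟨K, h1, h2, h3⟩ := ((tendsto_atTop.1 hg (BB (2 * M) + 1)).and
    ((eventually_ge_atTop (2 * M)).and (eventually_ge_atTop 1))).exists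
  rw [hc K h2] at h1
  have hK : (1 : ℝ) ≤ (K : ℝ) := by exact_mod_cast h3
  have := div_le_self hB0 hK
  linarith

theorem q1_of_growth {δ : ℝ} (hδ : 0 < δ) (h : ∀ᶠ K : ℕ in atTop, (K : ℝ) ^ (1 + δ) ≤ WW K) :
    Tendsto (fun K => BB K / AA K) atTop (𝓝 1) := by
  rw [q1_iff]
  obtain ⟨m, hm⟩ := exists_nat_gt (1 / δ)
  have hm1 : 1 ≤ m := by
    have : (0 : ℝ) < m := lt_trans (by positivity) hm
    exact_mod_cast this
  have hm0 : (0 : ℝ) < m := by exact_mod_cast hm1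
  have hmd : 1 / (m : ℝ) < δ := by
    rw [div_lt_iff₀ hm0]
    rw [div_lt_iff₀ hδ] at hm
    linarith
  set C : ℕ := 4 ^ m * 2 ^ (2 ^ m * m) with hC
  have hC0 : 0 < C := by positivity
  have hCr : (0 : ℝ) < (C : ℝ) ^ (1 / (m : ℝ)) := Real.rpow_pos_of_pos (by exact_mod_cast hC0) _
  have hE : ∀ K : ℕ, 1 ≤ K → EE K ≤ (C : ℝ) ^ (1 / (m : ℝ)) * (K : ℝ) ^ (1 + 1 / (m : ℝ)) := by
    intro K hK
    have hK0 : (0 : ℝ) < K := by exact_mod_cast hK
    have h1 : ∀ k ∈ Finset.Icc 1 K, (ee k : ℝ) ≤ (C : ℝ) ^ (1 / (m : ℝ)) * (K : ℝ) ^ (1 / (m : ℝ)) := by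
      intro k hk
      rw [Finset.mem_Icc] at hk
      have h2 := ee_pow_le hm1 hk.1
      have h3 : ((ee k : ℝ)) ^ m ≤ (C : ℝ) * (K : ℝ) := by
        have : ee k ^ m ≤ C * K := h2.trans (Nat.mul_le_mul_left _ hk.2)
        exact_mod_cast this
      have h4 : (ee k : ℝ) = ((ee k : ℝ) ^ m) ^ (1 / (m : ℝ)) := by
        rw [one_div, Real.pow_rpow_inv_natCast (Nat.cast_nonneg _) (by omega)]
      rw [h4, ← Real.mul_rpow (by positivity) (by positivity)]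
      exact Real.rpow_le_rpow (by positivity) h3 (by positivity)
    calc EE K ≤ ∑ k ∈ Finset.Icc 1 K, (C : ℝ) ^ (1 / (m : ℝ)) * (K : ℝ) ^ (1 / (m : ℝ)) :=
          Finset.sum_le_sum h1
      _ = (K : ℝ) * ((C : ℝ) ^ (1 / (m : ℝ)) * (K : ℝ) ^ (1 / (m : ℝ))) := by
          rw [Finset.sum_const, Nat.card_Icc, Nat.add_sub_cancel, nsmul_eq_mul]
      _ = _ := by
          rw [Real.rpow_add hK0, Real.rpow_one]
          ring
  have hlim : Tendsto (fun K : ℕ => ((C : ℝ) ^ (1 / (m : ℝ)))⁻¹ * (K : ℝ) ^ (δ - 1 / (m : ℝ)))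
      atTop atTop := by
    refine Tendsto.const_mul_atTop (inv_pos.2 hCr) ?_
    exact (tendsto_rpow_atTop (by linarith)).comp tendsto_natCast_atTop_atTop
  refine tendsto_atTop_mono' _ ?_ hlim
  filter_upwards [h, eventually_ge_atTop 1] with K h1 h2
  have hK0 : (0 : ℝ) < K := by exact_mod_cast h2
  have hE0 : (0 : ℝ) < EE K := lt_of_lt_of_le hK0 (EE_ge K)
  rw [le_div_iff₀ hE0]
  refine le_trans ?_ h1
  calc ((C : ℝ) ^ (1 / (m : ℝ)))⁻¹ * (K : ℝ) ^ (δ - 1 / (m : ℝ)) * EE K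
      ≤ ((C : ℝ) ^ (1 / (m : ℝ)))⁻¹ * (K : ℝ) ^ (δ - 1 / (m : ℝ)) *
        ((C : ℝ) ^ (1 / (m : ℝ)) * (K : ℝ) ^ (1 + 1 / (m : ℝ))) :=
        mul_le_mul_of_nonneg_left (hE K h2) (by positivity)
    _ = (K : ℝ) ^ (δ - 1 / (m : ℝ)) * (K : ℝ) ^ (1 + 1 / (m : ℝ)) := by
        field_simp
    _ = (K : ℝ) ^ (1 + δ) := by
        rw [← Real.rpow_add hK0]
        congr 1
        ring

theorem q1_of_primes {δ : ℝ} (hδ : 0 < δ)
    (h : ∀ᶠ K : ℕ in atTop, ∃ k : ℕ, k ≤ K ∧ IsTSG k ∧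
      (K : ℝ) ^ (1 + δ) ≤ (2 : ℝ) ^ (twinSet k).card) :
    Tendsto (fun K => BB K / AA K) atTop (𝓝 1) := by
  refine q1_of_growth hδ ?_
  filter_upwards [h] with K hK
  obtain ⟨k, h1, h2, h3⟩ := hK
  have hk1 : 1 ≤ k := by
    obtain ⟨p, hp, -, -, h⟩ := h2
    have := hp.two_le
    omega
  refine h3.trans ?_
  have h4 : ((2 : ℝ) ^ (twinSet k).card) ≤ (wx k : ℝ) := by
    have : 2 ^ (twinSet k).card ≤ wx k := by
      unfold wx ww
      rw [if_pos h2]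
      exact Nat.le_mul_of_pos_left _ (by positivity)
    exact_mod_cast this
  refine h4.trans ?_
  exact Finset.single_le_sum (f := fun k => (wx k : ℝ)) (fun _ _ => Nat.cast_nonneg _)
    (Finset.mem_Icc.2 ⟨hk1, h1⟩)

end WCS9
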