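import Mathlib

namespace WCS9
open Filter Topology

theorem E01_ge (e : ℕ → ℕ) (he : ∀ k, 1 ≤ k → 1 ≤ e k) (K : ℕ) :
    (K : ℝ) ≤ ∑ k ∈ Finset.Icc 1 K, (e k : ℝ) := by
  have h1 : ∑ k ∈ Finset.Icc 1 K, (1 : ℝ) ≤ ∑ k ∈ Finset.Icc 1 K, (e k : ℝ) := by
    refine Finset.sum_le_sum fun k hk => ?_
    rw [Finset.mem_Icc] at hk
    exact_mod_cast he k hk.1
  rw [Finset.sum_const, Nat.card_Icc, nsmul_eq_mul] at h1
  simpa using h1

theorem E01_nonneg (w : ℕ → ℕ) (K : ℕ) : (0 : ℝ) ≤ ∑ k ∈ Finset.Icc 1 K, (w k : ℝ) :=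
  Finset.sum_nonneg fun _ _ => Nat.cast_nonneg _

/-- partial sums of two functions that agree from 16 on differ by a constant -/
theorem E01_const (f g : ℕ → ℝ) (h : ∀ k, 16 ≤ k → f k = g k) (K : ℕ) (hK : 15 ≤ K) :
    ∑ k ∈ Finset.Icc 1 K, f k = ∑ k ∈ Finset.Icc 1 K, g k +
      (∑ k ∈ Finset.Icc 1 15, f k - ∑ k ∈ Finset.Icc 1 15, g k) := by
  induction K, hK using Nat.le_induction with
  | base => ring
  | succ n hn ih =>
    rw [Finset.sum_Icc_succ_top (by omega), Finset.sum_Icc_succ_top (by omega), ih,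
      h (n + 1) (by omega)]
    ring

/-- Row E01.  Put `A = sum_{k ≤ K} N k`, `B = sum D k`, `E = sum e k`, `W = sum w k`.  `A - 2(E+W)` and `B - 2W` are constant for `K ≥ 15`, `E K ≥ K`.
`B/A → 1` iff `(A-B)/A → 0`, `A - B = 2E + const`, `A = 2(E+W) + const`, everything tends to infinity. -/
theorem ratio_iff (N D e w : ℕ → ℕ) (hN : ∀ k, 16 ≤ k → N k = 2 * (e k + w k))
    (hD : ∀ k, 16 ≤ k → D k = 2 * w k) (he : ∀ k, 1 ≤ k → 1 ≤ e k) :
    Tendsto (fun K : ℕ => (∑ k ∈ Finset.Icc 1 K, (D k : ℝ)) / ∑ k ∈ Finset.Icc 1 K, (N k : ℝ))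
      atTop (𝓝 1) ↔
    Tendsto (fun K : ℕ => (∑ k ∈ Finset.Icc 1 K, (e k : ℝ)) /
      ∑ k ∈ Finset.Icc 1 K, ((e k : ℝ) + w k)) atTop (𝓝 0) := by
  set E : ℕ → ℝ := fun K => ∑ k ∈ Finset.Icc 1 K, (e k : ℝ) with hE
  set W : ℕ → ℝ := fun K => ∑ k ∈ Finset.Icc 1 K, (w k : ℝ) with hW
  set S : ℕ → ℝ := fun K => ∑ k ∈ Finset.Icc 1 K, ((e k : ℝ) + w k) with hS
  set A : ℕ → ℝ := fun K => ∑ k ∈ Finset.Icc 1 K, (N k : ℝ) with hA
  set B : ℕ → ℝ := fun K => ∑ k ∈ Finset.Icc 1 K, (D k : ℝ) with hB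
  have hSEW : ∀ K, S K = E K + W K := fun K => Finset.sum_add_distrib
  have hKS : ∀ K : ℕ, (K : ℝ) ≤ S K := fun K => by
    have h1 := E01_ge e he K
    have h2 := E01_nonneg w K
    rw [hSEW K]
    have h3 : E K = ∑ k ∈ Finset.Icc 1 K, (e k : ℝ) := rfl
    have h4 : W K = ∑ k ∈ Finset.Icc 1 K, (w k : ℝ) := rfl
    linarith
  have hSt : Tendsto S atTop atTop := tendsto_atTop_mono hKS tendsto_natCast_atTop_atTop
  obtain ⟨a, ha⟩ : ∃ a : ℝ, ∀ K, 15 ≤ K → A K = 2 * S K + a := by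
    refine ⟨∑ k ∈ Finset.Icc 1 15, (N k : ℝ) - ∑ k ∈ Finset.Icc 1 15, 2 * ((e k : ℝ) + w k),
      fun K hK => ?_⟩
    have h1 := E01_const (fun k => (N k : ℝ)) (fun k => 2 * ((e k : ℝ) + w k))
      (fun k hk => by rw [hN k hk]; push_cast; ring) K hK
    have h2 : ∑ k ∈ Finset.Icc 1 K, 2 * ((e k : ℝ) + w k) = 2 * S K := by
      rw [← Finset.mul_sum]
    beta_reduce at h1
    rw [h2] at h1
    exact h1
  obtain ⟨b, hb⟩ : ∃ b : ℝ, ∀ K, 15 ≤ K → B K = 2 * W K + b := by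
    refine ⟨∑ k ∈ Finset.Icc 1 15, (D k : ℝ) - ∑ k ∈ Finset.Icc 1 15, 2 * (w k : ℝ),
      fun K hK => ?_⟩
    have h1 := E01_const (fun k => (D k : ℝ)) (fun k => 2 * (w k : ℝ))
      (fun k hk => by rw [hD k hk]; push_cast; ring) K hK
    have h2 : ∑ k ∈ Finset.Icc 1 K, 2 * (w k : ℝ) = 2 * W K := by
      rw [← Finset.mul_sum]
    beta_reduce at h1
    rw [h2] at h1
    exact h1
  have haS : Tendsto (fun K => a / S K) atTop (𝓝 0) := hSt.const_div_atTop a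
  have hbS : Tendsto (fun K => b / S K) atTop (𝓝 0) := hSt.const_div_atTop b
  have hev : ∀ᶠ K in atTop, 15 ≤ K ∧ 0 < S K ∧ 0 < 2 * S K + a := by
    filter_upwards [eventually_ge_atTop 15, hSt.eventually_gt_atTop 0,
      hSt.eventually_gt_atTop (-a / 2)] with K h1 h2 h3
    exact ⟨h1, h2, by linarith⟩
  change Tendsto (fun K => B K / A K) atTop (𝓝 1) ↔ Tendsto (fun K => E K / S K) atTop (𝓝 0)
  clear_value E W S A B
  constructor
  · intro hf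
    have h1 : Tendsto (fun K => (2 + b / S K - (B K / A K) * (2 + a / S K)) / 2) atTop
        (𝓝 ((2 + 0 - 1 * (2 + 0)) / 2)) :=
      ((tendsto_const_nhds.add hbS).sub (hf.mul (tendsto_const_nhds.add haS))).div_const 2
    have h2 : ((2 : ℝ) + 0 - 1 * (2 + 0)) / 2 = 0 := by norm_num
    rw [h2] at h1
    refine h1.congr' ?_
    filter_upwards [hev] with K hK
    obtain ⟨k1, k2, k3⟩ := hK
    rw [hb K k1, ha K k1]
    have : W K = S K - E K := by rw [hSEW]; ring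
    rw [this]
    field_simp
    ring
  · intro hg
    have h1 : Tendsto (fun K => (2 - 2 * (E K / S K) + b / S K) / (2 + a / S K)) atTop
        (𝓝 ((2 - 2 * 0 + 0) / (2 + 0))) :=
      ((tendsto_const_nhds.sub (hg.const_mul 2)).add hbS).div (tendsto_const_nhds.add haS)
        (by norm_num)
    have h2 : ((2 : ℝ) - 2 * 0 + 0) / (2 + 0) = 1 := by norm_num
    rw [h2] at h1
    refine h1.congr' ?_
    filter_upwards [hev] with K hK
    obtain ⟨k1, k2, k3⟩ := hK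
    rw [hb K k1, ha K k1]
    have : W K = S K - E K := by rw [hSEW]; ring
    rw [this]
    have e1 : 2 + a / S K = (2 * S K + a) / S K := by field_simp
    have e2 : 2 - 2 * (E K / S K) + b / S K = (2 * (S K - E K) + b) / S K := by
      field_simp
    rw [e1, e2, div_div_div_cancel_right₀ k2.ne']

/-- Row E02a.  `e k ≤ 4 k`, so `E ≤ 4 K^2`, and `E/(E+W) ≤ 4 K^2 / W → 0`. -/
theorem ratio_of_growth (e w : ℕ → ℕ) (he : ∀ k, 1 ≤ k → 1 ≤ e k) (he' : ∀ k, 1 ≤ k → e k ≤ 4 * k)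
    (h : Tendsto (fun K : ℕ => (∑ k ∈ Finset.Icc 1 K, (w k : ℝ)) / (K : ℝ) ^ 2) atTop atTop) :
    Tendsto (fun K : ℕ => (∑ k ∈ Finset.Icc 1 K, (e k : ℝ)) /
      ∑ k ∈ Finset.Icc 1 K, ((e k : ℝ) + w k)) atTop (𝓝 0) := by
  have h4 : Tendsto (fun K : ℕ => (4 : ℝ) / ((∑ k ∈ Finset.Icc 1 K, (w k : ℝ)) / (K : ℝ) ^ 2)) atTop
      (𝓝 0) := h.const_div_atTop 4
  refine tendsto_of_tendsto_of_tendsto_of_le_of_le' tendsto_const_nhds h4 ?_ ?_
  · refine Eventually.of_forall fun K => ?_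
    exact div_nonneg (E01_nonneg e K)
      (Finset.sum_nonneg fun k _ => add_nonneg (Nat.cast_nonneg _) (Nat.cast_nonneg _))
  · filter_upwards [eventually_ge_atTop 1, h.eventually_gt_atTop 0] with K hK hW
    have hK0 : (0 : ℝ) < K := by exact_mod_cast hK
    have hW0 : (0 : ℝ) < ∑ k ∈ Finset.Icc 1 K, (w k : ℝ) := by
      have h1 : (0:ℝ) < (K : ℝ) ^ 2 := by positivity
      have h2 := mul_pos hW h1
      rwa [div_mul_cancel₀ _ h1.ne'] at h2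
    have hE : ∑ k ∈ Finset.Icc 1 K, (e k : ℝ) ≤ 4 * (K : ℝ) ^ 2 := by
      have h1 : ∑ k ∈ Finset.Icc 1 K, (e k : ℝ) ≤ ∑ k ∈ Finset.Icc 1 K, (4 * (K : ℝ)) := by
        refine Finset.sum_le_sum fun k hk => ?_
        rw [Finset.mem_Icc] at hk
        have : e k ≤ 4 * K := (he' k hk.1).trans (by omega)
        exact_mod_cast this
      rw [Finset.sum_const, Nat.card_Icc, nsmul_eq_mul] at h1
      have h2 : ((K + 1 - 1 : ℕ) : ℝ) = K := by simp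
      rw [h2] at h1
      linarith
    have hE0 := E01_nonneg e K
    rw [Finset.sum_add_distrib]
    rw [div_div_eq_mul_div]
    calc (∑ k ∈ Finset.Icc 1 K, (e k : ℝ)) /
          (∑ k ∈ Finset.Icc 1 K, (e k : ℝ) + ∑ k ∈ Finset.Icc 1 K, (w k : ℝ))
        ≤ (∑ k ∈ Finset.Icc 1 K, (e k : ℝ)) / ∑ k ∈ Finset.Icc 1 K, (w k : ℝ) :=
          div_le_div_of_nonneg_left hE0 hW0 (by linarith)
      _ ≤ 4 * (K : ℝ) ^ 2 / ∑ k ∈ Finset.Icc 1 K, (w k : ℝ) := by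
          gcongr

/-- Row E02b.  `E ≥ K`, so `E/(E+W) → 0` forces `W / K → ∞`. -/
theorem growth_of_ratio (e w : ℕ → ℕ) (he : ∀ k, 1 ≤ k → 1 ≤ e k)
    (h : Tendsto (fun K : ℕ => (∑ k ∈ Finset.Icc 1 K, (e k : ℝ)) /
      ∑ k ∈ Finset.Icc 1 K, ((e k : ℝ) + w k)) atTop (𝓝 0)) :
    Tendsto (fun K : ℕ => (∑ k ∈ Finset.Icc 1 K, (w k : ℝ)) / (K : ℝ)) atTop atTop := by
  rw [tendsto_atTop]
  intro M
  set m : ℝ := max M 0 with hm
  have hm0 : 0 ≤ m := le_max_right _ _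
  have hpos : (0 : ℝ) < 1 / (m + 1) := by positivity
  filter_upwards [eventually_ge_atTop 1, h.eventually_lt_const hpos] with K hK h1
  have hK0 : (0 : ℝ) < K := by exact_mod_cast hK
  have hE := E01_ge e he K
  have hW := E01_nonneg w K
  rw [Finset.sum_add_distrib, div_lt_div_iff₀ (by linarith) (by linarith), one_mul] at h1
  refine (le_max_left M 0).trans ?_
  rw [le_div_iff₀ hK0, ← hm]
  have : m * (K : ℝ) ≤ m * ∑ k ∈ Finset.Icc 1 K, (e k : ℝ) := mul_le_mul_of_nonneg_left hE hm0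
  linarith

end WCS9
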