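import Pool.Agent.Lib.MP_9abbac_co.C05
import Pool.Agent.Lib.MP_9abbac_co.C16

namespace WCS9
open Equiv

/-- rules R1 and R2 do not change divisibility by `n ≤ k/2` -/
theorem step_dvd' {k : ℕ} {σ τ : Perm (Seg k)} (hk : 16 ≤ k) (hs : R1 k σ τ ∨ R2 k σ τ) {n : ℕ}
    (hn : n ≤ k / 2) (i : Seg k) : n ∣ (τ i : ℕ) ↔ n ∣ (σ i : ℕ) := by
  rcases hs with hr | hr
  · obtain ⟨q, a, b, hq, hq2, hlt, hle, haq, hbq, ha, hb, hτ⟩ := hr
    exact R1_dvd hq hq2 ha hb hτ (by omega) (by omega) i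
  · obtain ⟨p, c, v, w, hp, hc, hle, hlt, hv, hw, hτ⟩ := hr
    have hVW : p ^ (c - 1) < p ^ c := Nat.pow_lt_pow_right hp.one_lt (by omega)
    exact R2_dvd hp hc hv hw hτ (by omega) i

/-- prime power moves by the rules -/
theorem reach {k X : ℕ} {σ : Perm (Seg k)} (hk : 16 ≤ k) (h : Plus k σ X) {T : Finset ℕ}
    (hT : T ⊆ ppSet k) (hd : Disjoint T (flags k σ X)) :
    ∃ τ : Perm (Seg k), Plus k τ X ∧ flags k τ X = T ∪ flags k σ X ∧
      Relation.ReflTransGen (Step k) σ τ := by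
  classical
  induction T using Finset.induction_on with
  | empty => exact ⟨σ, h, by rw [Finset.empty_union], Relation.ReflTransGen.refl⟩
  | insert s S hs ih =>
    rw [Finset.disjoint_insert_left] at hd
    obtain ⟨τ, h1, h2, h3⟩ := ih ((Finset.subset_insert s S).trans hT) hd.2
    have hn : s ∉ flags k τ X := by
      rw [h2, Finset.mem_union, not_or]
      exact ⟨hs, hd.1⟩
    obtain ⟨ρ, a1, a2, a3⟩ := flip_pp hk h1 (hT (Finset.mem_insert_self s S)) hn
    exact ⟨ρ, a1, by rw [a2, h2, Finset.insert_union], h3.tail a3⟩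

theorem half_notMem_ppSet {k : ℕ} (hk : 16 ≤ k) : k / 2 ∉ ppSet k := by
  intro h
  rw [mem_ppSet] at h
  have := Nat.div_le_self (k / 2) (k / 2).minFac
  have h2 := h.2.2
  have h3 : 2 ≤ (k / 2).minFac := (Nat.minFac_prime (by omega)).two_le
  have h4 : k / 2 / (k / 2).minFac ≤ k / 2 / 2 := Nat.div_le_div_left h3 (by norm_num)
  omega

/-- a sequence of type 0 or 1 is obtained by the rules from the sequence without flags or from the one with the
only flag `k/2` -/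
theorem from_base {k X : ℕ} {σ0 τ : Perm (Seg k)} (hk : 16 ≤ k) (hX : X ≤ 1) (h0 : Plus k σ0 X)
    (hf0 : flags k σ0 X = ∅) (h : Plus k τ X) :
    Relation.ReflTransGen (Step k) σ0 τ ∨
    ((k / 2).Prime ∧ (k / 2 + 2).Prime ∧ ∃ σ1 : Perm (Seg k),
      (∀ i : Seg k, (σ1 i : ℕ) = exch (k / 2) (σ0 i)) ∧ Relation.ReflTransGen (Step k) σ1 τ) := by
  classical
  have hsub := C11_flags_sub k τ X
  by_cases hm : k / 2 ∈ flags k τ X
  · right
    have hm2 := hsub hm
    have hpp : (k / 2).Prime ∧ (k / 2 + 2).Prime := by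
      unfold sw at hm2
      rw [if_pos hX, Finset.mem_union] at hm2
      rcases hm2 with hm2 | hm2
      · exact absurd hm2 (half_notMem_ppSet hk)
      · by_contra hc
        rw [if_neg hc] at hm2
        exact absurd hm2 (Finset.notMem_empty _)
    obtain ⟨σ1, e1, e2, e3⟩ := flip_ux hk h0 hX hpp.1 hpp.2 (by rw [hf0]; exact Finset.notMem_empty _)
    rw [hf0] at e3
    refine ⟨hpp.1, hpp.2, σ1, e1, ?_⟩
    obtain ⟨ρ, r1, r2, r3⟩ := reach hk e2 (T := (flags k τ X).erase (k / 2)) (by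
      intro s hs
      rw [Finset.mem_erase] at hs
      have h1 := hsub hs.2
      unfold sw at h1
      rw [if_pos hX, if_pos hpp, Finset.mem_union, Finset.mem_singleton] at h1
      rcases h1 with h1 | h1
      · exact h1
      · exact absurd h1 hs.1) (by
      rw [e3]
      simp)
    have : ρ = τ := by
      refine flags_inj hk r1 h ?_
      rw [r2, e3]
      ext s
      simp only [Finset.mem_union, Finset.mem_erase, Finset.mem_insert, Finset.notMem_empty, or_false]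
      constructor
      · rintro (⟨-, h1⟩ | rfl)
        · exact h1
        · exact hm
      · intro h1
        by_cases h2 : s = k / 2
        · exact Or.inr h2
        · exact Or.inl ⟨h2, h1⟩
    rw [← this]
    exact r3
  · left
    obtain ⟨ρ, r1, r2, r3⟩ := reach hk h0 (T := flags k τ X) (by
      intro s hs
      have h1 := hsub hs
      unfold sw at h1
      rw [if_pos hX, Finset.mem_union] at h1
      rcases h1 with h1 | h1
      · exact h1
      · split_ifs at h1 with h2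
        · rw [Finset.mem_singleton] at h1
          rw [h1] at hs
          exact absurd hs hm
        · exact absurd h1 (Finset.notMem_empty _)) (by
      rw [hf0]
      exact Finset.disjoint_empty_right _)
    have : ρ = τ := by
      refine flags_inj hk r1 h ?_
      rw [r2, hf0, Finset.union_empty]
    rw [← this]
    exact r3

theorem from_plus {k X : ℕ} {τ : Perm (Seg k)} (hk : 16 ≤ k) (h : Plus k τ X) :
    ∃ σ : Perm (Seg k), IsStart5 k σ ∧ Relation.ReflTransGen (Step k) σ τ := by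
  have h2 := h.le2
  rcases (by omega : X = 0 ∨ X = 1 ∨ X = 2) with rfl | rfl | rfl
  · obtain ⟨b1, b2⟩ := base0 k
    rcases from_base hk (by norm_num) b1 b2 h with h3 | ⟨h3, h4, σ1, h5, h6⟩
    · exact ⟨1, Or.inl fun i => rfl, h3⟩
    · exact ⟨σ1, Or.inr (Or.inl ⟨h3, h4, fun i => h5 i⟩), h6⟩
  · obtain ⟨σ0, b0, b1, b2⟩ := base1x (h.one rfl)
    rcases from_base hk (by norm_num) b1 b2 h with h3 | ⟨h3, h4, σ1, h5, h6⟩
    · exact ⟨σ0, Or.inr (Or.inr (Or.inl ⟨h.one rfl, b0⟩)), h3⟩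
    · refine ⟨σ1, Or.inr (Or.inr (Or.inr (Or.inl ⟨h.one rfl, h3, h4, fun i => ?_⟩))), h6⟩
      rw [h5 i, b0 i]
  · obtain ⟨σ, hσ⟩ := exists_start (h.two rfl)
    obtain ⟨h1, h2⟩ := base2 hk hσ
    exact ⟨σ, Or.inr (Or.inr (Or.inr (Or.inr hσ))), derived_of_plus hk h1 h2 h⟩

/-- the types of the starting sequences -/
theorem start5_key {k : ℕ} (hk : 16 ≤ k) {σ : Perm (Seg k)} (h : IsStart5 k σ) :
    (Plus k σ 0 ∧ WP k σ (k / 2) 0 ∧ ∀ i : Seg k, (σ i : ℕ) = (i : ℕ)) ∨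
    (Plus k σ 0 ∧ ¬ WP k σ (k / 2) 0 ∧ ∀ i : Seg k, (σ i : ℕ) = exch (k / 2) (i : ℕ)) ∨
    (Plus k σ 1 ∧ WP k σ (k / 2) 1 ∧
      ∀ i : Seg k, (σ i : ℕ) = if (i : ℕ) = k then 1 else (i : ℕ) + 1) ∨
    (Plus k σ 1 ∧ ¬ WP k σ (k / 2) 1 ∧
      ∀ i : Seg k, (σ i : ℕ) = exch (k / 2) (if (i : ℕ) = k then 1 else (i : ℕ) + 1)) ∨
    (Plus k σ 2 ∧ IsStart k σ) := by
  classical
  have hu : ∀ X : ℕ, X ≤ 1 → (k / 2).Prime → (k / 2 + 2).Prime → k / 2 ∈ sw k X := by
    intro X hX h1 h2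
    unfold sw
    rw [if_pos hX, if_pos ⟨h1, h2⟩, Finset.mem_union, Finset.mem_singleton]
    exact Or.inr rfl
  rcases h with h | ⟨h1, h2, h⟩ | ⟨h0, h⟩ | ⟨h0, h1, h2, h⟩ | h
  · left
    have : σ = 1 := Equiv.ext fun i => Subtype.ext (h i)
    refine ⟨by rw [this]; exact (base0 k).1, ?_, h⟩
    intro i
    rw [h i, add_zero]
  · right; left
    obtain ⟨b1, b2⟩ := base0 k
    obtain ⟨σ1, e1, e2, e3⟩ := flip_ux hk b1 (by norm_num) h1 h2
      (by rw [b2]; exact Finset.notMem_empty _)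
    have : σ = σ1 := Equiv.ext fun i => Subtype.ext (by rw [h i, e1 i]; rfl)
    refine ⟨by rw [this]; exact e2, ?_, h⟩
    have h3 : k / 2 ∈ flags k σ 0 := by rw [this, e3]; exact Finset.mem_insert_self _ _
    exact (mem_flags.1 h3).2
  · right; right; left
    obtain ⟨σ1, e1, e2, e3⟩ := base1x h0
    have : σ = σ1 := Equiv.ext fun i => Subtype.ext (by rw [h i, e1 i])
    refine ⟨by rw [this]; exact e2, ?_, h⟩
    intro i
    rw [h i]
    split
    · rename_i hi
      rw [hi]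
      constructor
      · intro h3
        have := Nat.le_of_dvd one_pos h3
        omega
      · intro h3
        rcases (Nat.dvd_prime h0).1 h3 with h4 | h4 <;> omega
    · exact Iff.rfl
  · right; right; right; left
    obtain ⟨σ0, c1, c2, c3⟩ := base1x h0
    obtain ⟨σ1, e1, e2, e3⟩ := flip_ux hk c2 (by norm_num) h1 h2
      (by rw [c3]; exact Finset.notMem_empty _)
    have : σ = σ1 := Equiv.ext fun i => Subtype.ext (by rw [h i, e1 i, c1 i])
    refine ⟨by rw [this]; exact e2, ?_, h⟩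
    have h3 : k / 2 ∈ flags k σ 1 := by rw [this, e3]; exact Finset.mem_insert_self _ _
    exact (mem_flags.1 h3).2
  · right; right; right; right
    exact ⟨(base2 hk h).1, h⟩

theorem start5_plus {k : ℕ} (hk : 16 ≤ k) {σ : Perm (Seg k)} (h : IsStart5 k σ) :
    ∃ X, Plus k σ X := by
  rcases start5_key hk h with h | h | h | h | h
  · exact ⟨0, h.1⟩
  · exact ⟨0, h.1⟩
  · exact ⟨1, h.1⟩
  · exact ⟨1, h.1⟩
  · exact ⟨2, h.1⟩

theorem start5_det {k X : ℕ} (hk : 16 ≤ k) {σ σ' : Perm (Seg k)} (h : IsStart5 k σ)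
    (h' : IsStart5 k σ') (hp : Plus k σ X) (hp' : Plus k σ' X)
    (hw : WP k σ (k / 2) X ↔ WP k σ' (k / 2) X) : σ = σ' := by
  rcases start5_key hk h with ⟨a1, a2, a3⟩ | ⟨a1, a2, a3⟩ | ⟨a1, a2, a3⟩ | ⟨a1, a2, a3⟩ | ⟨a1, a2⟩ <;>
  rcases start5_key hk h' with ⟨b1, b2, b3⟩ | ⟨b1, b2, b3⟩ | ⟨b1, b2, b3⟩ | ⟨b1, b2, b3⟩ | ⟨b1, b2⟩ <;>
  have e1 := plus_unique hk hp a1 <;> have e2 := plus_unique hk hp' b1 <;>
  first
  | (exfalso; omega)
  | (subst e1; exact absurd (hw.1 a2) b2)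
  | (subst e1; exact absurd (hw.2 b2) a2)
  | exact start_unique a2 b2
  | (subst e1; exact Equiv.ext fun i => Subtype.ext (by rw [a3 i, b3 i]))

theorem reach_inv {k X : ℕ} (hk : 16 ≤ k) {σ τ : Perm (Seg k)} (hp : Plus k σ X)
    (h : Relation.ReflTransGen (Step k) σ τ) :
    (Plus k τ X ∧ (WP k τ (k / 2) X ↔ WP k σ (k / 2) X)) ∨
    (Plus k (τ * rv k) X ∧ (WP k (τ * rv k) (k / 2) X ↔ WP k σ (k / 2) X)) := by
  induction h with
  | refl => exact Or.inl ⟨hp, Iff.rfl⟩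
  | tail _ hs ih =>
    rename_i ρ τ _
    have key : (R1 k ρ τ ∨ R2 k ρ τ) →
        (Plus k τ X ∧ (WP k τ (k / 2) X ↔ WP k σ (k / 2) X)) ∨
        (Plus k (τ * rv k) X ∧ (WP k (τ * rv k) (k / 2) X ↔ WP k σ (k / 2) X)) := by
      intro hr
      rcases ih with ⟨i1, i2⟩ | ⟨i1, i2⟩
      · left
        refine ⟨plus_step hk i1 hr, ?_⟩
        rw [← i2]
        exact wp_congr fun i => step_dvd' hk hr le_rfl i
      · right
        refine ⟨plus_rev_step hk i1 hr, ?_⟩
        rw [← i2]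
        refine wp_congr fun i => ?_
        rw [Perm.mul_apply, Perm.mul_apply]
        exact step_dvd' hk hr le_rfl _
    rcases hs with hs | hs | hs
    · exact key (Or.inl hs)
    · exact key (Or.inr hs)
    · rw [R3_iff] at hs
      subst hs
      rw [C16_rr]
      exact ih.symm

/-- the complete list of the weakly consecutive sequences -/
theorem five {k : ℕ} (hk : 16 ≤ k) (τ : Perm (Seg k)) :
    IsWCS k τ ↔ ∃! σ : Perm (Seg k), IsStart5 k σ ∧ Relation.ReflTransGen (Step k) σ τ := by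
  constructor
  · intro h
    have hex : ∃ σ : Perm (Seg k), IsStart5 k σ ∧ Relation.ReflTransGen (Step k) σ τ := by
      obtain ⟨X, hX | hX⟩ := exists_plus hk h
      · exact from_plus hk hX
      · obtain ⟨σ, h1, h2⟩ := from_plus hk hX
        refine ⟨σ, h1, h2.tail (Or.inr (Or.inr ?_))⟩
        rw [R3_iff, C16_rr]
    obtain ⟨σ, h1, h2⟩ := hex
    refine ⟨σ, ⟨h1, h2⟩, ?_⟩
    rintro σ' ⟨h1', h2'⟩
    obtain ⟨X, hX⟩ := start5_plus hk h1
    obtain ⟨Y, hY⟩ := start5_plus hk h1'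
    rcases reach_inv hk hX h2 with ⟨p1, p2⟩ | ⟨p1, p2⟩ <;>
      rcases reach_inv hk hY h2' with ⟨q1, q2⟩ | ⟨q1, q2⟩
    · obtain rfl := plus_unique hk p1 q1
      exact start5_det hk h1' h1 hY hX (q2.symm.trans p2)
    · exact absurd q1 (plus_rev hk p1)
    · exact absurd p1 (plus_rev hk q1)
    · obtain rfl := plus_unique hk p1 q1
      exact start5_det hk h1' h1 hY hX (q2.symm.trans p2)
  · rintro ⟨σ, ⟨h1, h2⟩, -⟩
    obtain ⟨X, hX⟩ := start5_plus hk h1
    rcases reach_inv hk hX h2 with ⟨p1, -⟩ | ⟨p1, -⟩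
    · exact p1.wcs
    · have := rv_pres p1.wcs
      rwa [C16_rr] at this

end WCS9
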