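import Pool.Agent.Lib.MP_9abbac_co.C05
import Pool.Agent.Lib.MP_9abbac_co.C07
import Pool.Agent.Lib.MP_9abbac_co.C11
import Pool.Agent.Lib.MP_9abbac_co.C12
import Pool.Agent.Lib.MP_9abbac_co.C14
import Pool.Agent.Lib.MP_9abbac_co.C16
import Pool.Agent.Lib.MP_9abbac_co.E01

namespace WCS9
open Equiv Filter Topology

theorem two_pow_uu (k : ℕ) : 2 ^ uu k = 1 + uu k := by
  classical
  unfold uu
  split <;> rfl

theorem uu_le (k : ℕ) : uu k ≤ 1 := by
  classical
  unfold uu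
  split <;> simp

theorem vv_le (k : ℕ) : vv k ≤ 1 := by
  classical
  unfold vv
  split <;> simp

theorem card0 {k : ℕ} (hk : 16 ≤ k) :
    Nat.card {σ : Perm (Seg k) // Plus k σ 0} = 2 ^ (ppSet k).card * (1 + uu k) := by
  rw [card_plus hk (base0 k).1 (base0 k).2, card_sw01 hk (by norm_num), pow_add, two_pow_uu]

theorem card1 {k : ℕ} (hk : 16 ≤ k) :
    Nat.card {σ : Perm (Seg k) // Plus k σ 1} = 2 ^ (ppSet k).card * (1 + uu k) * vv k := by
  classical
  by_cases hv : (k + 1).Prime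
  · obtain ⟨σ, h1, h2⟩ := base1 hv
    rw [card_plus hk h1 h2, card_sw01 hk le_rfl, pow_add, two_pow_uu]
    unfold vv
    rw [if_pos hv, mul_one]
  · have : IsEmpty {σ : Perm (Seg k) // Plus k σ 1} := ⟨fun σ => hv (σ.2.one rfl)⟩
    rw [Nat.card_of_isEmpty]
    unfold vv
    rw [if_neg hv, mul_zero]

theorem card2 {k : ℕ} (hk : 16 ≤ k) :
    Nat.card {σ : Perm (Seg k) // Plus k σ 2} = 2 ^ (ppSet k).card * ww k := by
  classical
  by_cases ht : IsTSG k
  · obtain ⟨σ, h⟩ := exists_start ht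
    obtain ⟨h1, h2⟩ := base2 hk h
    rw [card_plus hk h1 h2, card_sw2 hk, pow_add]
    unfold ww
    rw [if_pos ht]
  · have : IsEmpty {σ : Perm (Seg k) // Plus k σ 2} := ⟨fun σ => ht (σ.2.two rfl)⟩
    rw [Nat.card_of_isEmpty]
    unfold ww
    rw [if_neg ht, mul_zero]

theorem numWCS_formula {k : ℕ} (hk : 16 ≤ k) :
    numWCS k = 2 ^ ((ppSet k).card + 1) * ((1 + uu k) * (1 + vv k) + ww k) := by
  rw [numWCS_eq hk, card0 hk, card1 hk, card2 hk]
  ring

theorem numDerived_formula {k : ℕ} (hk : 16 ≤ k) :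
    numDerived k = 2 ^ ((ppSet k).card + 1) * ww k := by
  classical
  by_cases ht : IsTSG k
  · rw [numDerived_eq hk ht, card2 hk]
    ring
  · rw [numDerived_zero ht]
    unfold ww
    rw [if_neg ht, mul_zero]

end WCS9
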