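import Pool.Agent.Lib.MP_9abbac_co.Core

namespace WCS9
open Equiv

/-- Row S01. The positions of the multiples of `n` form exactly one residue class.
Proof: `P = {i | n ∣ σ i}` has exactly `k / n ≥ 1` elements (`σ` is a permutation, count the multiples of
`n` in `[1,k]`: `Nat.card_multiples` or `Nat.count`, or an explicit injection).  Take `i0 ∈ P`, `r` in `[1,n]`
congruent to `i0`.  By `IsWCS` all `i` congruent to `r` are in `P`; there are at least `k/n` of them
(`r, r+n, ..., r+(k/n-1)n ≤ k`), so `P` is exactly this class; if `r ≤ k % n` there would be `k/n+1` of them. -/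
theorem class_exists {k : ℕ} {σ : Perm (Seg k)} (h : IsWCS k σ) {n : ℕ} (h1 : 1 ≤ n) (h2 : n ≤ k) :
    ∃ r : ℕ, 1 ≤ r ∧ r ≤ n ∧ k % n < r ∧
      ∀ i : Seg k, n ∣ (σ i : ℕ) ↔ (n : ℤ) ∣ ((i : ℕ) : ℤ) - r := by
  classical
  obtain ⟨i0, hσ⟩ : ∃ i0 : Seg k, (σ i0 : ℕ) = n :=
    ⟨σ.symm (mkS n h1 h2), by rw [Equiv.apply_symm_apply]; rfl⟩
  have hi0 := i0.pos
  obtain ⟨r, hr⟩ : ∃ r : ℕ, r = ((i0 : ℕ) - 1) % n + 1 := ⟨_, rfl⟩
  have hmod : ((i0 : ℕ) - 1) % n < n := Nat.mod_lt _ (by omega)
  have hr1 : 1 ≤ r := by omega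
  have hrn : r ≤ n := by omega
  have hdiv : (n : ℤ) ∣ ((i0 : ℕ) : ℤ) - r := by
    refine ⟨((((i0 : ℕ) - 1) / n : ℕ) : ℤ), ?_⟩
    have e := Nat.mod_add_div ((i0 : ℕ) - 1) n
    have e' : (i0 : ℕ) = r + n * (((i0 : ℕ) - 1) / n) := by omega
    have e'' : ((i0 : ℕ) : ℤ) = (r : ℤ) + (n : ℤ) * ((((i0 : ℕ) - 1) / n : ℕ) : ℤ) := by
      exact_mod_cast e'
    linear_combination e''
  have hmem : ∀ i : Seg k, (n : ℤ) ∣ ((i : ℕ) : ℤ) - r → n ∣ (σ i : ℕ) := by
    intro i hi
    refine h (mkS n h1 h2) i0 i ?_ ?_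
    · rw [mkS_val, hσ]
    · rw [mkS_val]
      have := dvd_sub hdiv hi
      have e : ((i0 : ℕ) : ℤ) - r - (((i : ℕ) : ℤ) - r) = ((i0 : ℕ) : ℤ) - ((i : ℕ) : ℤ) := by ring
      rwa [e] at this
  have hkn : k % n + n * (k / n) = k := Nat.mod_add_div k n
  set P : Finset (Seg k) := Finset.univ.filter (fun i => n ∣ (σ i : ℕ)) with hP
  set Cc : Finset (Seg k) := Finset.univ.filter (fun i => (n : ℤ) ∣ ((i : ℕ) : ℤ) - r) with hCc
  have hsub : Cc ⊆ P := by
    intro i hi
    rw [hCc, Finset.mem_filter] at hi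
    rw [hP, Finset.mem_filter]
    exact ⟨Finset.mem_univ _, hmem i hi.2⟩
  have hPc : P.card ≤ k / n := by
    have : P.card ≤ (Finset.Icc 1 (k / n)).card := by
      refine Finset.card_le_card_of_injOn (fun i => (σ i : ℕ) / n) ?_ ?_
      · intro i hi
        rw [Finset.mem_coe, hP, Finset.mem_filter] at hi
        obtain ⟨c, hc⟩ := hi.2
        have hp := (σ i).pos
        have hl := (σ i).le
        rw [Finset.mem_coe, Finset.mem_Icc]
        show 1 ≤ (σ i : ℕ) / n ∧ (σ i : ℕ) / n ≤ k / n
        constructor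
        · rw [Nat.one_le_div_iff (by omega)]
          exact Nat.le_of_dvd (by omega) hi.2
        · exact Nat.div_le_div_right hl
      · intro i hi j hj hij
        rw [Finset.mem_coe, hP, Finset.mem_filter] at hi hj
        have hij' : (σ i : ℕ) / n = (σ j : ℕ) / n := hij
        have e : (σ i : ℕ) = (σ j : ℕ) := by
          rw [← Nat.div_mul_cancel hi.2, ← Nat.div_mul_cancel hj.2, hij']
        exact σ.injective (Subtype.ext e)
    simpa using this
  have hcnt : ∀ m : ℕ, (∀ t < m, r + t * n ≤ k) → m ≤ Cc.card := by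
    intro m hm
    have hinj : Function.Injective (fun t : ℕ => r + t * n) := by
      intro a b hab
      have hab' : r + a * n = r + b * n := hab
      have : a * n = b * n := by omega
      exact Nat.eq_of_mul_eq_mul_right (by omega) this
    have c1 : ((Finset.range m).image (fun t : ℕ => r + t * n)).card = m := by
      rw [Finset.card_image_of_injective _ hinj, Finset.card_range]
    have c2 : (Finset.range m).image (fun t : ℕ => r + t * n) ⊆ Cc.image Subtype.val := by
      intro x hx
      rw [Finset.mem_image] at hx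
      obtain ⟨t, ht, rfl⟩ := hx
      rw [Finset.mem_range] at ht
      rw [Finset.mem_image]
      refine ⟨mkS (r + t * n) (by omega) (hm t ht), ?_, rfl⟩
      rw [hCc, Finset.mem_filter]
      refine ⟨Finset.mem_univ _, ⟨(t : ℤ), ?_⟩⟩
      rw [mkS_val]
      push_cast
      ring
    calc m = ((Finset.range m).image (fun t : ℕ => r + t * n)).card := c1.symm
      _ ≤ (Cc.image Subtype.val).card := Finset.card_le_card c2
      _ ≤ Cc.card := Finset.card_image_le
  have hle : k / n ≤ Cc.card := by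
    refine hcnt (k / n) fun t ht => ?_
    have : (t + 1) * n ≤ (k / n) * n := Nat.mul_le_mul_right n ht
    have e : (t + 1) * n = t * n + n := by ring
    have e2 : (k / n) * n = n * (k / n) := by ring
    omega
  have hEq : Cc = P := Finset.eq_of_subset_of_card_le hsub (by omega)
  refine ⟨r, hr1, hrn, ?_, ?_⟩
  · by_contra hlt
    push Not at hlt
    have : k / n + 1 ≤ Cc.card := by
      refine hcnt (k / n + 1) fun t ht => ?_
      have : t * n ≤ (k / n) * n := Nat.mul_le_mul_right n (by omega)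
      have e2 : (k / n) * n = n * (k / n) := by ring
      omega
    rw [hEq] at this
    omega
  · intro i
    constructor
    · intro hi
      have : i ∈ P := by
        rw [hP, Finset.mem_filter]
        exact ⟨Finset.mem_univ _, hi⟩
      rw [← hEq, hCc, Finset.mem_filter] at this
      exact this.2
    · exact hmem i

end WCS9
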