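import Pool.Agent.Lib.MP_9abbac_co.S01

namespace WCS9
open Equiv

/-- Row S02. One integer `x` describes all classes (Chinese remainder theorem).
Proof: for each prime `p ≤ k` let `E = Nat.log p k` and `r_p` the residue from `class_exists` for `n = p^E ≤ k`.
Choose `x` with `p^E ∣ x + r_p` for all primes `p ≤ k` (CRT for the pairwise coprime moduli `p^E`:
`Nat.chineseRemainderOfFinset`, or an induction over a finset of primes, or `ZMod`/ideals).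
For a prime power `p^e ≤ k` (so `e ≤ E`): there is a position `i0` with `p^E ∣ σ i0` (`i0 = σ⁻¹ (p^E)`), hence `p^e ∣ σ i0`,
so the class of `p^e` is that of `i0`, i.e. of `r_p`: `p^e ∣ σ i ↔ p^e ∣ i - i0 ↔ p^e ∣ x + i`.
For admissible `n`: `n ∣ z ↔ ∀ p e, p.Prime → p^e ∣ n → p^e ∣ z` (`dvd_of_ppow`, `Nat.dvd_iff_prime_pow_dvd_dvd`),
and all these `p^e` are `≤ k` by `Adm`. -/
theorem exists_x {k : ℕ} {σ : Perm (Seg k)} (h : IsWCS k σ) :
    ∃ x : ℤ, ∀ n : ℕ, Adm k n → ∀ i : Seg k, n ∣ (σ i : ℕ) ↔ (n : ℤ) ∣ x + ((i : ℕ) : ℤ) := by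
  classical
  set t : Finset ℕ := (Finset.range (k + 1)).filter Nat.Prime with ht
  have hmem : ∀ p, p ∈ t ↔ p ≤ k ∧ p.Prime := by
    intro p
    rw [ht, Finset.mem_filter, Finset.mem_range, Nat.lt_succ_iff]
  set s : ℕ → ℕ := fun p => p ^ Nat.log p k with hs
  have hs1 : ∀ p ∈ t, 1 ≤ s p := fun p hp => Nat.one_le_pow _ _ ((hmem p).1 hp).2.pos
  have hsk : ∀ p ∈ t, s p ≤ k := fun p hp => by
    have := (hmem p).1 hp
    exact Nat.pow_log_le_self p (by have := this.2.pos; omega)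
  have hcl : ∀ p, ∃ r : ℕ, p ∈ t → ∀ i : Seg k, s p ∣ (σ i : ℕ) ↔ (s p : ℤ) ∣ ((i : ℕ) : ℤ) - r := by
    intro p
    by_cases hp : p ∈ t
    · obtain ⟨r, -, -, -, hr⟩ := class_exists h (hs1 p hp) (hsk p hp)
      exact ⟨r, fun _ => hr⟩
    · exact ⟨0, fun hp' => absurd hp' hp⟩
  choose r hr using hcl
  obtain ⟨y, hy⟩ := Nat.chineseRemainderOfFinset r s t
    (fun p hp => by have := hs1 p hp; omega)
    (by
      intro p hp q hq hpq
      have h1 := ((hmem p).1 hp).2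
      have h2 := ((hmem q).1 hq).2
      exact Nat.Coprime.pow _ _ ((Nat.coprime_primes h1 h2).2 hpq))
  refine ⟨-(y : ℤ), ?_⟩
  have hyr : ∀ p ∈ t, (s p : ℤ) ∣ -(y : ℤ) + r p := by
    intro p hp
    have h1 := (Nat.modEq_iff_dvd.1 (hy p hp))
    have e : -(y : ℤ) + r p = (r p : ℤ) - y := by ring
    rw [e]
    exact h1
  have hpp : ∀ p e : ℕ, p.Prime → p ^ e ≤ k → ∀ i : Seg k,
      p ^ e ∣ (σ i : ℕ) ↔ ((p ^ e : ℕ) : ℤ) ∣ -(y : ℤ) + ((i : ℕ) : ℤ) := by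
    intro p e hp hpe i
    rcases Nat.eq_zero_or_pos e with rfl | he
    · simp
    have hpt : p ∈ t := (hmem p).2 ⟨(Nat.le_self_pow he.ne' p).trans hpe, hp⟩
    have hk0 : k ≠ 0 := by
      have := Nat.one_le_pow e p hp.pos
      omega
    have heE : e ≤ Nat.log p k := (Nat.le_log_iff_pow_le hp.one_lt hk0).2 hpe
    have hdv : p ^ e ∣ s p := pow_dvd_pow p heE
    have hdvz : ((p ^ e : ℕ) : ℤ) ∣ (s p : ℤ) := Int.natCast_dvd_natCast.2 hdv
    obtain ⟨r', -, -, -, hr'⟩ := class_exists h (Nat.one_le_pow e p hp.pos) hpe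
    obtain ⟨i0, hi0⟩ : ∃ i0 : Seg k, (σ i0 : ℕ) = s p :=
      ⟨σ.symm (mkS (s p) (hs1 p hpt) (hsk p hpt)), by rw [Equiv.apply_symm_apply]; rfl⟩
    have a1 : ((p ^ e : ℕ) : ℤ) ∣ ((i0 : ℕ) : ℤ) - r p :=
      hdvz.trans ((hr p hpt i0).1 (by rw [hi0]))
    have a2 : ((p ^ e : ℕ) : ℤ) ∣ ((i0 : ℕ) : ℤ) - r' :=
      (hr' i0).1 (by rw [hi0]; exact hdv)
    have a3 : ((p ^ e : ℕ) : ℤ) ∣ -(y : ℤ) + r p := hdvz.trans (hyr p hpt)
    have a4 : ((p ^ e : ℕ) : ℤ) ∣ -(y : ℤ) + r' := by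
      have := dvd_add a3 (dvd_sub a1 a2)
      have e1 : -(y : ℤ) + r p + (((i0 : ℕ) : ℤ) - r p - (((i0 : ℕ) : ℤ) - r')) = -(y : ℤ) + r' := by
        ring
      rwa [e1] at this
    rw [hr' i]
    constructor
    · intro h1
      have := dvd_add h1 a4
      have e1 : ((i : ℕ) : ℤ) - r' + (-(y : ℤ) + r') = -(y : ℤ) + ((i : ℕ) : ℤ) := by ring
      rwa [e1] at this
    · intro h1
      have := dvd_sub h1 a4
      have e1 : -(y : ℤ) + ((i : ℕ) : ℤ) - (-(y : ℤ) + r') = ((i : ℕ) : ℤ) - r' := by ring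
      rwa [e1] at this
  intro n hn i
  constructor
  · intro h1
    exact dvd_of_ppow fun p e hp hd => (hpp p e hp (hn.2 p e hp hd) i).1 (hd.trans h1)
  · intro h1
    rw [Nat.dvd_iff_prime_pow_dvd_dvd]
    intro p e hp hd
    exact (hpp p e hp (hn.2 p e hp hd) i).2 ((Int.natCast_dvd_natCast.2 hd).trans h1)

end WCS9
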