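import Pool.Agent.Lib.MP_9abbac_co.Core

namespace WCS9
open Equiv

/-- Row S03. -/
theorem good_of {k : ℕ} {σ : Perm (Seg k)} {x : ℤ}
    (hx : ∀ n : ℕ, Adm k n → ∀ i : Seg k, n ∣ (σ i : ℕ) ↔ (n : ℤ) ∣ x + ((i : ℕ) : ℤ)) :
    Good k x := by
  intro n hn
  by_contra hlt
  push Not at hlt
  have hpos : 0 < n := hn.pos
  have hposz : (0 : ℤ) < n := by exact_mod_cast hpos
  obtain ⟨i0, hi1, hi2, hi3⟩ : ∃ i0 : ℕ, 1 ≤ i0 ∧ i0 ≤ k % n ∧ (n : ℤ) ∣ x + i0 := by
    have h1 := Int.emod_lt_of_pos x hposz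
    have h2 := Int.emod_nonneg x hposz.ne'
    refine ⟨(n - x % n).toNat, ?_, ?_, ?_⟩
    · omega
    · have : ((k % n : ℕ) : ℤ) = (k : ℤ) % n := by push_cast; rfl
      omega
    · rw [Int.toNat_of_nonneg (by linarith)]
      refine ⟨x / n + 1, ?_⟩
      have := Int.emod_add_mul_ediv x n
      linear_combination (-1 : ℤ) * this
  have hk : k = n * (k / n) + k % n := (Nat.div_add_mod k n).symm
  have hrange : ∀ t : ℕ, t ≤ k / n → i0 + t * n ≤ k := by
    intro t ht
    have : t * n ≤ k / n * n := Nat.mul_le_mul_right _ ht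
    have h2 : n * (k / n) = k / n * n := mul_comm _ _
    omega
  let f : ℕ → ℕ := fun t => if ht : i0 + t * n ≤ k then
    (σ (mkS (i0 + t * n) (by omega) ht) : ℕ) / n else 0
  have hmaps : ∀ t ∈ Finset.range (k / n + 1), f t ∈ Finset.Icc 1 (k / n) := by
    intro t ht
    have ht' : t ≤ k / n := by rw [Finset.mem_range] at ht; omega
    have hle := hrange t ht'
    have hfd : f t = (σ (mkS (i0 + t * n) (by omega) hle) : ℕ) / n := dif_pos hle
    have hd : n ∣ (σ (mkS (i0 + t * n) (by omega) hle) : ℕ) := by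
      rw [hx n hn, mkS_val]
      push_cast
      have e : x + ((i0 : ℤ) + t * n) = (x + i0) + n * t := by ring
      rw [e]
      exact dvd_add hi3 (dvd_mul_right _ _)
    obtain ⟨c, hc⟩ := hd
    have h1 := (σ (mkS (i0 + t * n) (by omega) hle)).pos
    have h2 := (σ (mkS (i0 + t * n) (by omega) hle)).le
    rw [Finset.mem_Icc, hfd, hc, Nat.mul_div_cancel_left _ hpos]
    rw [hc] at h1 h2
    constructor
    · rcases Nat.eq_zero_or_pos c with h0 | h0
      · rw [h0] at h1; omega
      · exact h0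
    · exact (Nat.le_div_iff_mul_le hpos).2 (by rw [mul_comm]; exact h2)
  obtain ⟨s, hs, t, ht, hne, heq⟩ := Finset.exists_ne_map_eq_of_card_lt_of_maps_to
    (by simp) hmaps
  have hs' : s ≤ k / n := by rw [Finset.mem_range] at hs; omega
  have ht' : t ≤ k / n := by rw [Finset.mem_range] at ht; omega
  have hles := hrange s hs'
  have hlet := hrange t ht'
  have hfs : f s = (σ (mkS (i0 + s * n) (by omega) hles) : ℕ) / n := dif_pos hles
  have hft : f t = (σ (mkS (i0 + t * n) (by omega) hlet) : ℕ) / n := dif_pos hlet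
  have hds : n ∣ (σ (mkS (i0 + s * n) (by omega) hles) : ℕ) := by
    rw [hx n hn, mkS_val]
    push_cast
    have e : x + ((i0 : ℤ) + s * n) = (x + i0) + n * s := by ring
    rw [e]
    exact dvd_add hi3 (dvd_mul_right _ _)
  have hdt : n ∣ (σ (mkS (i0 + t * n) (by omega) hlet) : ℕ) := by
    rw [hx n hn, mkS_val]
    push_cast
    have e : x + ((i0 : ℤ) + t * n) = (x + i0) + n * t := by ring
    rw [e]
    exact dvd_add hi3 (dvd_mul_right _ _)
  rw [hfs, hft] at heq
  have heq' : (σ (mkS (i0 + s * n) (by omega) hles) : ℕ) =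
      (σ (mkS (i0 + t * n) (by omega) hlet) : ℕ) := by
    rw [← Nat.div_mul_cancel hds, ← Nat.div_mul_cancel hdt, heq]
  have h5 := σ.injective (Subtype.ext heq')
  have h6 : i0 + s * n = i0 + t * n := congrArg (fun z : Seg k => (z : ℕ)) h5
  have h7 : s * n = t * n := by omega
  exact hne (Nat.eq_of_mul_eq_mul_right hpos h7)

end WCS9
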