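import Pool.Agent.Lib.MP_9abbac_co.S01

namespace WCS9
open Equiv

/-- for `m ≠ w = p^c` nothing changes under the exchange of the values `p^(c-1)` and `p^c` -/
theorem R2_dvd {k : ℕ} {σ τ : Perm (Seg k)} {p c : ℕ} {v w : Seg k} (hp : p.Prime) (hc : 1 ≤ c)
    (hv : (v : ℕ) = p ^ (c - 1)) (hw : (w : ℕ) = p ^ c) (hτ : τ = swap v w * σ) {m : ℕ}
    (h1 : m ≠ p ^ c) (i : Seg k) : m ∣ (τ i : ℕ) ↔ m ∣ (σ i : ℕ) := by
  obtain ⟨d, rfl⟩ : ∃ d, c = d + 1 := ⟨c - 1, by omega⟩
  rw [Nat.add_sub_cancel] at hv
  have key : m ∣ p ^ d ↔ m ∣ p ^ (d + 1) := by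
    constructor
    · intro h; exact h.trans (pow_dvd_pow p (by omega))
    · intro h
      obtain ⟨j, hj, rfl⟩ := (Nat.dvd_prime_pow hp).1 h
      have : j ≠ d + 1 := fun h => h1 (by rw [h])
      exact pow_dvd_pow p (by omega)
  subst hτ
  rw [Perm.mul_apply]
  by_cases h2 : σ i = v
  · rw [h2, swap_apply_left, hv, hw, key]
  · by_cases h3 : σ i = w
    · rw [h3, swap_apply_right, hv, hw, key]
    · rw [swap_apply_of_ne_of_ne h2 h3]

/-- Row S04.  Rule R2 preserves weakly consecutive sequences. -/
theorem R2_pres {k : ℕ} {σ τ : Perm (Seg k)} (h : IsWCS k σ) (hr : R2 k σ τ) : IsWCS k τ := by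
  obtain ⟨p, c, v, w, hp, hc, hle, hlt, hv, hw, hτ⟩ := hr
  intro m i j hd hij
  by_cases hm : (m : ℕ) = p ^ c
  · -- the multiples of `w`
    rw [hm] at hd hij ⊢
    set W := p ^ c with hW
    set V := p ^ (c - 1) with hV
    have hVpos : 0 < V := pow_pos hp.pos _
    have hWV : W = V * p := by
      rw [hW, hV, ← pow_succ, Nat.sub_add_cancel hc]
    have hVW : V < W := by
      rw [hWV]
      have := Nat.mul_lt_mul_of_pos_left hp.one_lt hVpos
      omega
    have hτi : (τ i : ℕ) = W := by
      obtain ⟨d, hd'⟩ := hd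
      have h3 := (τ i).pos
      have h4 := (τ i).le
      have : d = 1 := by
        have hc0 : d ≠ 0 := by rintro rfl; omega
        by_contra hne
        have : W * 2 ≤ W * d := Nat.mul_le_mul_left _ (by omega)
        omega
      rw [hd', this, mul_one]
    have hσi : (σ i : ℕ) = V := by
      have h5 : swap v w (σ i) = w := by
        rw [hτ, Perm.mul_apply] at hτi
        exact Subtype.ext (by rw [hτi, hw])
      have h6 : σ i = v := by
        have := congrArg (swap v w) h5
        rwa [swap_apply_self, swap_apply_right] at this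
      rw [h6, hv]
    obtain ⟨r, hr1, hr2, hr3, hr4⟩ := class_exists h (n := V) hVpos (by omega)
    obtain ⟨t, ht⟩ := (hr4 i).1 (by rw [hσi])
    have hi1 := i.pos
    have hi2 := i.le
    have hj1 := j.pos
    have hj2 := j.le
    have hkV : k % V = k - W := by
      have : k = (k - W) + V * p := by omega
      rw [this, Nat.add_mul_mod_self_left, Nat.mod_eq_of_lt (by omega)]
      omega
    have hVz : (0 : ℤ) < V := by exact_mod_cast hVpos
    have ht0 : 0 ≤ t := by
      by_contra hneg
      push Not at hneg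
      have : (V : ℤ) * t ≤ V * (-1) := mul_le_mul_of_nonneg_left (by omega) hVz.le
      omega
    have hVt : (0 : ℤ) ≤ V * t := mul_nonneg hVz.le ht0
    have htp : t < p := by
      by_contra hbig
      push Not at hbig
      have : (V : ℤ) * p ≤ V * t := mul_le_mul_of_nonneg_left hbig hVz.le
      have h7 : (W : ℤ) = V * p := by exact_mod_cast hWV
      omega
    have h8 : (V : ℤ) * t ≤ V * (p - 1) := mul_le_mul_of_nonneg_left (by omega) hVz.le
    have h9 : (V : ℤ) * (p - 1) = W - V := by
      have h7 : (W : ℤ) = V * p := by exact_mod_cast hWV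
      rw [h7]; ring
    have hiW : (i : ℕ) ≤ W := by omega
    have hik : k < (i : ℕ) + W := by omega
    obtain ⟨s, hs⟩ := hij
    have hWz : (0 : ℤ) < W := by omega
    have hs0 : s = 0 := by
      have c1 : s < 1 := by
        by_contra hge
        push Not at hge
        have : (W : ℤ) * 1 ≤ W * s := mul_le_mul_of_nonneg_left hge hWz.le
        omega
      have c2 : -1 < s := by
        by_contra hge
        push Not at hge
        have : (W : ℤ) * s ≤ W * (-1) := mul_le_mul_of_nonneg_left (by omega) hWz.le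
        omega
      omega
    rw [hs0] at hs
    have : j = i := Subtype.ext (by omega)
    rw [this, hτi]
  · rw [R2_dvd hp hc hv hw hτ hm] at hd ⊢
    exact h m i j hd hij

end WCS9
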