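import Pool.Agent.Lib.MP_9abbac_co.S02
import Pool.Agent.Lib.MP_9abbac_co.S03
import Pool.Agent.Lib.MP_9abbac_co.S05
import Pool.Agent.Lib.MP_9abbac_co.XMain

namespace WCS9
open Equiv

/-- Row S06a: if all `n ≤ k` are well placed then `σ` is weakly consecutive (immediate). -/
theorem wcs_of_wp {k X : ℕ} {σ : Perm (Seg k)} (h : ∀ n, 1 ≤ n → n ≤ k → WP k σ n X) :
    IsWCS k σ := by
  intro m i j hd hij
  have hm := h m m.pos m.le
  rw [hm i] at hd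
  rw [hm j]
  have h1 : ((m : ℕ) : ℤ) ∣ (((i : ℕ) + X : ℕ) : ℤ) := by exact_mod_cast hd
  have h2 := dvd_sub h1 hij
  have e : (((i : ℕ) + X : ℕ) : ℤ) - (((i : ℕ) : ℤ) - ((j : ℕ) : ℤ)) =
      (((j : ℕ) + X : ℕ) : ℤ) := by push_cast; ring
  rw [e] at h2
  exact_mod_cast h2

/-- if `n ∣ x - X` then the class of `n` is described by `X` -/
theorem wp_of_dvd {k X n : ℕ} {σ : Perm (Seg k)} {x : ℤ}
    (hx : ∀ i : Seg k, n ∣ (σ i : ℕ) ↔ (n : ℤ) ∣ x + ((i : ℕ) : ℤ))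
    (hd : (n : ℤ) ∣ x - X) : WP k σ n X := by
  intro i
  rw [hx i]
  have e : x + ((i : ℕ) : ℤ) = (x - X) + (((i : ℕ) + X : ℕ) : ℤ) := by push_cast; ring
  rw [e, dvd_add_right hd]
  exact Int.natCast_dvd_natCast

/-- Row S06b: the integer `x` of a sequence of type `X`. -/
theorem Plus.exists_x {k X : ℕ} {σ : Perm (Seg k)} (h : Plus k σ X) :
    ∃ x : ℤ, Good k x ∧
      (∀ n : ℕ, Adm k n → ∀ i : Seg k, n ∣ (σ i : ℕ) ↔ (n : ℤ) ∣ x + ((i : ℕ) : ℤ)) ∧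
      (∀ n : ℕ, 1 ≤ n → n ≤ k → (WP k σ n X ↔ (n : ℤ) ∣ x - X)) := by
  obtain ⟨x, hx⟩ := WCS9.exists_x h.wcs
  refine ⟨x, good_of hx, hx, fun n h1 h2 => ⟨fun hw => ?_, fun hd => ?_⟩⟩
  · have hi : ((σ (σ.symm (mkS n h1 h2)) : Seg k) : ℕ) = n := by
      rw [Equiv.apply_symm_apply]; rfl
    have h3 : n ∣ (σ (σ.symm (mkS n h1 h2)) : ℕ) := by rw [hi]
    have h4 := (hx n (adm_of_le h1 h2) _).1 h3
    have h5 := (hw _).1 h3
    have h6 : (n : ℤ) ∣ ((((σ.symm (mkS n h1 h2) : Seg k) : ℕ) + X : ℕ) : ℤ) := by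
      exact_mod_cast h5
    have h7 := dvd_sub h4 h6
    have e : x + (((σ.symm (mkS n h1 h2) : Seg k) : ℕ) : ℤ) -
        ((((σ.symm (mkS n h1 h2) : Seg k) : ℕ) + X : ℕ) : ℤ) = x - X := by push_cast; ring
    rwa [e] at h7
  · exact wp_of_dvd (hx n (adm_of_le h1 h2)) hd

theorem plus_of_cls {k X : ℕ} {σ : Perm (Seg k)} (h : IsWCS k σ) {x : ℤ}
    (hx : ∀ n : ℕ, Adm k n → ∀ i : Seg k, n ∣ (σ i : ℕ) ↔ (n : ℤ) ∣ x + ((i : ℕ) : ℤ))
    (hc : Cls k x X) : Plus k σ X :=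
  ⟨h, hc.le2, fun n h1 h2 => wp_of_dvd (hx n (adm_of_le h1 (by omega))) (hc.low n h1 h2),
    hc.one, hc.two⟩

/-- Row S06c: every weakly consecutive sequence has a type, up to reversal. -/
theorem exists_plus {k : ℕ} (hk : 16 ≤ k) {σ : Perm (Seg k)} (h : IsWCS k σ) :
    ∃ X : ℕ, Plus k σ X ∨ Plus k (σ * rv k) X := by
  obtain ⟨x, hx⟩ := WCS9.exists_x h
  obtain ⟨X, hX⟩ := class_main hk (good_of hx)
  refine ⟨X, ?_⟩
  rcases hX with hX | hX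
  · exact Or.inl (plus_of_cls h hx hX)
  · refine Or.inr (plus_of_cls (rv_pres h) ?_ hX)
    intro n hn i
    rw [Perm.mul_apply, hx n hn]
    have hle := i.le
    have e : -((k : ℤ) + 1) - x + ((i : ℕ) : ℤ) = -(x + (((rv k i : Seg k) : ℕ) : ℤ)) := by
      rw [rv_val]; omega
    rw [e, dvd_neg]

end WCS9
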