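import Pool.Agent.Lib.MP_9abbac_co.Basic

namespace WCS9

/-- the first multiple of `n` in the window, natural number version -/
theorem exists_posN {n : ℕ} (hn : 0 < n) (x : ℤ) :
    ∃ i : ℕ, 1 ≤ i ∧ i ≤ n ∧ (n : ℤ) ∣ x + (i : ℤ) := by
  obtain ⟨i, h1, h2, h3⟩ := exists_pos hn x
  lift i to ℕ using by linarith
  exact ⟨i, by exact_mod_cast h1, by exact_mod_cast h2, h3⟩

/-- a well placed `n` coprime to `r` dividing `i + X`, where `r ∣ x + i` -/
theorem Good.key {k : ℕ} {x : ℤ} {X : ℕ} (h : Good k x) {n r : ℕ} (hn : Adm k n) (hr : Adm k r)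
    (hc : Nat.Coprime n r) {i : ℕ} (hi1 : 1 ≤ i) (hi2 : i ≤ k) (h1 : (r : ℤ) ∣ x + i)
    (h2 : (n : ℤ) ∣ x - X) (h3 : n ∣ i + X) : n * r ≤ k := by
  have h4 : (n : ℤ) ∣ x + i := by
    have h5 : (n : ℤ) ∣ ((i + X : ℕ) : ℤ) := by exact_mod_cast h3
    have := dvd_add h2 h5
    push_cast at this
    have e : x - X + (i + X) = x + (i : ℤ) := by ring
    rwa [e] at this
  exact h.mul_le hn hr hc (by exact_mod_cast hi1) (by exact_mod_cast hi2) h4 h1

/-- for a position `i` with `r ∣ x + i` and `r ∣ i + X` we get `r ∣ x - X` -/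
theorem wp_of_pos {x : ℤ} {X r i : ℕ} (h1 : (r : ℤ) ∣ x + i) (h2 : r ∣ i + X) :
    (r : ℤ) ∣ x - X := by
  have h5 : (r : ℤ) ∣ ((i + X : ℕ) : ℤ) := by exact_mod_cast h2
  have := dvd_sub h1 h5
  push_cast at this
  have e : x + (i : ℤ) - (i + X) = x - X := by ring
  rwa [e] at this

/-- a prime `q ≤ k/3` with all smaller numbers well placed is well placed -/
theorem prime_low {k : ℕ} {x : ℤ} {X q : ℕ} (hg : Good k x) (hX : X ≤ 2) (hq : q.Prime)
    (h13 : 13 ≤ q) (h3 : 3 * q ≤ k) (h5 : k < 5 * q)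
    (hall : ∀ n : ℕ, 1 ≤ n → n < q → (n : ℤ) ∣ x - X) : (q : ℤ) ∣ x - X := by
  by_contra hnd
  obtain ⟨i0, hi1, hi2, hi3⟩ := exists_posN hq.pos x
  have K : ∀ t n : ℕ, i0 + t * q ≤ k → 1 ≤ n → n < q → n ∣ i0 + t * q + X → n ≤ 4 := by
    intro t n ht hn1 hnq hd
    have hqd : (q : ℤ) ∣ x + ((i0 + t * q : ℕ) : ℤ) := by
      push_cast
      have e : x + ((i0 : ℤ) + t * q) = (x + i0) + q * t := by ring
      rw [e]
      exact dvd_add hi3 (dvd_mul_right _ _)
    have hc : Nat.Coprime n q := (Nat.coprime_of_lt_prime (by omega) hnq hq).symm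
    have := hg.key (adm_of_le hn1 (by omega)) (adm_of_le hq.one_le (by omega)) hc
      (by omega) ht hqd (hall n hn1 hnq) hd
    by_contra h6
    have : 5 * q ≤ n * q := Nat.mul_le_mul_right _ (by omega)
    omega
  have hodd : q % 2 = 1 := by
    rcases hq.eq_two_or_odd with h | h <;> omega
  obtain ⟨c, hc⟩ : ∃ c, q = 2 * c + 1 := ⟨q / 2, by omega⟩
  have hnq : i0 + X ≠ q := by
    intro he
    exact hnd (wp_of_pos hi3 (by rw [he]))
  rcases lt_or_ge (i0 + X) q with hlt | hge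
  · have h4 := K 0 (i0 + X) (by omega) (by omega) hlt (by simp)
    have hcases : i0 + X = 1 ∨ i0 + X = 2 ∨ i0 + X = 3 ∨ i0 + X = 4 := by omega
    rcases hcases with h | h | h | h
    · have := K 1 (c + 1) (by omega) (by omega) (by omega) ⟨2, by omega⟩
      omega
    · have := K 2 (c + 1) (by omega) (by omega) (by omega) ⟨4, by omega⟩
      omega
    · have := K 1 (c + 2) (by omega) (by omega) (by omega) ⟨2, by omega⟩
      omega
    · have h3' : ¬ 3 ∣ q := by
        intro h3d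
        have := (Nat.prime_dvd_prime_iff_eq Nat.prime_three hq).1 h3d
        omega
      have : q % 3 = 1 ∨ q % 3 = 2 := by omega
      rcases this with h6 | h6
      · obtain ⟨d, hd⟩ : ∃ d, q + 2 = 3 * d := ⟨(q + 2) / 3, by omega⟩
        have := K 2 d (by omega) (by omega) (by omega) ⟨6, by omega⟩
        omega
      · obtain ⟨d, hd⟩ : ∃ d, q + 4 = 3 * d := ⟨(q + 4) / 3, by omega⟩
        have := K 1 d (by omega) (by omega) (by omega) ⟨3, by omega⟩
        omega
  · have : i0 + X = q + 1 ∨ i0 + X = q + 2 := by omega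
    rcases this with h | h
    · have := K 0 (c + 1) (by omega) (by omega) (by omega) ⟨2, by omega⟩
      omega
    · have := K 1 (c + 1) (by omega) (by omega) (by omega) ⟨4, by omega⟩
      omega

/-- a proper prime power `≤ k/2` with all smaller numbers well placed is well placed -/
theorem pp_low {k : ℕ} {x : ℤ} {X l e : ℕ} (hg : Good k x) (hX : X ≤ 2) (hl : l.Prime)
    (he : 2 ≤ e) (h8 : 8 ≤ l ^ e) (h2 : 2 * l ^ e ≤ k) (hcl : k / l ^ e * l ≤ l ^ e)
    (hall : ∀ n : ℕ, 1 ≤ n → n < l ^ e → (n : ℤ) ∣ x - X) : ((l ^ e : ℕ) : ℤ) ∣ x - X := by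
  by_contra hnd
  obtain ⟨e', rfl⟩ : ∃ e', e = e' + 1 := ⟨e - 1, by omega⟩
  set q := l ^ (e' + 1) with hq
  set v := l ^ e' with hv
  have hqv : q = v * l := by rw [hq, hv, pow_succ]
  have hvpos : 0 < v := pow_pos hl.pos _
  have hl2 := hl.two_le
  have hvq : v < q := by rw [hqv]; nlinarith
  have hv3 : 3 ≤ v := by
    have he1 : 1 ≤ e' := by omega
    rcases Nat.lt_or_ge l 3 with h | h
    · have hl' : l = 2 := by omega
      rw [hl'] at hqv
      omega
    · calc 3 ≤ l := h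
        _ = l ^ 1 := (pow_one l).symm
        _ ≤ l ^ e' := Nat.pow_le_pow_right hl.pos he1
  obtain ⟨i0, hi1, hi2, hi3⟩ := exists_posN (n := q) (by omega) x
  obtain ⟨c, hc⟩ : ∃ c, c = k / q := ⟨_, rfl⟩
  rw [← hc] at hcl
  have hc1 : c * q ≤ k := by rw [hc]; exact Nat.div_mul_le_self k q
  have hc2 : 2 ≤ c := by rw [hc]; exact (Nat.le_div_iff_mul_le (by omega)).2 h2
  obtain ⟨d, rfl⟩ : ∃ d, c = d + 1 := ⟨c - 1, by omega⟩
  have hik : i0 + d * q ≤ k := by nlinarith
  have hqd : (q : ℤ) ∣ x + ((i0 + d * q : ℕ) : ℤ) := by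
    push_cast
    have e : x + ((i0 : ℤ) + d * q) = (x + i0) + q * d := by ring
    rw [e]
    exact dvd_add hi3 (dvd_mul_right _ _)
  have hvw : (v : ℤ) ∣ x - X := hall v hvpos hvq
  have hvd : v ∣ i0 + d * q + X := by
    have h1 : (v : ℤ) ∣ x + ((i0 + d * q : ℕ) : ℤ) :=
      (Int.natCast_dvd_natCast.2 (by rw [hqv]; exact dvd_mul_right _ _)).trans hqd
    have h2 := dvd_sub h1 hvw
    have e : x + ((i0 + d * q : ℕ) : ℤ) - (x - X) = ((i0 + d * q + X : ℕ) : ℤ) := by
      push_cast; ring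
    rw [e] at h2
    exact_mod_cast h2
  obtain ⟨u, hu⟩ := hvd
  have hlu : ¬ l ∣ u := by
    rintro ⟨w, rfl⟩
    exact hnd (wp_of_pos hqd ⟨w, by rw [hu, hqv]; ring⟩)
  have hu1 : d * l < u := by
    have : v * (d * l) < v * u := by
      rw [← hu]
      have : v * (d * l) = d * q := by rw [hqv]; ring
      omega
    exact lt_of_mul_lt_mul_left this (by omega)
  have hu2 : u < q := by
    have h9 : v * u < v * ((d + 1) * l + 1) := by
      rw [← hu]
      have e1 : v * ((d + 1) * l + 1) = (d + 1) * q + v := by rw [hqv]; ring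
      rw [e1]
      have : (d + 1) * q = d * q + q := by ring
      omega
    have h10 : u < (d + 1) * l + 1 := lt_of_mul_lt_mul_left h9 (by omega)
    have h11 : u ≠ (d + 1) * l := by
      rintro rfl
      exact hlu (dvd_mul_left _ _)
    omega
  have hcop : Nat.Coprime u q := by
    rw [hq]
    exact Nat.Coprime.pow_right _ ((Nat.Prime.coprime_iff_not_dvd hl).2 hlu).symm
  have hm := hg.key (adm_of_le (by omega) (by omega)) (adm_of_le (by omega) (by omega)) hcop
    (by omega) hik hqd (hall u (by omega) hu2) ⟨v, by rw [hu]; ring⟩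
  have hm2 : u ≤ d + 1 := by
    rw [hc]
    exact (Nat.le_div_iff_mul_le (by omega)).2 hm
  nlinarith

/-- splitting off: if all prime powers `≤ n` dividing `n` are well placed -/
theorem wp_of_ppow {x : ℤ} {X n : ℕ} (hn : 1 ≤ n) (hall : ∀ m : ℕ, 1 ≤ m → m < n → (m : ℤ) ∣ x - X)
    (hpp : ∀ p e : ℕ, p.Prime → 1 ≤ e → n = p ^ e → (n : ℤ) ∣ x - X) : (n : ℤ) ∣ x - X := by
  by_cases h : ∃ p e : ℕ, p.Prime ∧ 1 ≤ e ∧ n = p ^ e
  · obtain ⟨p, e, hp, he, hne⟩ := h
    exact hpp p e hp he hne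
  · refine dvd_of_ppow fun p e hp hd => ?_
    rcases Nat.eq_zero_or_pos e with rfl | he
    · simp
    have hle := Nat.le_of_dvd (by omega) hd
    rcases hle.eq_or_lt with h1 | h1
    · exact absurd ⟨p, e, hp, he, h1.symm⟩ h
    · exact hall _ (Nat.one_le_iff_ne_zero.2 (pow_pos hp.pos e).ne') h1

end WCS9
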