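import Pool.Agent.Lib.MP_9abbac_co.X1

namespace WCS9

theorem low_step {k : ℕ} {x : ℤ} {X : ℕ} (hk : 48 ≤ k) (hg : Good k x) (hX : X ≤ 2)
    (hB : ∀ n : ℕ, 1 ≤ n → n < k / 4 → (n : ℤ) ∣ x - X)
    (hmid : ∀ q : ℕ, q.Prime → k < 3 * q → q < k / 2 → (q : ℤ) ∣ x - X) :
    ∀ n : ℕ, 1 ≤ n → n < k / 2 → (n : ℤ) ∣ x - X := by
  intro n
  induction n using Nat.strong_induction_on with
  | _ n ih =>
    intro h1 h2
    refine wp_of_ppow h1 (fun m hm1 hm2 => ih m hm2 hm1 (by omega)) ?_
    intro p e hp he hne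
    rcases lt_or_ge n (k / 4) with h4 | h4
    · exact hB n h1 h4
    rcases Nat.lt_or_ge e 2 with he1 | he2
    · have he' : e = 1 := by omega
      rw [he', pow_one] at hne
      subst hne
      rcases lt_or_ge k (3 * n) with h3 | h3
      · exact hmid n hp h3 h2
      · refine prime_low hg hX hp ?_ h3 (by omega) (fun m hm1 hm2 => ih m hm2 hm1 (by omega))
        have : n ≠ 12 := by rintro rfl; revert hp; norm_num
        omega
    · rw [hne]
      have hn12 : 12 ≤ p ^ e := by rw [← hne]; omega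
      refine pp_low hg hX hp he2 (by omega) (by omega) ?_
        (fun m hm1 hm2 => ih m (by omega) hm1 (by omega))
      have hc : k / p ^ e ≤ 4 := by
        rw [← hne]
        have : k / n < 5 := (Nat.div_lt_iff_lt_mul (by omega)).2 (by omega)
        omega
      have h4p : 4 * p ≤ p ^ e := by
        rcases Nat.lt_or_ge p 4 with h | h
        · omega
        · calc 4 * p ≤ p * p := Nat.mul_le_mul_right _ h
            _ = p ^ 2 := (sq p).symm
            _ ≤ p ^ e := Nat.pow_le_pow_right hp.pos he2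
      calc k / p ^ e * p ≤ 4 * p := Nat.mul_le_mul_right _ hc
        _ ≤ p ^ e := h4p

/-- the data obtained from the multiples of 2 and of 3 -/
structure Glue (k : ℕ) (y : ℤ) (A B X : ℕ) : Prop where
  hk : 48 ≤ k
  hg : Good k y
  h2 : Cls (k / 2) (y / 2) A
  h3 : Cls (k / 3) (y / 3) B
  e2 : (X : ℤ) = 2 * A + y % 2
  e3 : (X : ℤ) = 3 * B + y % 3

theorem Glue.low4 {k : ℕ} {y : ℤ} {A B X : ℕ} (h : Glue k y A B X) :
    ∀ n : ℕ, 1 ≤ n → n < k / 4 → (n : ℤ) ∣ y - X := by
  intro n h1 h2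
  have := h.h2.low n h1 (by omega)
  have e : y - X = 2 * (y / 2 - A) := by
    have := h.e2
    omega
  rw [e]
  exact this.mul_left 2

theorem Glue.mid {k : ℕ} {y : ℤ} {A B X : ℕ} (h : Glue k y A B X) (hX : X ≤ 2) :
    ∀ q : ℕ, q.Prime → k < 3 * q → q < k / 2 → (q : ℤ) ∣ y - X := by
  intro q hq h1 h2
  have e2 := h.e2
  have := h.h2.mid (by omega) q hq (by omega) h2
  have e : y - X = 2 * (y / 2 - A) := by omega
  rw [e]
  exact this.mul_left 2

/-- no carry, in the form needed for `n > k` -/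
theorem Good.lt_sub {k : ℕ} {x : ℤ} (h : Good k x) {n : ℕ} (hn : Adm k n) (hlt : k < n) :
    x % (n : ℤ) < n - k := by
  have h1 := h n hn
  rw [Int.emod_eq_of_lt (a := (k : ℤ)) (by positivity) (by exact_mod_cast hlt)] at h1
  linarith

theorem emod_emod_nat (x : ℤ) {m n : ℕ} (h : m ∣ n) : x % (n : ℤ) % (m : ℤ) = x % (m : ℤ) :=
  Int.emod_emod_of_dvd x (by exact_mod_cast h)

theorem Glue.ne3 {k : ℕ} {y : ℤ} {A B X : ℕ} (h : Glue k y A B X) : X ≠ 3 := by
  rintro rfl
  have e2 := h.e2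
  have e3 := h.e3
  have hk := h.hk
  have hB : B = 1 := by push_cast at e3; omega
  have hp := h.h3.one hB
  set p := k / 3 + 1 with hpd
  have hy3 : y % 3 = 0 := by push_cast at e3; omega
  have hcop : Nat.Coprime 3 p := by
    rw [Nat.coprime_primes Nat.prime_three hp]; omega
  have hadm : Adm k (3 * p) := adm_mul (adm_of_le (by omega) (by omega))
    (adm_of_le (by omega) (by omega)) hcop
  have h1 := h.hg.lt_sub hadm (by omega)
  have h2 := emod_emod_nat y (dvd_mul_right 3 p)
  have h0 := Int.emod_nonneg y (b := ((3 * p : ℕ) : ℤ)) (by positivity)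
  have hz : y % ((3 * p : ℕ) : ℤ) = 0 := by
    have h3' : y % ((3 * p : ℕ) : ℤ) % 3 = 0 := by rw [← hy3]; exact_mod_cast h2
    have : y % ((3 * p : ℕ) : ℤ) < 3 := by push_cast at h1 ⊢; omega
    omega
  have hpy : (p : ℤ) ∣ y := by
    have := Int.dvd_of_emod_eq_zero hz
    exact (Int.natCast_dvd_natCast.2 (dvd_mul_left p 3)).trans this
  have hodd : p % 2 = 1 := by
    rcases hp.eq_two_or_odd with h' | h' <;> omega
  obtain ⟨w, hw⟩ : ∃ w, p + 3 = 2 * w := ⟨(p + 3) / 2, by omega⟩
  have hcw : Nat.Coprime w p := (Nat.coprime_of_lt_prime (by omega) (by omega) hp).symm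
  have := h.hg.key (X := 3) (i := p) (adm_of_le (n := w) (by omega) (by omega))
    (adm_of_le (n := p) (by omega) (by omega)) hcw (by omega) (by omega)
    (dvd_add hpy (dvd_refl _)) (h.low4 w (by omega) (by omega)) ⟨2, by omega⟩
  have h3w : 3 * p ≤ w * p := Nat.mul_le_mul_right _ (by omega)
  omega

/-- the residue of `p` mod 3 when `p` and `p + 2` are primes, `p > 3` -/
theorem twin_mod3 {p : ℕ} (hp : p.Prime) (hp2 : (p + 2).Prime) (h : 3 < p) : p % 3 = 2 := by
  have h0 : p % 3 ≠ 0 := fun h0 => by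
    have := (Nat.prime_dvd_prime_iff_eq Nat.prime_three hp).1 (Nat.dvd_of_mod_eq_zero h0)
    omega
  have h1 : p % 3 ≠ 1 := fun h1 => by
    have := (Nat.prime_dvd_prime_iff_eq Nat.prime_three hp2).1
      (Nat.dvd_of_mod_eq_zero (by omega))
    omega
  omega

theorem Glue.lt4 {k : ℕ} {y : ℤ} {A B X : ℕ} (h : Glue k y A B X) : X < 4 := by
  by_contra hX
  have e2 := h.e2
  have hk := h.hk
  have hA2 := h.h2.le2
  have hA : A = 2 := by omega
  obtain ⟨p, hp, hp2, _, hkp⟩ := h.h2.two hA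
  have hpy : (p : ℤ) ∣ y / 2 :=
    (h.hg.div (m := 2) (by norm_num)).dvd_of_dvd_succ (adm_of_le hp.one_le (by omega))
      ⟨2, by omega⟩
  have hm3 := twin_mod3 hp hp2 (by omega)
  obtain ⟨w, hw⟩ : ∃ w, p + 4 = 3 * w := ⟨(p + 4) / 3, by omega⟩
  have hcw : Nat.Coprime w p := (Nat.coprime_of_lt_prime (by omega) (by omega) hp).symm
  have hyc : X = 4 ∧ y % 2 = 0 ∨ X = 5 ∧ y % 2 = 1 := by omega
  have hfin : w * p ≤ k := by
    rcases hyc with ⟨rfl, hy⟩ | ⟨rfl, hy⟩
    · refine h.hg.key (X := 4) (i := p) (adm_of_le (n := w) (by omega) (by omega))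
        (adm_of_le (n := p) (by omega) (by omega)) hcw (by omega) (by omega)
        (dvd_add ?_ (dvd_refl _)) (h.low4 w (by omega) (by omega)) ⟨3, by omega⟩
      have : y = 2 * (y / 2) := by omega
      rw [this]; exact hpy.mul_left 2
    · refine h.hg.key (X := 5) (i := p - 1) (adm_of_le (n := w) (by omega) (by omega))
        (adm_of_le (n := p) (by omega) (by omega)) hcw (by omega) (by omega)
        ?_ (h.low4 w (by omega) (by omega)) ⟨3, by omega⟩
      have : y + ((p - 1 : ℕ) : ℤ) = 2 * (y / 2) + p := by omega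
      rw [this]; exact dvd_add (hpy.mul_left 2) (dvd_refl _)
  have h3w : 4 * p ≤ w * p := Nat.mul_le_mul_right _ (by omega)
  omega

theorem Glue.le2 {k : ℕ} {y : ℤ} {A B X : ℕ} (h : Glue k y A B X) : X ≤ 2 := by
  have := h.ne3
  have := h.lt4
  omega

theorem minFac_ge5 {n : ℕ} (h1 : n ≠ 1) (h2 : n % 2 = 1) (h3 : n % 3 ≠ 0) : 5 ≤ n.minFac := by
  have hp := Nat.minFac_prime h1
  have hd := Nat.minFac_dvd n
  have a2 : n.minFac ≠ 2 := fun h => by rw [h] at hd; omega
  have a3 : n.minFac ≠ 3 := fun h => by rw [h] at hd; omega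
  have a4 : n.minFac ≠ 4 := fun h => by rw [h] at hp; revert hp; norm_num
  have := hp.two_le
  omega

theorem Glue.one {k : ℕ} {y : ℤ} {A B X : ℕ} (h : Glue k y A B X) (hX : X = 1) :
    (k + 1).Prime := by
  subst hX
  have e2 := h.e2
  have e3 := h.e3
  have hk := h.hk
  have c2 := h.hg 2 (adm_of_le (by norm_num) (by omega))
  have c3 := h.hg 3 (adm_of_le (by norm_num) (by omega))
  push_cast at e2 e3 c2 c3
  have hk2 : k % 2 = 0 := by omega
  have hk3 : (k + 1) % 3 ≠ 0 := by omega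
  by_contra hnp
  have h5 := minFac_ge5 (n := k + 1) (by omega) (by omega) hk3
  obtain ⟨n, hn⟩ := Nat.minFac_dvd (k + 1)
  have hn1 : n ≠ 1 := by
    rintro rfl
    apply hnp
    have := Nat.minFac_prime (n := k + 1) (by omega)
    rw [mul_one] at hn
    rwa [← hn] at this
  have hn0 : 1 ≤ n := by
    rcases Nat.eq_zero_or_pos n with h0 | h0
    · rw [h0] at hn; omega
    · exact h0
  have hn5 : 5 * n ≤ k + 1 := by
    calc 5 * n ≤ (k + 1).minFac * n := Nat.mul_le_mul_right _ h5
      _ = k + 1 := hn.symm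
  have d1 := h.hg.dvd_of_dvd_succ (adm_of_le hn0 (by omega)) ⟨_, hn.trans (mul_comm _ _)⟩
  have d2 := h.low4 n hn0 (by omega)
  have d3 := dvd_sub d1 d2
  have e : y - (y - ((1 : ℕ) : ℤ)) = 1 := by push_cast; ring
  rw [e] at d3
  have : (n : ℤ) ∣ ((1 : ℕ) : ℤ) := by exact_mod_cast d3
  exact hn1 (Nat.dvd_one.1 (by exact_mod_cast this))

theorem Glue.two {k : ℕ} {y : ℤ} {A B X : ℕ} (h : Glue k y A B X) (hX : X = 2) :
    ∃ p : ℕ, p.Prime ∧ (p + 2).Prime ∧ (2 * p + 1).Prime ∧ k + 1 = 2 * p := by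
  subst hX
  have e2 := h.e2
  have e3 := h.e3
  have hk := h.hk
  have c3 := h.hg 3 (adm_of_le (by norm_num) (by omega))
  push_cast at e2 e3 c3
  have hA : A = 1 := by omega
  have hp := h.h2.one hA
  have hy2 : y % 2 = 0 := by omega
  have hk3 : k % 3 = 0 := by omega
  set p := k / 2 + 1 with hpd
  have hp2 : p % 2 = 1 := by
    rcases hp.eq_two_or_odd with h' | h' <;> omega
  have hcop : Nat.Coprime 2 p := by
    rw [Nat.coprime_primes Nat.prime_two hp]; omega
  -- `k` is odd
  have hkodd : k % 2 = 1 := by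
    by_contra hke
    have hadm : Adm k (2 * p) := adm_mul (adm_of_le (by omega) (by omega))
      (adm_of_le (by omega) (by omega)) hcop
    have h1 := h.hg.lt_sub hadm (by omega)
    have h2 := emod_emod_nat y (dvd_mul_right 2 p)
    have h0 := Int.emod_nonneg y (b := ((2 * p : ℕ) : ℤ)) (by positivity)
    have hz : y % ((2 * p : ℕ) : ℤ) = 0 := by
      have h3' : y % ((2 * p : ℕ) : ℤ) % 2 = 0 := by rw [← hy2]; exact_mod_cast h2
      have h5 : ((2 * p : ℕ) : ℤ) - k ≤ 2 := by push_cast; omega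
      have h6 : y % ((2 * p : ℕ) : ℤ) < 2 := lt_of_lt_of_le h1 h5
      omega
    have hpy : (p : ℤ) ∣ y := by
      have := Int.dvd_of_emod_eq_zero hz
      exact (Int.natCast_dvd_natCast.2 (dvd_mul_left p 2)).trans this
    obtain ⟨w, hw⟩ : ∃ w, p + 2 = 3 * w := ⟨(p + 2) / 3, by omega⟩
    have hcw : Nat.Coprime w p := (Nat.coprime_of_lt_prime (by omega) (by omega) hp).symm
    have := h.hg.key (X := 2) (i := p) (adm_of_le (n := w) (by omega) (by omega))
      (adm_of_le (n := p) (by omega) (by omega)) hcw (by omega) (by omega)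
      (dvd_add hpy (dvd_refl _)) (h.low4 w (by omega) (by omega)) ⟨3, by omega⟩
    have h3w : 2 * p ≤ w * p := Nat.mul_le_mul_right _ (by omega)
    omega
  have hkp : k + 1 = 2 * p := by omega
  have hpy : (p : ℤ) ∣ y :=
    h.hg.dvd_of_dvd_succ (adm_of_le (by omega) (by omega)) ⟨2, by omega⟩
  refine ⟨p, hp, ?_, ?_, hkp⟩
  · by_contra hnp
    have h5 := minFac_ge5 (n := p + 2) (by omega) (by omega) (by omega)
    obtain ⟨w, hw⟩ := Nat.minFac_dvd (p + 2)
    have hw1 : w ≠ 1 := by
      rintro rfl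
      apply hnp
      have := Nat.minFac_prime (n := p + 2) (by omega)
      rw [mul_one] at hw
      rwa [← hw] at this
    have hw0 : 1 ≤ w := by
      rcases Nat.eq_zero_or_pos w with h0 | h0
      · rw [h0] at hw; omega
      · exact h0
    have hw5 : 5 * w ≤ p + 2 := by
      calc 5 * w ≤ (p + 2).minFac * w := Nat.mul_le_mul_right _ h5
        _ = p + 2 := hw.symm
    have hcw : Nat.Coprime w p := (Nat.coprime_of_lt_prime (by omega) (by omega) hp).symm
    have := h.hg.key (X := 2) (i := p) (adm_of_le (n := w) (by omega) (by omega))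
      (adm_of_le (n := p) (by omega) (by omega)) hcw (by omega) (by omega)
      (dvd_add hpy (dvd_refl _)) (h.low4 w (by omega) (by omega)) ⟨_, hw.trans (mul_comm _ _)⟩
    have h3w : 2 * p ≤ w * p := Nat.mul_le_mul_right _ (by omega)
    omega
  · by_contra hnp
    have h5 := minFac_ge5 (n := 2 * p + 1) (by omega) (by omega) (by omega)
    obtain ⟨n, hn⟩ := Nat.minFac_dvd (2 * p + 1)
    have hn1 : n ≠ 1 := by
      rintro rfl
      apply hnp
      have := Nat.minFac_prime (n := 2 * p + 1) (by omega)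
      rw [mul_one] at hn
      rwa [← hn] at this
    have hn0 : 1 ≤ n := by
      rcases Nat.eq_zero_or_pos n with h0 | h0
      · rw [h0] at hn; omega
      · exact h0
    have hn5 : 5 * n ≤ 2 * p + 1 := by
      calc 5 * n ≤ (2 * p + 1).minFac * n := Nat.mul_le_mul_right _ h5
        _ = 2 * p + 1 := hn.symm
    have hn2 : n ≠ 2 := by
      rintro rfl
      omega
    have c := h.hg n (adm_of_le hn0 (by omega))
    have d2 := h.low4 n hn0 (by omega)
    have hpos : (0 : ℤ) < n := by exact_mod_cast hn0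
    have ek : (k : ℤ) % n = n - 2 := by
      have : (k : ℤ) = (n - 2) + n * ((2 * p + 1).minFac - 1) := by
        have h6 : ((2 * p + 1 : ℕ) : ℤ) = ((2 * p + 1).minFac : ℤ) * n := by exact_mod_cast hn
        have h7 : (k : ℤ) + 1 = 2 * p := by exact_mod_cast hkp
        push_cast at h6
        linear_combination h6 + h7
      rw [this, Int.add_mul_emod_self_left]
      exact Int.emod_eq_of_lt (by omega) (by omega)
    have ey : y % n = 2 := by
      obtain ⟨c', hc'⟩ := d2
      have : y = 2 + n * c' := by push_cast at hc'; linear_combination hc'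
      rw [this, Int.add_mul_emod_self_left]
      exact Int.emod_eq_of_lt (by omega) (by omega)
    omega

end WCS9
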