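import Pool.Agent.Lib.MP_9abbac_co.X2

namespace WCS9

theorem Good.rev_div {k : ℕ} {x : ℤ} (h : Good k x) {m : ℕ} (h1 : 1 ≤ m) (h2 : m ≤ k) :
    (-((k : ℤ) + 1) - x) / (m : ℤ) = -(((k / m : ℕ) : ℤ) + 1) - x / m := by
  have c := h m (adm_of_le h1 h2)
  have hpos : (0 : ℤ) < m := by exact_mod_cast h1
  have hx := Int.emod_nonneg x hpos.ne'
  have hk := Int.emod_nonneg (k : ℤ) hpos.ne'
  have e1 : -((k : ℤ) + 1) - x =
      (m - 1 - x % m - (k : ℤ) % m) + m * (-(x / m) - (k : ℤ) / m - 1) := by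
    have a := Int.emod_add_mul_ediv x m
    have b := Int.emod_add_mul_ediv (k : ℤ) m
    linear_combination a + b
  rw [e1, Int.add_mul_ediv_left _ _ hpos.ne', Int.ediv_eq_zero_of_lt (by linarith) (by linarith)]
  push_cast
  ring

theorem three {m T : ℕ} (hm : 7 ≤ m) (h1 : m ∣ T) (h2 : (m - 1) ∣ T) (h3 : (m - 2) ∣ T)
    (hT : 0 < T) : m * (m - 1) * (m - 2) ≤ 2 * T := by
  obtain ⟨a, rfl⟩ : ∃ a, m = a + 2 := ⟨m - 2, by omega⟩
  have e1 : a + 2 - 1 = a + 1 := rfl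
  have e2 : a + 2 - 2 = a := rfl
  rw [e1] at h2 ⊢
  rw [e2] at h3 ⊢
  have hc : Nat.Coprime (a + 2) (a + 1) := by
    have : a + 2 = (a + 1) + 1 := rfl
    rw [this]; exact (Nat.coprime_self_add_left).2 (Nat.coprime_one_left _)
  obtain ⟨s, hs⟩ := hc.mul_dvd_of_dvd_of_dvd h1 h2
  have h4 : a ∣ 2 * s := by
    have h5 : a ∣ (a + 2) * (a + 1) * s := by rw [← hs]; exact h3
    have h6 : (a + 2) * (a + 1) * s = 2 * s + a * ((a + 3) * s) := by ring
    rw [h6] at h5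
    exact (Nat.dvd_add_left (dvd_mul_right _ _)).1 h5
  obtain ⟨t, ht⟩ := h4
  have h7 : 2 * T = (a + 2) * (a + 1) * a * t := by
    rw [hs]
    calc 2 * ((a + 2) * (a + 1) * s) = (a + 2) * (a + 1) * (2 * s) := by ring
      _ = (a + 2) * (a + 1) * (a * t) := by rw [ht]
      _ = _ := by ring
  have ht0 : t ≠ 0 := by
    rintro rfl
    omega
  rw [h7]
  exact Nat.le_mul_of_pos_right _ (Nat.pos_of_ne_zero ht0)

theorem cls_low2 {k m : ℕ} {y : ℤ} {A : ℕ} (hm : 1 ≤ m) (h : Cls (k / m) (y / m) A) {n : ℕ}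
    (h1 : 1 ≤ n) (h2 : n < k / m / 2) : (n : ℤ) ∣ y - (m * A + y % m) := by
  have := h.low n h1 h2
  have e : y - (m * A + y % m) = m * (y / m - A) := by
    have := Int.emod_add_mul_ediv y m
    linear_combination (-1 : ℤ) * this
  rw [e]
  exact this.mul_left _

theorem mixed {k : ℕ} {y : ℤ} {A B : ℕ} (hk : 48 ≤ k) (h2 : Cls (k / 2) (y / (2 : ℕ)) A)
    (h3 : Cls (k / 3) ((-((k : ℤ) + 1) - y) / (3 : ℕ)) B) : False := by
  set z := -((k : ℤ) + 1) - y with hz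
  have hA := h2.le2
  have hB := h3.le2
  obtain ⟨T, hT⟩ : ∃ T : ℕ, (T : ℤ) = k + 1 + (2 * A + y % 2) + (3 * B + z % 3) :=
    ⟨(k + 1 + (2 * A + y % 2) + (3 * B + z % 3)).toNat, by rw [Int.toNat_of_nonneg]; omega⟩
  have hd : ∀ n : ℕ, 1 ≤ n → n < k / 6 → n ∣ T := by
    intro n hn1 hn2
    have a := cls_low2 (m := 2) (by norm_num) h2 hn1 (by omega)
    have b := cls_low2 (m := 3) (by norm_num) h3 hn1 (by omega)
    have c := dvd_add a b
    have e : y - (((2 : ℕ) : ℤ) * A + y % ((2 : ℕ) : ℤ)) + (z - (((3 : ℕ) : ℤ) * B + z % ((3 : ℕ) : ℤ)))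
        = -(T : ℤ) := by
      rw [hT, hz]; push_cast; ring
    rw [e, dvd_neg] at c
    exact_mod_cast c
  have hm := three (m := k / 6 - 1) (by omega) (hd _ (by omega) (by omega))
    (hd _ (by omega) (by omega)) (hd _ (by omega) (by omega)) (by omega)
  obtain ⟨a, ha⟩ : ∃ a, k / 6 - 1 = a + 2 := ⟨k / 6 - 3, by omega⟩
  rw [ha] at hm
  have e1 : a + 2 - 1 = a + 1 := rfl
  have e2 : a + 2 - 2 = a := rfl
  rw [e1, e2] at hm
  have h5 : 5 ≤ a := by omega
  have hTle : T ≤ 6 * a + 37 := by omega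
  nlinarith [mul_le_mul h5 h5 (by norm_num) (by omega)]

theorem exists_glue {k : ℕ} {x : ℤ} (hk : 48 ≤ k) (hg : Good k x)
    (ih : ∀ k' : ℕ, 16 ≤ k' → k' < k → ∀ x' : ℤ, Good k' x' →
      ∃ X : ℕ, Cls k' x' X ∨ Cls k' (-((k' : ℤ) + 1) - x') X) :
    ∃ y : ℤ, (y = x ∨ y = -((k : ℤ) + 1) - x) ∧ ∃ A B X : ℕ, Glue k y A B X := by
  have same : ∀ y : ℤ, Good k y → ∀ A B : ℕ, Cls (k / 2) (y / (2 : ℕ)) A →
      Cls (k / 3) (y / (3 : ℕ)) B → ∃ A B X : ℕ, Glue k y A B X := by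
    intro y hy A B h2 h3
    have hA := h2.le2
    have hB := h3.le2
    refine ⟨A, B, (2 * A + y % 2).toNat, hk, hy, by exact_mod_cast h2, by exact_mod_cast h3, ?_, ?_⟩
    · rw [Int.toNat_of_nonneg]; omega
    · rw [Int.toNat_of_nonneg (by omega)]
      have hd : ∀ n : ℕ, 1 ≤ n → n < k / 6 →
          (n : ℤ) ∣ (2 * A + y % 2) - (3 * B + y % 3) := by
        intro n hn1 hn2
        have a := cls_low2 (m := 2) (by norm_num) h2 hn1 (by omega)
        have b := cls_low2 (m := 3) (by norm_num) h3 hn1 (by omega)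
        have c := dvd_sub b a
        have e : y - (((3 : ℕ) : ℤ) * B + y % ((3 : ℕ) : ℤ)) -
            (y - (((2 : ℕ) : ℤ) * A + y % ((2 : ℕ) : ℤ))) =
            (2 * A + y % 2) - (3 * B + y % 3) := by
          push_cast; ring
        rwa [e] at c
      obtain ⟨m, hm⟩ : ∃ m, k / 6 = m + 2 := ⟨k / 6 - 2, by omega⟩
      have d1 := hd (m + 1) (by omega) (by omega)
      have d2 := hd m (by omega) (by omega)
      have hc : IsCoprime (((m + 1 : ℕ)) : ℤ) ((m : ℕ) : ℤ) := by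
        rw [Nat.isCoprime_iff_coprime]
        exact (Nat.coprime_self_add_left).2 (Nat.coprime_one_left _)
      have d3 := hc.mul_dvd d1 d2
      have : (2 * (A : ℤ) + y % 2) - (3 * B + y % 3) = 0 := by
        apply Int.eq_zero_of_abs_lt_dvd d3
        have h6 : (6 : ℤ) ≤ m := by omega
        push_cast
        rw [abs_lt]
        constructor <;> nlinarith [Int.emod_nonneg y (b := 2) (by norm_num),
          Int.emod_nonneg y (b := 3) (by norm_num), Int.emod_lt_of_pos y (b := 2) (by norm_num),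
          Int.emod_lt_of_pos y (b := 3) (by norm_num)]
      linarith
  obtain ⟨A, hA⟩ := ih (k / 2) (by omega) (by omega) (x / (2 : ℕ)) (hg.div (by norm_num))
  obtain ⟨B, hB⟩ := ih (k / 3) (by omega) (by omega) (x / (3 : ℕ)) (hg.div (by norm_num))
  rw [← hg.rev_div (m := 2) (by norm_num) (by omega)] at hA
  rw [← hg.rev_div (m := 3) (by norm_num) (by omega)] at hB
  rcases hA with hA | hA <;> rcases hB with hB | hB
  · exact ⟨x, Or.inl rfl, same x hg A B hA hB⟩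
  · exact absurd (mixed hk hA hB) id
  · exfalso
    refine mixed hk hA (B := B) ?_
    rw [rev_rev]
    exact hB
  · exact ⟨_, Or.inr rfl, same _ hg.rev A B hA hB⟩

end WCS9
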