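import Pool.Agent.Lib.MP_9abbac_co.X1

namespace WCS9

/-- `a * b` is a usable modulus -/
def bvalid (k M a b : ℕ) : Bool :=
  Nat.ble 1 a && Nat.ble a k && Nat.ble 1 b && Nat.ble b k && (Nat.gcd a b == 1) &&
    (M % (a * b) == 0)

/-- no carry modulo `a * b` -/
def bcheck (k M x : ℕ) (ab : ℕ × ℕ) : Bool :=
  !(bvalid k M ab.1 ab.2) ||
    Nat.ble (x % (ab.1 * ab.2) + k % (ab.1 * ab.2) + 1) (ab.1 * ab.2)

/-- refine the possible residues modulo `M` to residues modulo `M * p` -/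
def bext (k M p : ℕ) (ns : List (ℕ × ℕ)) (S : List ℕ) : List ℕ :=
  S.flatMap fun a => ((List.range p).map fun t => a + M * t).filter
    fun x => ns.all (bcheck k (M * p) x)

def brun (k : ℕ) : List (ℕ × List (ℕ × ℕ)) → ℕ → List ℕ → ℕ × List ℕ
  | [], M, S => (M, S)
  | (p, ns) :: L, M, S => brun k L (M * p) (bext k M p ns S)

def ballow (k X : ℕ) : Bool :=
  (X == 0) || ((X == 1) && ([16, 18, 22, 28, 30, 36, 40, 42, 46].contains k)) ||
    ((X == 2) && (k == 21))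

def bfin (k M b : ℕ) : Bool :=
  [0, 1, 2].any fun X => ballow k X &&
    ((List.range (k / 2)).all (fun n => (n == 0) || ((M % n == 0) && (b % n == X % n))) ||
     (List.range (k / 2)).all (fun n => (n == 0) || ((M % n == 0) && ((b + k + 1 + X) % n == 0))))

def bbound (k : ℕ) : ℕ := if k = 36 then 24 else if k = 45 then 30 else k / 2 - 1

def bmaster : List (ℕ × ℕ × List (ℕ × ℕ)) :=
  [(2, 2, [(1, 2)]),
   (3, 3, [(1, 3), (2, 3)]),
   (4, 2, [(1, 4), (3, 4)]),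
   (5, 5, [(1, 5), (2, 5), (3, 5), (4, 5), (5, 6), (5, 12)]),
   (7, 7, [(1, 7), (2, 7), (3, 7), (4, 7), (5, 7), (6, 7), (7, 10), (7, 12), (7, 15), (7, 20), (14, 15)]),
   (8, 2, [(1, 8), (3, 8), (5, 8), (7, 8), (8, 15), (8, 21), (8, 35)]),
   (9, 3, [(1, 9), (2, 9), (4, 9), (5, 9), (7, 9), (8, 9), (9, 10), (9, 14), (9, 20), (9, 28), (9, 35), (9, 40)]),
   (11, 11, [(1, 11), (2, 11), (3, 11), (4, 11), (5, 11), (6, 11), (7, 11), (8, 11), (9, 11), (10, 11), (11, 12), (11, 14), (11, 15), (11, 18), (11, 20), (11, 21), (11, 24), (11, 28), (15, 22)]),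
   (13, 13, [(1, 13), (2, 13), (3, 13), (4, 13), (5, 13), (6, 13), (7, 13), (8, 13), (9, 13), (10, 13), (11, 13), (12, 13), (13, 14), (13, 15), (13, 18), (13, 20), (13, 21), (13, 22), (13, 24), (13, 28)]),
   (16, 2, [(1, 16), (3, 16), (5, 16), (7, 16), (9, 16), (11, 16), (13, 16), (15, 16), (16, 21)]),
   (17, 17, [(1, 17), (2, 17), (3, 17), (4, 17), (5, 17), (6, 17), (7, 17), (8, 17), (9, 17), (10, 17), (11, 17), (12, 17), (13, 17), (14, 17), (15, 17), (16, 17), (17, 18), (17, 20), (17, 21), (17, 22)]),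
   (19, 19, [(1, 19), (2, 19), (3, 19), (4, 19), (5, 19), (6, 19), (7, 19), (8, 19), (9, 19), (10, 19), (11, 19), (12, 19), (13, 19), (14, 19), (15, 19), (16, 19), (17, 19), (18, 19)]),
   (23, 23, [(1, 23), (2, 23), (3, 23), (4, 23), (5, 23), (6, 23), (7, 23), (8, 23), (9, 23), (10, 23), (11, 23), (12, 23), (13, 23), (14, 23), (15, 23), (16, 23)]),
   (25, 5, [(1, 25), (2, 25), (3, 25), (4, 25), (6, 25), (7, 25), (8, 25), (9, 25), (11, 25), (12, 25), (13, 25), (14, 25)]),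
   (27, 3, [(1, 27), (2, 27), (4, 27), (5, 27), (7, 27), (8, 27), (10, 27), (11, 27), (13, 27)]),
   (29, 29, [(1, 29), (2, 29), (3, 29), (4, 29), (5, 29), (6, 29), (7, 29), (8, 29), (9, 29), (10, 29), (11, 29), (12, 29)])]

def bsteps (k : ℕ) : List (ℕ × List (ℕ × ℕ)) :=
  (bmaster.filter fun s => Nat.ble s.1 (bbound k)).map Prod.snd

def bok (k : ℕ) : Bool :=
  (brun k (bsteps k) 1 [0]).2.all (bfin k (brun k (bsteps k) 1 [0]).1)

theorem bok_all : ∀ j < 32, bok (16 + j) = true := by decide +kernel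

theorem bcheck_of_good {k M : ℕ} {x : ℤ} (h : Good k x) {r : ℕ} (hr : (M : ℤ) ∣ x - r)
    (ab : ℕ × ℕ) : bcheck k M r ab = true := by
  unfold bcheck
  by_cases hv : bvalid k M ab.1 ab.2 = true
  · rw [hv]
    simp only [Bool.not_true, Bool.false_or]
    unfold bvalid at hv
    simp only [Bool.and_eq_true, Nat.ble_eq, beq_iff_eq] at hv
    obtain ⟨⟨⟨⟨⟨h1, h2⟩, h3⟩, h4⟩, h5⟩, h6⟩ := hv
    have hadm : Adm k (ab.1 * ab.2) := adm_mul (adm_of_le h1 h2) (adm_of_le h3 h4) h5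
    have h7 := h _ hadm
    rw [Nat.ble_eq]
    have h8 : ((ab.1 * ab.2 : ℕ) : ℤ) ∣ x - r :=
      (Int.natCast_dvd_natCast.2 (Nat.dvd_of_mod_eq_zero h6)).trans hr
    have h9 : x % ((ab.1 * ab.2 : ℕ) : ℤ) = (r : ℤ) % ((ab.1 * ab.2 : ℕ) : ℤ) :=
      (Int.modEq_iff_dvd.2 h8).symm
    rw [h9] at h7
    have h10 : ((r % (ab.1 * ab.2) + k % (ab.1 * ab.2) + 1 : ℕ) : ℤ) ≤ ((ab.1 * ab.2 : ℕ) : ℤ) := by
      push_cast at h7 ⊢
      linarith
    exact_mod_cast h10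
  · simp [hv]

theorem bext_mem {k M p : ℕ} {ns : List (ℕ × ℕ)} {S : List ℕ} {x : ℤ} (h : Good k x)
    (hp : 0 < p) (hS : ∃ a ∈ S, a < M ∧ (M : ℤ) ∣ x - a) :
    ∃ a ∈ bext k M p ns S, a < M * p ∧ ((M * p : ℕ) : ℤ) ∣ x - a := by
  obtain ⟨a, haS, haM, had⟩ := hS
  obtain ⟨c, hc⟩ := had
  have hpp : (0 : ℤ) < p := by exact_mod_cast hp
  obtain ⟨t, ht⟩ : ∃ t : ℕ, (t : ℤ) = c % p :=
    ⟨(c % p).toNat, Int.toNat_of_nonneg (Int.emod_nonneg _ hpp.ne')⟩
  have htp : t < p := by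
    have := Int.emod_lt_of_pos c hpp
    rw [← ht] at this
    exact_mod_cast this
  have hd : ((M * p : ℕ) : ℤ) ∣ x - ((a + M * t : ℕ) : ℤ) := by
    refine ⟨c / p, ?_⟩
    have := Int.emod_add_mul_ediv c p
    push_cast
    rw [ht]
    linear_combination hc - (M : ℤ) * this
  refine ⟨a + M * t, ?_, ?_, hd⟩
  · unfold bext
    rw [List.mem_flatMap]
    refine ⟨a, haS, ?_⟩
    rw [List.mem_filter]
    refine ⟨List.mem_map.2 ⟨t, List.mem_range.2 htp, rfl⟩, ?_⟩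
    rw [List.all_eq_true]
    intro ab _
    exact bcheck_of_good h hd ab
  · calc a + M * t < M + M * t := by omega
      _ = M * (t + 1) := by ring
      _ ≤ M * p := Nat.mul_le_mul_left _ htp

theorem brun_mem {k : ℕ} {x : ℤ} (h : Good k x) :
    ∀ (L : List (ℕ × List (ℕ × ℕ))) (M : ℕ) (S : List ℕ), (∀ s ∈ L, 0 < s.1) → 0 < M →
      (∃ a ∈ S, a < M ∧ (M : ℤ) ∣ x - a) →
      ∃ a ∈ (brun k L M S).2, ((brun k L M S).1 : ℤ) ∣ x - a
  | [], M, S, _, _, hS => by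
      obtain ⟨a, h1, _, h3⟩ := hS
      exact ⟨a, h1, h3⟩
  | (p, ns) :: L, M, S, hL, hM, hS => by
      have hp : 0 < p := hL (p, ns) (by simp)
      exact brun_mem h L (M * p) (bext k M p ns S) (fun s hs => hL s (by simp [hs]))
        (Nat.mul_pos hM hp) (bext_mem h hp hS)

theorem bmaster_pos : ∀ s ∈ bmaster, 0 < s.2.1 := by decide +kernel

theorem bsteps_pos (k : ℕ) : ∀ s ∈ bsteps k, 0 < s.1 := by
  intro s hs
  unfold bsteps at hs
  rw [List.mem_map] at hs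
  obtain ⟨t, ht, rfl⟩ := hs
  exact bmaster_pos t (List.mem_filter.1 ht).1

theorem base_case {k : ℕ} (h1 : 16 ≤ k) (h2 : k < 48) {x : ℤ} (h : Good k x) :
    ∃ X : ℕ, X ≤ 2 ∧ ∃ y : ℤ, (y = x ∨ y = -((k : ℤ) + 1) - x) ∧
      (∀ n : ℕ, 1 ≤ n → n < k / 2 → (n : ℤ) ∣ y - X) ∧ (X = 1 → (k + 1).Prime) ∧
      (X = 2 → ∃ p : ℕ, p.Prime ∧ (p + 2).Prime ∧ (2 * p + 1).Prime ∧ k + 1 = 2 * p) := by
  have hok : bok k = true := by
    have := bok_all (k - 16) (by omega)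
    rwa [show 16 + (k - 16) = k by omega] at this
  obtain ⟨a, ha, hd⟩ := brun_mem h (bsteps k) 1 [0] (bsteps_pos k) one_pos
    ⟨0, by simp, one_pos, by simp⟩
  unfold bok at hok
  rw [List.all_eq_true] at hok
  have hf := hok a ha
  unfold bfin at hf
  rw [List.any_eq_true] at hf
  obtain ⟨X, hX, hf⟩ := hf
  rw [Bool.and_eq_true] at hf
  obtain ⟨hal, hf⟩ := hf
  have hX2 : X ≤ 2 := by
    simp only [List.mem_cons, List.not_mem_nil, or_false] at hX
    omega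
  have hone : X = 1 → (k + 1).Prime := by
    rintro rfl
    unfold ballow at hal
    simp at hal
    rcases hal with h | h | h | h | h | h | h | h | h <;> subst h <;> norm_num
  have htwo : X = 2 → ∃ p : ℕ, p.Prime ∧ (p + 2).Prime ∧ (2 * p + 1).Prime ∧ k + 1 = 2 * p := by
    rintro rfl
    unfold ballow at hal
    simp at hal
    subst hal
    exact ⟨11, by norm_num, by norm_num, by norm_num, rfl⟩
  refine ⟨X, hX2, ?_⟩
  rw [Bool.or_eq_true] at hf
  rcases hf with hf | hf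
  · refine ⟨x, Or.inl rfl, ?_, hone, htwo⟩
    intro n hn1 hn2
    rw [List.all_eq_true] at hf
    have := hf n (List.mem_range.2 hn2)
    simp only [Bool.or_eq_true, beq_iff_eq, Bool.and_eq_true] at this
    rcases this with h0 | ⟨h3, h4⟩
    · omega
    have h5 : (n : ℤ) ∣ x - a :=
      (Int.natCast_dvd_natCast.2 (Nat.dvd_of_mod_eq_zero h3)).trans hd
    have h6 : (n : ℤ) ∣ (a : ℤ) - X := by
      have : (X : ℕ) ≡ a [MOD n] := h4.symm
      exact (Nat.modEq_iff_dvd).1 this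
    have := dvd_add h5 h6
    have e : x - a + ((a : ℤ) - X) = x - X := by ring
    rwa [e] at this
  · refine ⟨_, Or.inr rfl, ?_, hone, htwo⟩
    intro n hn1 hn2
    rw [List.all_eq_true] at hf
    have := hf n (List.mem_range.2 hn2)
    simp only [Bool.or_eq_true, beq_iff_eq, Bool.and_eq_true] at this
    rcases this with h0 | ⟨h3, h4⟩
    · omega
    have h5 : (n : ℤ) ∣ x - a :=
      (Int.natCast_dvd_natCast.2 (Nat.dvd_of_mod_eq_zero h3)).trans hd
    have h6 : (n : ℤ) ∣ ((a + k + 1 + X : ℕ) : ℤ) := by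
      exact_mod_cast Nat.dvd_of_mod_eq_zero h4
    have := dvd_neg.2 (dvd_add h5 h6)
    have e : -(x - a + ((a + k + 1 + X : ℕ) : ℤ)) = -((k : ℤ) + 1) - x - X := by
      push_cast; ring
    rwa [e] at this

end WCS9
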