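import Pool.Agent.Lib.MP_9abbac_co.X2

namespace WCS9

/-- positions of multiples of `q` are beyond `k % q` -/
theorem Good.pos_gt {k : ℕ} {x : ℤ} (h : Good k x) {q i : ℕ} (h1 : 1 ≤ q) (h2 : q ≤ k)
    (hi : 1 ≤ i) (hd : (q : ℤ) ∣ x + i) : k % q < i := by
  by_contra hlt
  push Not at hlt
  have c := h q (adm_of_le h1 h2)
  have hpos : (0 : ℤ) < q := by exact_mod_cast h1
  have hx := Int.emod_nonneg x hpos.ne'
  have hlt' : (i : ℤ) ≤ (k : ℤ) % q := by exact_mod_cast hlt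
  have hi' : (1 : ℤ) ≤ i := by exact_mod_cast hi
  have hkq := Int.emod_lt_of_pos (k : ℤ) hpos
  have h2 : (x + i) % (q : ℤ) = x % q + i := by
    rw [Int.add_emod, Int.emod_eq_of_lt (a := (i : ℤ)) (by linarith) (by linarith)]
    exact Int.emod_eq_of_lt (by linarith) (by linarith)
  have h3 : (x + i) % (q : ℤ) = 0 := Int.emod_eq_zero_of_dvd hd
  linarith

/-- two primes dividing the same element of the window, one of them `> k/2`, are equal -/
theorem Good.prime_eq {k : ℕ} {x : ℤ} (h : Good k x) {a b i : ℕ} (ha : a.Prime) (hb : b.Prime)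
    (ha2 : k < 2 * a) (ha3 : a ≤ k) (hb3 : b ≤ k) (hi1 : 1 ≤ i) (hi2 : i ≤ k)
    (h1 : (a : ℤ) ∣ x + i) (h2 : (b : ℤ) ∣ x + i) : a = b := by
  by_contra hne
  have := h.mul_le (adm_of_le ha.one_le ha3) (adm_of_le hb.one_le hb3)
    ((Nat.coprime_primes ha hb).2 hne) (i := i) (by exact_mod_cast hi1) (by exact_mod_cast hi2)
    h1 h2
  have h3 : a * 2 ≤ a * b := Nat.mul_le_mul_left _ hb.two_le
  omega

theorem half_pp {k : ℕ} {x : ℤ} {X : ℕ} (hk : 16 ≤ k) (hg : Good k x) (hX : X ≤ 2)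
    (low : ∀ n : ℕ, 1 ≤ n → n < k / 2 → (n : ℤ) ∣ x - X) {l e : ℕ} (hl : l.Prime) (he : 2 ≤ e)
    (hle : 2 * l ^ e ≤ k) : ((l ^ e : ℕ) : ℤ) ∣ x - X := by
  rcases lt_or_ge (l ^ e) (k / 2) with h | h
  · exact low _ (pow_pos hl.pos e) h
  · refine pp_low hg hX hl he (by omega) hle ?_ (fun n h1 h2 => low n h1 (by omega))
    have hpos : 0 < l ^ e := pow_pos hl.pos e
    have h3 : k / l ^ e ≤ 2 := by
      have : k / l ^ e < 3 := (Nat.div_lt_iff_lt_mul hpos).2 (by omega)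
      omega
    calc k / l ^ e * l ≤ l * l := Nat.mul_le_mul_right _ (h3.trans hl.two_le)
      _ = l ^ 2 := (sq l).symm
      _ ≤ l ^ e := Nat.pow_le_pow_right hl.pos he

theorem y_pp {k : ℕ} {x : ℤ} {X : ℕ} (hk : 16 ≤ k) (hg : Good k x) (hX : X ≤ 2)
    (low : ∀ n : ℕ, 1 ≤ n → n < k / 2 → (n : ℤ) ∣ x - X) {l e : ℕ} (hl : l.Prime) (he : 2 ≤ e)
    (hle : l ^ e ≤ k) (hnd : ¬ ((l ^ e : ℕ) : ℤ) ∣ x - X) {i : ℕ} (hi1 : 1 ≤ i) (hi2 : i ≤ k)
    (hd : ((l ^ e : ℕ) : ℤ) ∣ x + i) :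
    i + X = l ^ (e - 1) ∧ k + 1 + X ≤ l ^ e + l ^ (e - 1) := by
  have h2q : k < 2 * l ^ e := by
    by_contra h
    exact hnd (half_pp hk hg hX low hl he (by omega))
  obtain ⟨e', rfl⟩ : ∃ e', e = e' + 1 := ⟨e - 1, by omega⟩
  rw [Nat.add_sub_cancel]
  have hvw : ((l ^ e' : ℕ) : ℤ) ∣ x - X := by
    have hv : l ^ e' * l ≤ k := by rw [← pow_succ]; exact hle
    rcases Nat.lt_or_ge e' 2 with h | h
    · have : e' = 1 := by omega
      subst this
      rw [pow_one] at hv ⊢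
      apply low l hl.one_le
      rcases Nat.lt_or_ge l 4 with h4 | h4
      · omega
      · have : 4 * l ≤ l * l := Nat.mul_le_mul_right _ h4
        omega
    · apply half_pp hk hg hX low hl h
      have := Nat.mul_le_mul_left (l ^ e') hl.two_le
      omega
  set q := l ^ (e' + 1) with hq
  set v := l ^ e' with hv
  have hqv : q = v * l := by rw [hq, hv, pow_succ]
  have hvpos : 0 < v := pow_pos hl.pos _
  have hl2 := hl.two_le
  have hvl : l ≤ v := by
    calc l = l ^ 1 := (pow_one l).symm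
      _ ≤ l ^ e' := Nat.pow_le_pow_right hl.pos (by omega)
  have hvd : v ∣ i + X := by
    have h1 : (v : ℤ) ∣ x + i :=
      (Int.natCast_dvd_natCast.2 (by rw [hqv]; exact dvd_mul_right _ _)).trans hd
    have h2 := dvd_sub h1 hvw
    have e : x + (i : ℤ) - (x - X) = ((i + X : ℕ) : ℤ) := by push_cast; ring
    rw [e] at h2
    exact_mod_cast h2
  obtain ⟨u, hu⟩ := hvd
  have hlu : ¬ l ∣ u := by
    rintro ⟨w, rfl⟩
    exact hnd (wp_of_pos hd ⟨w, by rw [hu, hqv]; ring⟩)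
  have hu0 : 1 ≤ u := by
    rcases Nat.eq_zero_or_pos u with h0 | h0
    · rw [h0] at hu; omega
    · exact h0
  have hu2 : u < 2 * l := by
    have h9 : v * u < v * (2 * l + 1) := by
      rw [← hu]
      have e1 : v * (2 * l + 1) = 2 * q + v := by rw [hqv]; ring
      rw [e1]
      omega
    have h10 : u < 2 * l + 1 := lt_of_mul_lt_mul_left h9 (by omega)
    have h11 : u ≠ 2 * l := by
      rintro rfl
      exact hlu (dvd_mul_left _ _)
    omega
  have huk : u < k / 2 := by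
    rcases Nat.lt_or_ge l 4 with h4 | h4
    · omega
    · have h5 : 4 * l ≤ l * l := Nat.mul_le_mul_right _ h4
      have h6 : l * l ≤ v * l := Nat.mul_le_mul_right _ hvl
      omega
  have hcop : Nat.Coprime u q := by
    rw [hq]
    exact Nat.Coprime.pow_right _ ((Nat.Prime.coprime_iff_not_dvd hl).2 hlu).symm
  have hm := hg.key (adm_of_le hu0 (by omega)) (adm_of_le (by omega) hle) hcop
    hi1 hi2 hd (low u hu0 huk) ⟨v, by rw [hu]; ring⟩
  have hu1 : u = 1 := by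
    by_contra h
    have : 2 * q ≤ u * q := Nat.mul_le_mul_right _ (by omega)
    omega
  rw [hu1, mul_one] at hu
  refine ⟨hu, ?_⟩
  have h7 := hg.pos_gt (q := q) (by omega) hle hi1 hd
  rw [Nat.mod_eq_sub_mod hle, Nat.mod_eq_of_lt (by omega)] at h7
  omega

theorem y_prime {k : ℕ} {x : ℤ} {X : ℕ} (hk : 16 ≤ k) (hg : Good k x) (hX : X ≤ 2)
    (low : ∀ n : ℕ, 1 ≤ n → n < k / 2 → (n : ℤ) ∣ x - X) {q : ℕ} (hq : q.Prime)
    (h2 : k < 2 * q) (hle : q ≤ k) (hnd : ¬ (q : ℤ) ∣ x - X) {i : ℕ} (hi1 : 1 ≤ i) (hi2 : i ≤ k)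
    (hd : (q : ℤ) ∣ x + i) :
    i ≤ q ∧ (i + X = 1 ∨ ((i + X).Prime ∧ k / 2 ≤ i + X ∧ i + X ≠ q ∧
      (i + X ≤ k → ¬ ((i + X : ℕ) : ℤ) ∣ x - X))) := by
  refine ⟨?_, ?_⟩
  · by_contra hlt
    push Not at hlt
    have hd' : (q : ℤ) ∣ x + ((i - q : ℕ) : ℤ) := by
      have e : x + ((i - q : ℕ) : ℤ) = x + i - q := by
        rw [Nat.cast_sub hlt.le]; ring
      rw [e]
      exact dvd_sub hd (dvd_refl _)
    have h7 := hg.pos_gt (q := q) hq.one_le hle (i := i - q) (by omega) hd'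
    rw [Nat.mod_eq_sub_mod hle, Nat.mod_eq_of_lt (by omega)] at h7
    omega
  by_cases h1 : i + X = 1
  · exact Or.inl h1
  right
  have hρ := Nat.minFac_prime h1
  obtain ⟨w, hw⟩ := Nat.minFac_dvd (i + X)
  set ρ := (i + X).minFac with hρd
  have hρk : k / 2 ≤ ρ := by
    by_contra hlt
    push Not at hlt
    have hc : Nat.Coprime ρ q := (Nat.coprime_primes hρ hq).2 (by omega)
    have := hg.key (adm_of_le hρ.one_le (by omega)) (adm_of_le hq.one_le hle) hc hi1 hi2 hd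
      (low ρ hρ.one_le hlt) ⟨w, hw⟩
    have h3 : 2 * q ≤ ρ * q := Nat.mul_le_mul_right _ hρ.two_le
    omega
  have hw0 : w ≠ 0 := by rintro rfl; omega
  have hw2 : w ≠ 2 := by
    rintro rfl
    have h5 : ρ ≤ 2 := Nat.minFac_le_of_dvd le_rfl ⟨ρ, by omega⟩
    omega
  have hw1 : w = 1 := by
    by_contra h
    have : ρ * 3 ≤ ρ * w := Nat.mul_le_mul_left _ (by omega)
    omega
  rw [hw1, mul_one] at hw
  have hNp : (i + X).Prime := by rw [hw]; exact hρ
  have hNq : i + X ≠ q := fun h => hnd (wp_of_pos hd (by rw [h]))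
  refine ⟨hNp, by omega, hNq, ?_⟩
  intro hNk hNd
  have := hg.key (adm_of_le hNp.one_le hNk) (adm_of_le hq.one_le hle)
    ((Nat.coprime_primes hNp hq).2 hNq) hi1 hi2 hd hNd (dvd_refl _)
  have h3 : 2 * q ≤ (i + X) * q := Nat.mul_le_mul_right _ hNp.two_le
  omega

theorem y_half {k : ℕ} {x : ℤ} {X : ℕ} (hk : 16 ≤ k) (hg : Good k x) (hX : X ≤ 2)
    (low : ∀ n : ℕ, 1 ≤ n → n < k / 2 → (n : ℤ) ∣ x - X) (hq : (k / 2).Prime)
    (hnd : ¬ ((k / 2 : ℕ) : ℤ) ∣ x - X) :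
    X ≤ 1 ∧ (k / 2 + 2).Prime ∧ ((k / 2 : ℕ) : ℤ) ∣ x + ((2 - X : ℕ) : ℤ) := by
  obtain ⟨i0, hi1, hi2, hi3⟩ := exists_posN hq.pos x
  obtain ⟨q, hqd⟩ : ∃ q, q = k / 2 := ⟨_, rfl⟩
  rw [← hqd] at hq hnd hi2 hi3 low ⊢
  have K : ∀ t n : ℕ, t ≤ 1 → 1 ≤ n → n < q → n ∣ i0 + t * q + X → n ≤ 2 := by
    intro t n ht hn1 hnq hd
    have htq : t * q ≤ q := by
      calc t * q ≤ 1 * q := Nat.mul_le_mul_right _ ht
        _ = q := one_mul q
    have hqd' : (q : ℤ) ∣ x + ((i0 + t * q : ℕ) : ℤ) := by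
      push_cast
      have e : x + ((i0 : ℤ) + t * q) = (x + i0) + q * t := by ring
      rw [e]
      exact dvd_add hi3 (dvd_mul_right _ _)
    have hc : Nat.Coprime n q := (Nat.coprime_of_lt_prime (by omega) hnq hq).symm
    have := hg.key (adm_of_le hn1 (by omega)) (adm_of_le hq.one_le (by omega)) hc
      (by omega) (by omega) hqd' (low n hn1 hnq) hd
    by_contra h6
    have : 3 * q ≤ n * q := Nat.mul_le_mul_right _ (by omega)
    omega
  have hodd : q % 2 = 1 := by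
    rcases hq.eq_two_or_odd with h | h <;> omega
  obtain ⟨c, hc⟩ : ∃ c, q = 2 * c + 1 := ⟨q / 2, by omega⟩
  have hN : i0 + X = 2 := by
    have hnq : i0 + X ≠ q := by
      intro he
      exact hnd (wp_of_pos hi3 (by rw [he]))
    rcases lt_or_ge (i0 + X) q with hlt | hge
    · have h4 := K 0 (i0 + X) (by omega) (by omega) hlt (by simp)
      by_contra h5
      have h6 : i0 + X = 1 := by omega
      have := K 1 (c + 1) (by omega) (by omega) (by omega) ⟨2, by omega⟩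
      omega
    · exfalso
      have : i0 + X = q + 1 ∨ i0 + X = q + 2 := by omega
      rcases this with h | h
      · have := K 0 (c + 1) (by omega) (by omega) (by omega) ⟨2, by omega⟩
        omega
      · have := K 1 (c + 1) (by omega) (by omega) (by omega) ⟨4, by omega⟩
        omega
  refine ⟨by omega, ?_, ?_⟩
  · by_contra hnp
    have hρ := Nat.minFac_prime (n := q + 2) (by omega)
    obtain ⟨w, hw⟩ := Nat.minFac_dvd (q + 2)
    have h3 := K 1 (q + 2).minFac le_rfl hρ.one_le ?_ ⟨w, by omega⟩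
    · have h4 := hρ.two_le
      have h5 : (q + 2).minFac = 2 := by omega
      rw [h5] at hw
      omega
    · have h6 := Nat.minFac_sq_le_self (n := q + 2) (by omega) hnp
      have h7 := hρ.two_le
      by_contra h8
      push Not at h8
      have : q * q ≤ (q + 2).minFac ^ 2 := by rw [sq]; exact Nat.mul_le_mul h8 h8
      have : 8 * q ≤ q * q := Nat.mul_le_mul_right _ (by omega)
      omega
  · have : 2 - X = i0 := by omega
    rw [this]
    exact hi3

end WCS9
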