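import Pool.Agent.Lib.MP_9abbac_co.X3
import Pool.Agent.Lib.MP_9abbac_co.X4
import Pool.Agent.Lib.MP_9abbac_co.X5

namespace WCS9

/-- types 0 and 1: the misplaced primes above `k/2` -/
theorem y_chain01 {k : ℕ} {x : ℤ} {X : ℕ} (hk : 16 ≤ k) (hg : Good k x) (hX : X ≤ 1)
    (low : ∀ n : ℕ, 1 ≤ n → n < k / 2 → (n : ℤ) ∣ x - X) :
    ∀ q : ℕ, q.Prime → k < 2 * q → q ≤ k → ¬ (q : ℤ) ∣ x - X →
      (q = k ∧ X = 0 ∧ (q : ℤ) ∣ x + 1) ∨
      (q = k / 2 + 2 ∧ (k / 2).Prime ∧ ¬ ((k / 2 : ℕ) : ℤ) ∣ x - X ∧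
        (q : ℤ) ∣ x + ((k / 2 - X : ℕ) : ℤ)) := by
  intro q
  induction q using Nat.strong_induction_on with
  | _ q ih =>
    intro hq h2 hle hnd
    obtain ⟨i, hi1, hi2, hi3⟩ := exists_posN hq.pos x
    obtain ⟨_, hN⟩ := y_prime hk hg (by omega) low hq h2 hle hnd hi1 (by omega) hi3
    rcases hN with hN | ⟨hNp, hNk, hNq, hNd⟩
    · left
      have hX0 : X = 0 := by omega
      have hi : i = 1 := by omega
      subst hi
      have h7 := hg.pos_gt hq.one_le hle le_rfl hi3
      rw [Nat.mod_eq_sub_mod hle, Nat.mod_eq_of_lt (by omega)] at h7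
      exact ⟨by omega, hX0, by exact_mod_cast hi3⟩
    · right
      have hodd : q % 2 = 1 := by
        rcases hq.eq_two_or_odd with h | h <;> omega
      have hNodd : (i + X) % 2 = 1 := by
        rcases hNp.eq_two_or_odd with h | h <;> omega
      have hNlt : i + X < q := by omega
      have hNd' := hNd (by omega)
      rcases Nat.eq_or_lt_of_le hNk with hN2 | hN2
      · -- `i + X = k / 2`
        rw [← hN2] at hNp hNd'
        obtain ⟨_, hp2, hpos⟩ := y_half hk hg (by omega) low hNp hNd'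
        have hposj : ((k / 2 : ℕ) : ℤ) ∣ x + ((k / 2 + 2 - X : ℕ) : ℤ) := by
          have e : x + ((k / 2 + 2 - X : ℕ) : ℤ) = x + ((2 - X : ℕ) : ℤ) + ((k / 2 : ℕ) : ℤ) := by
            omega
          rw [e]
          exact dvd_add hpos (dvd_refl _)
        have hmis : ¬ ((k / 2 + 2 : ℕ) : ℤ) ∣ x - X := by
          intro hd
          have := hg.key (n := k / 2 + 2) (r := k / 2) (X := X) (i := k / 2 + 2 - X)
            (adm_of_le hp2.one_le (by omega)) (adm_of_le hNp.one_le (by omega))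
            ((Nat.coprime_primes hp2 hNp).2 (by omega)) (by omega) (by omega) hposj hd
            (by rw [Nat.sub_add_cancel (by omega)])
          have h3 : (k / 2 + 2) * 2 ≤ (k / 2 + 2) * (k / 2) := Nat.mul_le_mul_left _ hNp.two_le
          omega
        have hq2 : q = k / 2 + 2 := by
          by_contra hne
          rcases ih (k / 2 + 2) (by omega) hp2 (by omega) (by omega) hmis with h | h
          · omega
          · obtain ⟨_, _, _, h4⟩ := h
            have h5 : i = k / 2 - X := by omega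
            rw [← h5] at h4
            exact hne (hg.prime_eq hq hp2 h2 hle (by omega) hi1 (by omega) hi3 h4)
        refine ⟨hq2, hNp, hNd', ?_⟩
        have h5 : i = k / 2 - X := by omega
        rw [← h5]; exact hi3
      · exfalso
        rcases ih (i + X) hNlt hNp (by omega) (by omega) hNd' with h | h
        · omega
        · obtain ⟨h4, h5, h6, _⟩ := h
          obtain ⟨_, _, hpos⟩ := y_half hk hg (by omega) low h5 h6
          have hposj : ((k / 2 : ℕ) : ℤ) ∣ x + (i : ℤ) := by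
            have e : x + (i : ℤ) = x + ((2 - X : ℕ) : ℤ) + ((k / 2 : ℕ) : ℤ) := by omega
            rw [e]
            exact dvd_add hpos (dvd_refl _)
          have := hg.prime_eq hq h5 h2 hle (by omega) hi1 (by omega) hi3 hposj
          omega

/-- type 2: the misplaced primes come in twin pairs -/
theorem y_chain2 {k : ℕ} {x : ℤ} (hk : 16 ≤ k) (hg : Good k x)
    (low : ∀ n : ℕ, 1 ≤ n → n < k / 2 → (n : ℤ) ∣ x - ((2 : ℕ) : ℤ))
    (htwo : ∃ p : ℕ, p.Prime ∧ (p + 2).Prime ∧ (2 * p + 1).Prime ∧ k + 1 = 2 * p) :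
    ∀ q : ℕ, q.Prime → k < 2 * q → q ≤ k → ¬ (q : ℤ) ∣ x - ((2 : ℕ) : ℤ) →
      ∃ s : ℕ, s.Prime ∧ (s + 2).Prime ∧ k < 2 * s ∧ s + 2 ≤ k ∧
        ¬ (s : ℤ) ∣ x - ((2 : ℕ) : ℤ) ∧ ¬ ((s + 2 : ℕ) : ℤ) ∣ x - ((2 : ℕ) : ℤ) ∧
        (s : ℤ) ∣ x + s ∧ ((s + 2 : ℕ) : ℤ) ∣ x + ((s - 2 : ℕ) : ℤ) ∧ (q = s ∨ q = s + 2) := by
  obtain ⟨p, hp, hp2, _, hkp⟩ := htwo
  have hm3 := twin_mod3 hp hp2 (by omega)
  have hknp : ¬ k.Prime := by
    intro h
    have := (Nat.prime_dvd_prime_iff_eq Nat.prime_three h).1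
      (Nat.dvd_of_mod_eq_zero (by omega))
    omega
  have hpodd : p % 2 = 1 := by
    rcases hp.eq_two_or_odd with h | h <;> omega
  -- the basic step
  have step : ∀ q : ℕ, q.Prime → k < 2 * q → q ≤ k → ¬ (q : ℤ) ∣ x - ((2 : ℕ) : ℤ) →
      ∃ i : ℕ, 1 ≤ i ∧ i ≤ q ∧ (q : ℤ) ∣ x + i ∧ (i + 2).Prime ∧ k < 2 * (i + 2) ∧ i + 2 ≤ k ∧
        ¬ ((i + 2 : ℕ) : ℤ) ∣ x - ((2 : ℕ) : ℤ) ∧ (i + 2 < q ∨ i + 2 = q + 2) := by
    intro q hq h2 hle hnd
    obtain ⟨i, hi1, hi2, hi3⟩ := exists_posN hq.pos x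
    obtain ⟨_, hN⟩ := y_prime hk hg (by omega) low hq h2 hle hnd hi1 (by omega) hi3
    rcases hN with hN | ⟨hNp, hNk, hNq, hNd⟩
    · omega
    have hodd : q % 2 = 1 := by
      rcases hq.eq_two_or_odd with h | h <;> omega
    have hNodd : (i + 2) % 2 = 1 := by
      rcases hNp.eq_two_or_odd with h | h <;> omega
    have hle2 : i + 2 ≤ k := by
      by_contra hgt
      have : q = k := by omega
      exact hknp (this ▸ hq)
    exact ⟨i, hi1, hi2, hi3, hNp, by omega, hle2, hNd hle2, by omega⟩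
  intro q
  induction q using Nat.strong_induction_on with
  | _ q ih =>
    intro hq h2 hle hnd
    obtain ⟨i, hi1, hi2, hi3, hNp, hN2, hNk, hNd, hcase⟩ := step q hq h2 hle hnd
    rcases hcase with hlt | heq
    · obtain ⟨s, hs, hs2, hks, hsk, hsd, hsd2, hps, hps2, hor⟩ := ih (i + 2) hlt hNp hN2 hNk hNd
      rcases hor with h | h
      · have h5 : i = s - 2 := by omega
        rw [h5] at hi3 hi1
        have := hg.prime_eq hq hs2 h2 hle hsk hi1 (by omega) hi3 hps2
        exact ⟨s, hs, hs2, hks, hsk, hsd, hsd2, hps, hps2, Or.inr this⟩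
      · exfalso
        have h5 : i = s := by omega
        rw [h5] at hi3 hi1
        have := hg.prime_eq hq hs h2 hle (by omega) hi1 (by omega) hi3 hps
        omega
    · have hiq : i = q := by omega
      rw [hiq] at hi3 hNp hN2 hNk hNd
      have h3q : q % 3 = 2 := twin_mod3 hq hNp (by omega)
      obtain ⟨j, hj1, hj2, hj3, hMp, hM2, hMk, hMd, hcase'⟩ := step (q + 2) hNp hN2 hNk hNd
      rcases hcase' with hlt' | heq'
      · have hModd : (j + 2) % 2 = 1 := by
          rcases hMp.eq_two_or_odd with h | h <;> omega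
        have hqodd : q % 2 = 1 := by
          rcases hq.eq_two_or_odd with h | h <;> omega
        rcases Nat.lt_or_ge (j + 2) q with hMq | hMq
        · exfalso
          obtain ⟨s, hs, hs2, hks, hsk, hsd, hsd2, hps, hps2, hor⟩ :=
            ih (j + 2) hMq hMp hM2 hMk hMd
          rcases hor with h | h
          · have h5 : j = s - 2 := by omega
            rw [h5] at hj3 hj1
            have := hg.prime_eq hNp hs2 hN2 hNk hsk hj1 (by omega) hj3 hps2
            omega
          · have h5 : j = s := by omega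
            rw [h5] at hj3 hj1
            have := hg.prime_eq hNp hs hN2 hNk (by omega) hj1 (by omega) hj3 hps
            omega
        · have h5 : j = q - 2 := by omega
          rw [h5] at hj3
          exact ⟨q, hq, hNp, h2, hNk, hnd, hNd, hi3, hj3, Or.inl rfl⟩
      · exfalso
        have h6 : j + 2 = q + 4 := by omega
        rw [h6] at hMp
        have := (Nat.prime_dvd_prime_iff_eq Nat.prime_three hMp).1
          (Nat.dvd_of_mod_eq_zero (by omega))
        omega

theorem mid_of_low {k : ℕ} {x : ℤ} {X : ℕ} (hk : 16 ≤ k) (hg : Good k x)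
    (low : ∀ n : ℕ, 1 ≤ n → n < k / 2 → (n : ℤ) ∣ x - X) (hX : X ≤ 1) :
    ∀ q : ℕ, q.Prime → 2 * k < 3 * q → q < k → (q : ℤ) ∣ x - X := by
  intro q hq h1 h2
  by_contra hnd
  rcases y_chain01 hk hg hX low q hq (by omega) (by omega) hnd with h | h <;> omega

/-- the classification of all good windows -/
theorem class_main {k : ℕ} (hk : 16 ≤ k) {x : ℤ} (h : Good k x) :
    ∃ X : ℕ, Cls k x X ∨ Cls k (-((k : ℤ) + 1) - x) X := by
  induction k using Nat.strong_induction_on generalizing x with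
  | _ k ih =>
    have fin : ∀ (y : ℤ) (X : ℕ), (y = x ∨ y = -((k : ℤ) + 1) - x) → X ≤ 2 →
        (∀ n : ℕ, 1 ≤ n → n < k / 2 → (n : ℤ) ∣ y - X) → (X = 1 → (k + 1).Prime) →
        (X = 2 → ∃ p : ℕ, p.Prime ∧ (p + 2).Prime ∧ (2 * p + 1).Prime ∧ k + 1 = 2 * p) →
        ∃ X : ℕ, Cls k x X ∨ Cls k (-((k : ℤ) + 1) - x) X := by
      intro y X hy hX low one two
      have hgy : Good k y := by
        rcases hy with rfl | rfl
        · exact h
        · exact h.rev
      have hc : Cls k y X := ⟨hX, low, fun hX1 => mid_of_low hk hgy low hX1, one, two⟩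
      rcases hy with rfl | rfl
      · exact ⟨X, Or.inl hc⟩
      · exact ⟨X, Or.inr hc⟩
    rcases Nat.lt_or_ge k 48 with hlt | hge
    · obtain ⟨X, hX, y, hy, low, one, two⟩ := base_case hk hlt h
      exact fin y X hy hX low one two
    · obtain ⟨y, hy, A, B, X, hgl⟩ := exists_glue hge h (fun k' h1 h2 x' h3 => ih k' h2 h1 h3)
      exact fin y X hy hgl.le2 (low_step hge hgl.hg hgl.le2 hgl.low4 (hgl.mid hgl.le2))
        hgl.one hgl.two

end WCS9
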